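import Mathlib
import Pool.Agent.Lib.H13T.D
import Pool.Agent.Lib.H13R.D
import Pool.Agent.Lib.H13R.C3
import Pool.Agent.Lib.H13R.R6
import Pool.Agent.Lib.H13R.E1
import Pool.Agent.Lib.H13X.XT

/-! # H13T, part C: the fields: definitions -/

open NumberField IsDedekindDomain WeierstrassCurve

namespace H13T

open H55P

open scoped Classical

section

variable {F : Type} [Field F] {Ω : Type} [Field Ω] [Algebra F Ω]

/-- M ≤ N' ≤ N, N/M Galois and cyclic of degree p^(n+1), γ a generator, N' the subfield of degree p^n over M. -/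
structure CycI (p n : ℕ) (M N' N : IntermediateField F Ω) (γ : Ω ≃ₐ[F] Ω) : Prop where
  pos : 1 ≤ n
  fin : FiniteDimensional F N
  le : M ≤ N'
  le' : N' ≤ N
  gam : γ ∈ M.fixingSubgroup
  nrm : ∀ s ∈ M.fixingSubgroup, ∀ x ∈ N, s x ∈ N
  gen : ∀ s ∈ M.fixingSubgroup, ∃ k : ℕ, ∃ u ∈ N.fixingSubgroup, s = γ ^ k * u
  ord : ∀ k : ℕ, γ ^ k ∈ N.fixingSubgroup ↔ p ^ (n + 1) ∣ k
  mid : ∀ k : ℕ, γ ^ k ∈ N'.fixingSubgroup ↔ p ^ n ∣ k
  deg : Module.finrank F N = Module.finrank F M * p ^ (n + 1)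
  deg' : Module.finrank F N = Module.finrank F N' * p

/-- The relaxed places: ramified in N/N', and a nonzero point of order p is fixed by the decomposition group over N'. -/
def RV (W : WeierstrassCurve F) (p : ℕ) (N' N : IntermediateField F Ω) (V : ValuationSubring Ω) : Prop :=
  (∃ s ∈ N'.fixingSubgroup, Inert V s ∧ s ∉ N.fixingSubgroup) ∧
    ∃ T : Pt W Ω, T ≠ 0 ∧ p • T = 0 ∧ ∀ s ∈ N'.fixingSubgroup, Dec V s → ac W s T = T

end

/-- The primes of N' which do not divide the discriminant, are ramified in N, and where p divides the number of points. -/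
def AnW {F : Type} [Field F] [NumberField F] {Ω : Type} [Field Ω] [Algebra F Ω] (p : ℕ) (W₀ : WeierstrassCurve (𝓞 F))
    (N' N : IntermediateField F Ω) [NumberField N'] : Set (HeightOneSpectrum (𝓞 N')) :=
  {w | algebraMap (𝓞 F) (𝓞 N') W₀.Δ ∉ w.asIdeal ∧ Ram N' N w.asIdeal ∧
    p ∣ Nat.card (W₀⁄(𝓞 N' ⧸ w.asIdeal)).toAffine.Point}

end H13T
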