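import Mathlib
import Pool.Agent.Lib.H13T.C0

/-! Chunk C2 (S/M). Group theory of the cyclic tower (c : CycI p n M N' N γ). η = γ^(p^(n-1)); p^(n-1) * p = p^n (n ≥ 1), p^n * p = p^(n+1).
c2_nN: s u s⁻¹ in N.fixingSubgroup for s in M.fixingSubgroup, u in N.fixingSubgroup: for x in N s⁻¹ x in N (c.nrm), u (s⁻¹ x) = s⁻¹ x. c2_comm: a = γ^i u, b = γ^j v: modulo the normal subgroup N.fixingSubgroup (in M.fixingSubgroup) both are powers of γ.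
c2_nN': s = γ^k u: conj of N'.fixingSubgroup: N'.fixingSubgroup = {γ^(p^n i) u'} (s in N'.fixingSubgroup is γ^k u with u in N.fixingSubgroup ≤ N'.fixingSubgroup, so γ^k in N'.fixingSubgroup, p^n | k); use c2_comm: s a s⁻¹ = (s a s⁻¹ a⁻¹) a. c2_iff: from c2_nN, c2_nN' for g and g⁻¹.
c2_eta: powers of γ and c.mid, c.ord. c2_gen: h = γ^k u, p^n | k, γ^k = (η^p)^(k/p^n). c2_pext: PExt p M N (fin, le, norm = nrm, deg); PExt p M N' (norm from c2_nN': x in N' iff fixed by N'.fixingSubgroup: IntermediateField.. InfiniteGalois.fixedField_fixingSubgroup, Ω/F Galois; deg' and deg: finrank F N' = finrank F M * p^n by cancelling p).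
c2_pextT: PExt p N' N. -/

open NumberField IsDedekindDomain WeierstrassCurve

namespace H13T

open H55P

variable {F : Type} [Field F] [CharZero F] {Ω : Type} [Field Ω] [Algebra F Ω] [IsAlgClosure F Ω] {p n : ℕ} {M N' N : IntermediateField F Ω} {γ : Ω ≃ₐ[F] Ω}

theorem c2_nN (c : CycI p n M N' N γ) (s : Ω ≃ₐ[F] Ω) (hs : s ∈ M.fixingSubgroup) (u : Ω ≃ₐ[F] Ω) (hu : u ∈ N.fixingSubgroup) :
    s * u * s⁻¹ ∈ N.fixingSubgroup := by
  rw [IntermediateField.mem_fixingSubgroup_iff]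
  intro x hx
  have h1 : s⁻¹ x ∈ N := c.nrm s⁻¹ (inv_mem hs) x hx
  have h2 : u (s⁻¹ x) = s⁻¹ x := (IntermediateField.mem_fixingSubgroup_iff _ _).1 hu _ h1
  have h3 : (s * u * s⁻¹) x = s (u (s⁻¹ x)) := rfl
  have h4 : s (s⁻¹ x) = (s * s⁻¹) x := rfl
  rw [h3, h2, h4, mul_inv_cancel]
  rfl

omit [CharZero F] [IsAlgClosure F Ω] in
theorem c2_le (c : CycI p n M N' N γ) : N.fixingSubgroup ≤ N'.fixingSubgroup := by
  intro s hs
  rw [IntermediateField.mem_fixingSubgroup_iff] at hs ⊢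
  exact fun x hx => hs x (c.le' hx)

omit [CharZero F] [IsAlgClosure F Ω] in
theorem c2_le' (c : CycI p n M N' N γ) : N'.fixingSubgroup ≤ M.fixingSubgroup := by
  intro s hs
  rw [IntermediateField.mem_fixingSubgroup_iff] at hs ⊢
  exact fun x hx => hs x (c.le hx)

theorem c2_comm (c : CycI p n M N' N γ) (a : Ω ≃ₐ[F] Ω) (ha : a ∈ M.fixingSubgroup) (b : Ω ≃ₐ[F] Ω) (hb : b ∈ M.fixingSubgroup) :
    a * b * a⁻¹ * b⁻¹ ∈ N.fixingSubgroup := by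
  obtain ⟨i, u, hu, rfl⟩ := c.gen a ha
  obtain ⟨j, v, hv, rfl⟩ := c.gen b hb
  have hA : γ ^ i ∈ M.fixingSubgroup := pow_mem c.gam i
  have hB : γ ^ j ∈ M.fixingSubgroup := pow_mem c.gam j
  have hAB : γ ^ i * γ ^ j = γ ^ j * γ ^ i := by rw [← pow_add, ← pow_add, add_comm]
  generalize γ ^ i = A at hA hAB ⊢
  generalize γ ^ j = B at hB hAB ⊢
  have h1 : B⁻¹ * A⁻¹ * B = A⁻¹ := by
    rw [← _root_.mul_inv_rev, hAB, _root_.mul_inv_rev, inv_mul_cancel_right]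
  have h2 : A * u * (B * v) * (A * u)⁻¹ * (B * v)⁻¹ = A * (u * (B * (v * u⁻¹) * B⁻¹)) * A⁻¹ * (B * v⁻¹ * B⁻¹) := by
    have h3 : A * (u * (B * (v * u⁻¹) * B⁻¹)) * A⁻¹ * (B * v⁻¹ * B⁻¹) = A * u * B * v * u⁻¹ * (B⁻¹ * A⁻¹ * B) * v⁻¹ * B⁻¹ := by group
    rw [h3, h1]
    group
  rw [h2]
  refine mul_mem (c2_nN c A hA _ (mul_mem hu (c2_nN c B hB _ (mul_mem hv (inv_mem hu))))) (c2_nN c B hB _ (inv_mem hv))

theorem c2_nN' (c : CycI p n M N' N γ) (s : Ω ≃ₐ[F] Ω) (hs : s ∈ M.fixingSubgroup) (a : Ω ≃ₐ[F] Ω) (ha : a ∈ N'.fixingSubgroup) :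
    s * a * s⁻¹ ∈ N'.fixingSubgroup := by
  have h1 : s * a * s⁻¹ = s * a * s⁻¹ * a⁻¹ * a := by rw [inv_mul_cancel_right]
  rw [h1]
  exact mul_mem (c2_le c (c2_comm c s hs a (c2_le' c ha))) ha

theorem c2_iff (c : CycI p n M N' N γ) (g : Ω ≃ₐ[F] Ω) (hg : g ∈ M.fixingSubgroup) :
    (∀ s, g * s * g⁻¹ ∈ N'.fixingSubgroup ↔ s ∈ N'.fixingSubgroup) ∧ (∀ s, g * s * g⁻¹ ∈ N.fixingSubgroup ↔ s ∈ N.fixingSubgroup) := by
  have e : ∀ s : Ω ≃ₐ[F] Ω, g⁻¹ * (g * s * g⁻¹) * g⁻¹⁻¹ = s := fun s => by group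
  refine ⟨fun s => ⟨fun h => ?_, fun h => c2_nN' c g hg s h⟩, fun s => ⟨fun h => ?_, fun h => c2_nN c g hg s h⟩⟩
  · have h1 := c2_nN' c g⁻¹ (inv_mem hg) _ h
    rwa [e] at h1
  · have h1 := c2_nN c g⁻¹ (inv_mem hg) _ h
    rwa [e] at h1

omit [CharZero F] [IsAlgClosure F Ω] in
theorem c2_pow (c : CycI p n M N' N γ) : p ^ (n - 1) * p = p ^ n := by
  rw [← pow_succ, Nat.sub_add_cancel c.pos]

theorem c2_eta (c : CycI p n M N' N γ) :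
    γ ^ p ^ (n - 1) ∈ M.fixingSubgroup ∧ (γ ^ p ^ (n - 1)) ^ p ∈ N'.fixingSubgroup ∧ (γ ^ p ^ (n - 1)) ^ (p * p) ∈ N.fixingSubgroup := by
  refine ⟨pow_mem c.gam _, ?_, ?_⟩
  · rw [← pow_mul, c2_pow c]
    exact (c.mid _).2 dvd_rfl
  · rw [← pow_mul, ← mul_assoc, c2_pow c, ← pow_succ]
    exact (c.ord _).2 dvd_rfl

theorem c2_gen (c : CycI p n M N' N γ) (h : Ω ≃ₐ[F] Ω) (hh : h ∈ N'.fixingSubgroup) :
    ∃ i : ℕ, ∃ u ∈ N.fixingSubgroup, h = ((γ ^ p ^ (n - 1)) ^ p) ^ i * u := by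
  obtain ⟨k, u, hu, rfl⟩ := c.gen h (c2_le' c hh)
  have h1 : γ ^ k ∈ N'.fixingSubgroup := by
    have h2 := mul_mem hh (inv_mem (c2_le c hu))
    rwa [mul_inv_cancel_right] at h2
  obtain ⟨i, hi⟩ := (c.mid k).1 h1
  refine ⟨i, u, hu, ?_⟩
  rw [← pow_mul γ, c2_pow c, ← pow_mul, ← hi]

theorem c2_pext (hp : 0 < p) (c : CycI p n M N' N γ) : PExt p M N ∧ PExt p M N' ∧ PExt p N' N := by
  have hfin := c.fin
  refine ⟨⟨c.fin, c.le.trans c.le', c.nrm, n + 1, c.deg⟩, ⟨?_, c.le, ?_, n, ?_⟩, ⟨c.fin, c.le', fun s hs => c.nrm s (c2_le' c hs), 1, ?_⟩⟩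
  · exact Submodule.finiteDimensional_of_le (S₁ := Subalgebra.toSubmodule N'.toSubalgebra) (S₂ := Subalgebra.toSubmodule N.toSubalgebra) c.le'
  · intro s hs x hx
    have hG : IsGalois F Ω := by
      have h1 : Normal F Ω := IsAlgClosure.normal F Ω
      exact IsGalois.mk
    rw [← InfiniteGalois.fixedField_fixingSubgroup N', IntermediateField.mem_fixedField_iff]
    intro u hu
    have h1 := c2_nN' c s⁻¹ (inv_mem hs) u hu
    have h2 := (IntermediateField.mem_fixingSubgroup_iff _ _).1 h1 x hx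
    have h3 : (s⁻¹ * u * s⁻¹⁻¹) x = s⁻¹ (u (s x)) := by
      rw [inv_inv]
      rfl
    rw [h3] at h2
    have h4 : s (s⁻¹ (u (s x))) = u (s x) := by
      have h5 : s (s⁻¹ (u (s x))) = (s * s⁻¹) (u (s x)) := rfl
      rw [h5, mul_inv_cancel]
      rfl
    rw [← h4, h2]
  · have h1 := c.deg
    rw [c.deg', pow_succ, ← mul_assoc] at h1
    exact Nat.eq_of_mul_eq_mul_right hp h1
  · rw [pow_one, c.deg']

end H13T
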