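import Mathlib
import Pool.Agent.Lib.H13T.C0
import Pool.Agent.Lib.H55K.SPA2

/-! Chunk C3 (M). A relaxed place, short curve: the decomposition group over N' fixes all points killed by p. V above the prime w of N', w does not contain p, p divides absNorm w - 1 (ramification).
PROOF. H13R.lk_piR (Lib/H13R/R6.lean) with T: a prime element π of 𝓞 F, π | p, such that the decomposition group D = DecN N' V fixes Tor act π. exists_pairing (Lib/H55K/SPA2.lean; H55K.S): a pairing e : Tor act π × Tor act (cj π) → p-th roots of unity, bilinear, nondegenerate, equivariant.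
(a) s in D fixes the p-th roots of unity ζ: 𝓞 N'/w has absNorm w elements, p | absNorm w - 1, so it contains p different p-th roots of 1 and some a in 𝓞 N' has V.valuation (ζ - a) < 1 (the p-th roots of unity are different modulo V since V.valuation p = 1: differences divide p; Lib/H13X/XLK, XNV or H55K.SMU contain such arguments: grep root of unity, mu);
then s ζ - ζ = s (ζ - a) - (ζ - a) has value < 1 (Dec V s), so s ζ = ζ.
(b) s in D fixes Tor act (cj π): e(S, s T) = e(s S, s T) = s e(S, T) = e(S, T) for all S in Tor act π, so s T = T by nondegeneracy.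
(c) if π and cj π are not associated: p = unit π cj π and every T killed by p is a sum of points of Tor act π and Tor act (cj π) (a π + b cj π = 1). If they are associated: either p is inert (π associated to p: p unramified) and Tor act π is everything killed by p. (hp.unr: p is unramified; exists_prime_above, H13R.lk_piR proof; Nm_mul, Nm_nat: π cj π = Nm π.) -/

open NumberField IsDedekindDomain WeierstrassCurve

namespace H13T

open H55P H55K H55K.S
open H35P (WAB)
open H13S (Abv)
open H13X (DecN)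

open scoped Classical

variable {F : Type} [Field F] [NumberField F] [IQ F] {A B : F} {Om : ℂ}
  {j : AlgebraicClosure F →+* ℂ} {act : 𝓞 F →+* AddMonoid.End (Pt (WAB A B) (AlgebraicClosure F))} {mo : Ideal (𝓞 F)}
  {ψ : Ideal (𝓞 F) →*₀ 𝓞 F} {p : ℕ}

/-- A root of unity of order p congruent to 1 is 1. -/
theorem c3_one {Ω : Type} [Field Ω] (V : ValuationSubring Ω) {p : ℕ} (hV : ¬ V.valuation (p : Ω) < 1) {ξ : Ω} (hξl : ξ ^ p = 1)
    (hξv : V.valuation (ξ - 1) < 1) : ξ = 1 := by
  by_contra hξ1
  have hξV : ξ ∈ V := by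
    have h1 : ξ - 1 ∈ V := (V.valuation_le_one_iff _).1 hξv.le
    have h2 := V.add_mem _ _ h1 V.one_mem
    rwa [sub_add_cancel] at h2
  let x : V := ⟨ξ, hξV⟩
  have hr : IsLocalRing.residue V x = 1 := by
    have h1 : x - 1 ∈ IsLocalRing.maximalIdeal V := by
      rw [ValuationSubring.valuation_lt_one_iff]
      exact hξv
    have h2 := (IsLocalRing.residue_eq_zero_iff _).2 h1
    rw [map_sub, map_one, sub_eq_zero] at h2
    exact h2
  have hsum : ∑ i ∈ Finset.range p, x ^ i = 0 := by
    apply Subtype.ext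
    have h1 := geom_sum_mul ξ p
    rw [hξl, sub_self] at h1
    have h2 := (mul_eq_zero.1 h1).resolve_right (sub_ne_zero.2 hξ1)
    rw [ZeroMemClass.coe_zero, ← h2]
    push_cast
    rfl
  have h1 : IsLocalRing.residue V (p : V) = 0 := by
    have h2 := congrArg (IsLocalRing.residue V) hsum
    rw [map_sum, map_zero] at h2
    simp only [map_pow, hr, one_pow, Finset.sum_const, Finset.card_range, nsmul_eq_mul, mul_one] at h2
    rw [map_natCast]
    exact h2
  apply hV
  have h2 := (IsLocalRing.residue_eq_zero_iff _).1 h1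
  exact (ValuationSubring.valuation_lt_one_iff V (p : V)).1 h2

omit [IQ F] in
/-- The decomposition group fixes the p-th roots of unity. -/
theorem c3_mu {Ω : Type} [Field Ω] [Algebra F Ω] (N' : IntermediateField F Ω) [NumberField N']
    {V : ValuationSubring Ω} {w : HeightOneSpectrum (𝓞 N')} (hV : Abv N' V w) (hp : p.Prime) (hpw : (p : 𝓞 N') ∉ w.asIdeal)
    (hn : p ∣ Ideal.absNorm w.asIdeal - 1) {s : Ω ≃ₐ[F] Ω} (hs : DecN N' V s) {ζ : Ω} (hζ : ζ ^ p = 1) : s ζ = ζ := by
  classical
  have hp0 : p ≠ 0 := hp.ne_zero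
  have := Fact.mk hp
  have : NeZero p := ⟨hp0⟩
  have hVp : ¬ V.valuation (p : Ω) < 1 := by
    intro h
    have h1 := (H13S.Abv.lt hV ((p : 𝓞 N') : N')).1 (by
      have e1 : ((p : 𝓞 N') : N') = p := map_natCast (algebraMap (𝓞 N') N') p
      rw [e1]
      push_cast
      exact h)
    exact hpw ((w.valuation_lt_one_iff_mem _).1 h1)
  -- a root of unity in the residue field
  have hmax : w.asIdeal.IsMaximal := w.isMaximal
  let _ : Field (𝓞 N' ⧸ w.asIdeal) := Ideal.Quotient.field w.asIdeal
  have hfin : Finite (𝓞 N' ⧸ w.asIdeal) := Ideal.finiteQuotientOfFreeOfNeBot w.asIdeal w.ne_bot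
  have hcard : Nat.card (𝓞 N' ⧸ w.asIdeal)ˣ = Ideal.absNorm w.asIdeal - 1 := by
    rw [Nat.card_units, Ideal.absNorm_apply, Submodule.cardQuot_apply]
  obtain ⟨u, hu⟩ := exists_prime_orderOf_dvd_card' (G := (𝓞 N' ⧸ w.asIdeal)ˣ) p (by rw [hcard]; exact hn)
  obtain ⟨a, ha⟩ := Ideal.Quotient.mk_surjective (I := w.asIdeal) (u : 𝓞 N' ⧸ w.asIdeal)
  have hap : a ^ p - 1 ∈ w.asIdeal := by
    rw [← Ideal.Quotient.eq_zero_iff_mem, map_sub, map_pow, map_one, ha, ← Units.val_pow_eq_pow_val, ← hu, pow_orderOf_eq_one, Units.val_one, sub_self]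
  have ha1 : a - 1 ∉ w.asIdeal := by
    intro h
    rw [← Ideal.Quotient.eq_zero_iff_mem, map_sub, map_one, ha, sub_eq_zero] at h
    have h2 : u = 1 := Units.ext h
    rw [h2, orderOf_one] at hu
    exact hp.one_lt.ne hu
  set α : Ω := ((a : N') : Ω) with hα
  have hαV : V.valuation α ≤ 1 := (V.valuation_le_one_iff _).2 ((hV (a : N')).2 (w.valuation_le_one a))
  have hαp : V.valuation (α ^ p - 1) < 1 := by
    have h1 := (H13S.Abv.lt hV ((a ^ p - 1 : 𝓞 N') : N')).2 ((w.valuation_lt_one_iff_mem _).2 hap)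
    have e1 : (((a ^ p - 1 : 𝓞 N') : N') : Ω) = α ^ p - 1 := by
      rw [hα]
      push_cast
      rfl
    rwa [e1] at h1
  have hα1 : ¬ V.valuation (α - 1) < 1 := by
    intro h
    have e1 : (((a - 1 : 𝓞 N') : N') : Ω) = α - 1 := by
      rw [hα]
      push_cast
      rfl
    rw [← e1] at h
    exact ha1 ((w.valuation_lt_one_iff_mem _).1 ((H13S.Abv.lt hV _).1 h))
  by_cases hζ1 : ζ = 1
  · rw [hζ1, map_one]
  have hprim : IsPrimitiveRoot ζ p := by
    have h1 := orderOf_eq_prime hζ hζ1
    rw [← h1]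
    exact IsPrimitiveRoot.orderOf ζ
  have hval1 : ∀ μ : Ω, μ ^ p = 1 → V.valuation μ = 1 := by
    intro μ hμ
    have h1 : V.valuation μ ^ p = 1 := by rw [← map_pow, hμ, map_one]
    exact (pow_eq_one_iff_of_nonneg zero_le hp0).1 h1
  obtain ⟨μ, hμ, hμv⟩ : ∃ μ : Ω, μ ^ p = 1 ∧ V.valuation (α - μ) < 1 := by
    by_contra hcon
    push Not at hcon
    have h1 := congrArg (Polynomial.eval α) (Polynomial.X_pow_sub_one_eq_prod hp.pos hprim)
    rw [Polynomial.eval_prod] at h1
    simp only [Polynomial.eval_sub, Polynomial.eval_pow, Polynomial.eval_X, Polynomial.eval_one, Polynomial.eval_C] at h1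
    rw [h1, map_prod] at hαp
    refine absurd hαp (not_lt.2 ?_)
    refine Finset.one_le_prod' fun μ hμ => hcon μ ?_
    exact (Polynomial.mem_nthRootsFinset hp.pos 1).1 hμ
  have hμ1 : μ ≠ 1 := by
    rintro rfl
    exact hα1 hμv
  have hprim' : IsPrimitiveRoot μ p := by
    have h1 := orderOf_eq_prime hμ hμ1
    rw [← h1]
    exact IsPrimitiveRoot.orderOf μ
  have hsμ : s μ = μ := by
    have hμ0 : μ ≠ 0 := hprim'.ne_zero hp0
    have hsα : s α = α := (IntermediateField.mem_fixingSubgroup_iff N' s).1 hs.1 α (a : N').2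
    have h1 : V.valuation (s μ - α) < 1 := by
      have h2 : s μ - α = s (μ - α) := by rw [map_sub, hsα]
      rw [h2]
      refine (H13X.Dec.lt_one hs.2 _).2 ?_
      rw [← Valuation.map_neg, neg_sub]
      exact hμv
    have h3 : V.valuation (s μ - μ) < 1 := by
      have h4 : s μ - μ = (s μ - α) + (α - μ) := by ring
      rw [h4]
      exact Valuation.map_add_lt _ h1 hμv
    have h5 : s μ / μ = 1 := by
      refine c3_one V hVp ?_ ?_
      · rw [div_pow, ← map_pow, hμ, map_one, div_one]
      · have h6 : s μ / μ - 1 = (s μ - μ) / μ := by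
          rw [sub_div, div_self hμ0]
        rw [h6, map_div₀, hval1 μ hμ, div_one]
        exact h3
    exact (div_eq_one_iff_eq hμ0).1 h5
  obtain ⟨i, _, rfl⟩ := hprim'.eq_pow_of_pow_eq_one hζ
  rw [map_pow, hsμ]

theorem c3_fix (dta : Dta A B Om j act mo ψ p) (hF : ∀ v : HeightOneSpectrum (𝓞 F), (p : 𝓞 F) ∉ v.asIdeal ^ 2)
    (N' : IntermediateField F (AlgebraicClosure F)) [NumberField N']
    {V : ValuationSubring (AlgebraicClosure F)} {w : HeightOneSpectrum (𝓞 N')} (hV : Abv N' V w) (hpw : (p : 𝓞 N') ∉ w.asIdeal)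
    (hn : p ∣ Ideal.absNorm w.asIdeal - 1) {T : Pt (WAB A B) (AlgebraicClosure F)} (hT0 : T ≠ 0) (hT : p • T = 0)
    (hf : ∀ s, DecN N' V s → ac (WAB A B) s T = T) (s : AlgebraicClosure F ≃ₐ[F] AlgebraicClosure F) (hs : DecN N' V s)
    (S : Pt (WAB A B) (AlgebraicClosure F)) (hS : p • S = 0) : ac (WAB A B) s S = S := by
  have hA := dta.cma
  have hp := dta.prime
  obtain ⟨π, hπ, hd, hfix⟩ := H13R.lk_piR hA hp hF N' hT0 hT hf
  have hSl : act (p : 𝓞 F) S = 0 := by
    rw [act_nat (act := act)]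
    exact hS
  rcases dichotomy hp hF hπ hd with ⟨-, -, h3⟩ | ⟨h1, -, -, hll⟩
  · refine hfix s hs S ?_
    rw [← tor_assoc h3]
    exact hSl
  · obtain ⟨e, he⟩ := exists_pairing π p dta hπ hd
    have hfix' : ∀ R ∈ Tor act (cj π), ac (WAB A B) s R = R := by
      intro R hR
      have hsR := ac_mem hA s hR
      rw [← sub_eq_zero]
      refine he.nondeg _ ((Tor act (cj π)).sub_mem hsR hR) fun T' hT' => ?_
      have h4 : s (e R T') = e R T' := c3_mu N' hV hp hpw hn hs (he.root R hR T' hT')
      have h5 := he.gal s R hR T' hT'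
      rw [h4, hfix s hs T' hT'] at h5
      have h6 := he.add_left _ ((Tor act (cj π)).sub_mem hsR hR) _ hR T' hT'
      rw [sub_add_cancel, ← h5] at h6
      have h7 : e R T' ≠ 0 := by
        intro h
        have h8 := he.root R hR T' hT'
        rw [h, zero_pow hp.ne_zero] at h8
        exact zero_ne_one h8
      exact mul_right_cancel₀ h7 (by rw [one_mul]; exact h6.symm)
    have hmax : (Ideal.span {π}).IsMaximal :=
      ((Ideal.span_singleton_prime hπ.ne_zero).2 hπ).isMaximal (by rw [Ne, Ideal.span_singleton_eq_bot]; exact hπ.ne_zero)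
    have hcj : cj π ∉ Ideal.span {π} := fun h => h1 (Ideal.mem_span_singleton.1 h)
    obtain ⟨y, z, hz, hyz⟩ := hmax.exists_inv hcj
    obtain ⟨z', rfl⟩ := Ideal.mem_span_singleton'.1 hz
    have h8 : act (cj π) (ac (WAB A B) s S) = act (cj π) S := by
      rw [← ac_act hA]
      refine hfix s hs _ ?_
      rw [mem_Tor, ← act_mul, hll]
      exact hSl
    have h9 : act π (ac (WAB A B) s S) = act π S := by
      rw [← ac_act hA]
      refine hfix' _ ?_
      rw [mem_Tor, ← act_mul, mul_comm, hll]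
      exact hSl
    have h10 : act (y * cj π + z' * π) (ac (WAB A B) s S) = act (y * cj π + z' * π) S := by
      rw [act_add, act_add, act_mul, act_mul, act_mul, act_mul, h8, h9]
    rwa [hyz, act_one, act_one] at h10

end H13T
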