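import Mathlib
import Pool.Agent.Lib.H13R.G4
import Pool.Agent.Lib.H55P.S13

/-! # H13T, module E: one class for one prime (surjectivity) -/

open NumberField IsDedekindDomain WeierstrassCurve

namespace H13T

open H55P (IQ embF eF LF Per IsHecke Pt ac acR Inert Dec Nm Coc PExt UnrP Ram RamF SelZero s13_alg s13_galois s13_fin)
open H35P (WAB Ker tt)
open H55K (Tor ak xc yc CMA Dta GV GMod cj cj_cj mul_cj cj_prime cj_dvd cj_nat Nm_cj Nm_mul Nm_nat tor_gen)
open H55K.S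
open H13S (Abv)
open H13X

section coset

variable {F : Type} [Field F] [NumberField F] {Ω : Type} [Field Ω] [DecidableEq Ω] [Algebra F Ω] [IsAlgClosure F Ω]

/-- In a Galois step of prime degree l the powers of an element outside the smaller group represent all cosets. -/
theorem pow_coset {l : ℕ} (hl : l.Prime) {N N' : IntermediateField F Ω} [FiniteDimensional F N'] (hNN : N ≤ N')
    (hn : ∀ s ∈ N.fixingSubgroup, ∀ x ∈ N', s x ∈ N') (hd : Module.finrank F N' = Module.finrank F N * l)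
    {τ : Ω ≃ₐ[F] Ω} (hτ : τ ∈ N.fixingSubgroup) (hτ' : τ ∉ N'.fixingSubgroup) {s : Ω ≃ₐ[F] Ω}
    (hs : s ∈ N.fixingSubgroup) : ∃ k : ℕ, (τ ^ k)⁻¹ * s ∈ N'.fixingSubgroup := by
  have hac : IsAlgClosed Ω := IsAlgClosure.isAlgClosed F
  have halg : Algebra.IsAlgebraic F Ω := IsAlgClosure.isAlgebraic
  have hch : CharZero Ω := charZero_of_injective_algebraMap (algebraMap F Ω).injective
  let _ : Algebra N N' := s13_alg hNN
  have hgal : IsGalois N N' := s13_galois N N' hNN hn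
  have hNf : FiniteDimensional F N := s13_fin hNN
  have hst : IsScalarTower F N N' := IsScalarTower.of_algebraMap_eq fun x => rfl
  have hst' : IsScalarTower N N' Ω := IsScalarTower.of_algebraMap_eq fun x => rfl
  have hfr : Module.finrank N N' = l := by
    have h1 := Module.finrank_mul_finrank F N N'
    rw [hd] at h1
    exact Nat.eq_of_mul_eq_mul_left Module.finrank_pos h1
  have hfd : FiniteDimensional N N' := Module.finite_of_finrank_pos (by rw [hfr]; exact hl.pos)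
  have hcard : Nat.card (N' ≃ₐ[N] N') = l := by rw [IsGalois.card_aut_eq_finrank, hfr]
  have hnorm : Normal N N' := hgal.to_normal
  let r : N.fixingSubgroup →* (N' ≃ₐ[N] N') :=
    (AlgEquiv.restrictNormalHom (F := N) (K₁ := Ω) N').comp (IntermediateField.fixingSubgroupEquiv N).toMonoidHom
  have hr : ∀ (g : N.fixingSubgroup) (x : N'), ((r g x : N') : Ω) = (g : Ω ≃ₐ[F] Ω) (x : Ω) := by
    intro g x
    exact AlgEquiv.restrictNormal_commutes ((IntermediateField.fixingSubgroupEquiv N) g) N' x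
  have hker : ∀ g : N.fixingSubgroup, r g = 1 ↔ (g : Ω ≃ₐ[F] Ω) ∈ N'.fixingSubgroup := by
    intro g
    rw [IntermediateField.mem_fixingSubgroup_iff]
    constructor
    · intro h x hx
      have h1 := hr g ⟨x, hx⟩
      rw [h] at h1
      exact h1.symm
    · intro h
      ext x
      rw [hr g x]
      exact h x x.2
  have hfin : Finite (N' ≃ₐ[N] N') := Nat.finite_of_card_ne_zero (by rw [hcard]; exact hl.ne_zero)
  have hlp : Fact l.Prime := ⟨hl⟩
  have hne : r ⟨τ, hτ⟩ ≠ 1 := fun h => hτ' ((hker _).1 h)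
  have hmem : r ⟨s, hs⟩ ∈ Submonoid.powers (r ⟨τ, hτ⟩) := by
    have h1 := mem_zpowers_of_prime_card (G := N' ≃ₐ[N] N') hcard (g := r ⟨τ, hτ⟩) (g' := r ⟨s, hs⟩) hne
    exact mem_powers_iff_mem_zpowers.2 h1
  obtain ⟨k, hk⟩ := hmem
  refine ⟨k, ?_⟩
  have h1 : r ((⟨τ, hτ⟩ ^ k)⁻¹ * ⟨s, hs⟩) = 1 := by
    rw [map_mul, map_inv, map_pow]
    have hk' : r ⟨τ, hτ⟩ ^ k = r ⟨s, hs⟩ := hk
    rw [hk', inv_mul_cancel]
  exact (hker _).1 h1

end coset

variable {F : Type} [Field F] [NumberField F] [IQ F] {A B : F} {Om : ℂ} {Ω : Type} [Field Ω] [DecidableEq Ω]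
  [Algebra F Ω] [IsAlgClosure F Ω] {j : Ω →+* ℂ} {act : 𝓞 F →+* AddMonoid.End (Pt (WAB A B) Ω)} {mo : Ideal (𝓞 F)}
  {ψ : Ideal (𝓞 F) →*₀ 𝓞 F} {π : 𝓞 F} {l : ℕ}

/-- c is a class on N with values killed by l: classically locally trivial over N' everywhere, over N outside the set R of primes, and zero
on the inertia groups outside l and R which fix the points killed by l. -/
structure ECls (A B : F) (l : ℕ) (N N' : IntermediateField F Ω) [NumberField N] (R : Set (HeightOneSpectrum (𝓞 N)))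
    (c : (Ω ≃ₐ[F] Ω) → Pt (WAB A B) Ω) : Prop where
  coc : Coc (WAB A B) N c
  tor : ∀ s ∈ N.fixingSubgroup, l • c s = 0
  loc' : ∀ V : ValuationSubring Ω, V ≠ ⊤ → ∃ P : Pt (WAB A B) Ω, ∀ s ∈ N'.fixingSubgroup, Dec V s →
    c s = ac (WAB A B) s P - P
  loc : ∀ V : ValuationSubring Ω, V ≠ ⊤ → (∀ w ∈ R, ¬ Abv N V w) → ∃ P : Pt (WAB A B) Ω, ∀ s ∈ N.fixingSubgroup, Dec V s →
    c s = ac (WAB A B) s P - P
  out : ∀ V : ValuationSubring Ω, (∀ w ∈ R, ¬ Abv N V w) → V.valuation (l : Ω) = 1 → ∀ s ∈ N.fixingSubgroup, Inert V s →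
    (∀ T : Pt (WAB A B) Ω, l • T = 0 → ac (WAB A B) s T = T) → c s = 0

omit [IQ F] [NumberField F] [IsAlgClosure F Ω] in
/-- The value at a power. -/
theorem coc_pow {N : IntermediateField F Ω} {c : (Ω ≃ₐ[F] Ω) → Pt (WAB A B) Ω}
    (hm : ∀ s ∈ N.fixingSubgroup, ∀ t ∈ N.fixingSubgroup, c (s * t) = c s + ac (WAB A B) s (c t)) {τ : Ω ≃ₐ[F] Ω}
    (hτ : τ ∈ N.fixingSubgroup) (h : c τ = 0) (k : ℕ) : c (τ ^ k) = 0 := by
  have h1 : c 1 = 0 := by
    have h2 := hm 1 (Subgroup.one_mem _) 1 (Subgroup.one_mem _)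
    rw [mul_one, ac_one] at h2
    exact left_eq_add.mp h2
  induction k with
  | zero => rw [pow_zero, h1]
  | succ k ih => rw [pow_succ, hm _ (Subgroup.pow_mem _ hτ k) _ hτ, ih, h, map_zero, add_zero]

omit [IQ F] [NumberField F] [IsAlgClosure F Ω] in
theorem coc_conj {N : IntermediateField F Ω} {c : (Ω ≃ₐ[F] Ω) → Pt (WAB A B) Ω}
    (hm : ∀ s ∈ N.fixingSubgroup, ∀ t ∈ N.fixingSubgroup, c (s * t) = c s + ac (WAB A B) s (c t)) {σ s : Ω ≃ₐ[F] Ω}
    (hσ : σ ∈ N.fixingSubgroup) (hs : s ∈ N.fixingSubgroup) (h : c (σ⁻¹ * s * σ) = 0) :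
    c s = ac (WAB A B) s (- c σ) - (- c σ) := by
  have h2 := hm σ hσ (σ⁻¹ * s * σ) (mul_mem (mul_mem (inv_mem hσ) hs) hσ)
  have h3 := hm s hs σ hσ
  rw [h, map_zero, add_zero, show σ * (σ⁻¹ * s * σ) = s * σ by group, h3] at h2
  rw [map_neg, sub_neg_eq_add]
  have h4 : c s = c σ - ac (WAB A B) s (c σ) := eq_sub_of_add_eq h2
  rw [h4]
  abel

omit [NumberField F] [IQ F] [DecidableEq Ω] [IsAlgClosure F Ω] in
theorem val_lt_conj {V V₀ : ValuationSubring Ω} {σ : Ω ≃ₐ[F] Ω} (hσ : ∀ x, σ x ∈ V ↔ x ∈ V₀) (y : Ω) :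
    V.valuation (σ y) < 1 ↔ V₀.valuation y < 1 := by
  by_cases hy : y = 0
  · rw [hy, map_zero, map_zero, map_zero]
    exact ⟨fun _ => zero_lt_one, fun _ => zero_lt_one⟩
  · have hy' : σ y ≠ 0 := (map_ne_zero σ).2 hy
    have key : ∀ (U : ValuationSubring Ω) (z : Ω), z ≠ 0 → (U.valuation z < 1 ↔ z⁻¹ ∉ U) := by
      intro U z hz
      rw [← U.valuation_le_one_iff, map_inv₀, inv_le_one₀ (zero_lt_iff.2 ((map_ne_zero _).2 hz)), not_le]
    rw [key V _ hy', key V₀ _ hy, ← hσ, map_inv₀]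

omit [NumberField F] [IQ F] [DecidableEq Ω] [IsAlgClosure F Ω] in
theorem inert_conj {V V₀ : ValuationSubring Ω} {σ s : Ω ≃ₐ[F] Ω} (hσ : ∀ x, σ x ∈ V ↔ x ∈ V₀) (hs : Inert V s) :
    Inert V₀ (σ⁻¹ * s * σ) := by
  intro x hx
  have h1 := hs (σ x) ((hσ x).2 hx)
  have h2 : σ ((σ⁻¹ * s * σ) x - x) = s (σ x) - σ x := by
    rw [map_sub]
    congr 1
    exact σ.apply_symm_apply _
  rw [← val_lt_conj hσ, h2]
  exact h1

/-- Points killed by π are killed by l. -/
theorem tor_l (D : Dat A B Om j act mo ψ π l) {T : Pt (WAB A B) Ω} (hT : T ∈ Tor act π) : l • T = 0 := by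
  have h1 := lcb_l D.conj (P := T) (by rw [cj_cj]; exact hT)
  exact h1

/-- One prime element: a class which does not vanish at τ. -/
theorem e_one (D : Dat A B Om j act mo ψ π l) {N N' : IntermediateField F Ω} [NumberField N] [NumberField N']
    (hN : Nb l N) (hN'f : FiniteDimensional F N') (hUN : UnrP l N) (hNN : N ≤ N')
    (hn : ∀ s ∈ N.fixingSubgroup, ∀ x ∈ N', s x ∈ N')
    (hd : Module.finrank F N' = Module.finrank F N * l) {w : HeightOneSpectrum (𝓞 N)}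
    (hlw : (l : 𝓞 N) ∉ w.asIdeal) (hr : Ram N N' w.asIdeal)
    (hfx : ∀ V : ValuationSubring Ω, Abv N V w → ∀ s, DecN N V s → ∀ T : Pt (WAB A B) Ω, l • T = 0 → ac (WAB A B) s T = T)
    (hS : SelZero (WAB A B) l N) {V₀ : ValuationSubring Ω} (hV₀ : Abv N V₀ w) {τ : Ω ≃ₐ[F] Ω} (hτ : τ ∈ N.fixingSubgroup)
    (hi : Inert V₀ τ) (hτ' : τ ∉ N'.fixingSubgroup) :
    ∃ c : (Ω ≃ₐ[F] Ω) → Pt (WAB A B) Ω, ECls A B l N N' {w} c ∧ (∀ s ∈ N.fixingSubgroup, c s ∈ Tor act (cj π)) ∧ c τ ≠ 0 := by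
  have hNf : FiniteDimensional F N := hN.fin
  obtain ⟨L, hLT⟩ := exists_TB D.cma π D.pr N
  have hLf : FiniteDimensional F L := hLT.fin
  have hLn : NumberField L := NumberField.of_module_finite F L
  have hfx' : ∀ V : ValuationSubring Ω, Abv N V w → ∀ s, DecN N V s → ∀ T ∈ Tor act π, ac (WAB A B) s T = T :=
    fun V hV s hs T hT => hfx V hV s hs T (tor_l D hT)
  obtain ⟨m, hm⟩ := exists_GN D hLT hUN hlw hfx'
  obtain ⟨e, he⟩ := exists_pairing π l D.dta D.pr D.dvd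
  obtain ⟨c, y, G⟩ := exists_gl D he hN hLT hlw hfx' hm
  have hkill : ∀ V : ValuationSubring Ω, Abv N V w → ∀ s ∈ N'.fixingSubgroup, Inert V s → c s = 0 := fun V hV s hs hsi =>
    G.kill he hV hNN (fun a ha h0 => H13Y.ram_step D.hl hNN hn hd hr hV ha h0) hs hsi
  have hloc : ∀ V : ValuationSubring Ω, V ≠ ⊤ → (∀ w' ∈ ({w} : Set (HeightOneSpectrum (𝓞 N))), ¬ Abv N V w') →
      ∃ P : Pt (WAB A B) Ω, ∀ s ∈ N.fixingSubgroup, Dec V s → c s = ac (WAB A B) s P - P := by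
    intro V hV hw
    have hw' : ¬ Abv N V w := hw w rfl
    by_cases hlV : V.valuation (l : Ω) < 1
    · obtain ⟨P, hP⟩ := G.above he hlV
      exact ⟨P, fun s hs hsD => hP s ⟨hs, hsD⟩⟩
    · have hlV1 : V.valuation (l : Ω) = 1 := by
        apply le_antisymm _ (not_lt.1 hlV)
        have h1 := vo_le V (l : 𝓞 F)
        rwa [vo_nat] at h1
      obtain ⟨v, hv⟩ := xg3_below (F := F) N hV
      exact loc_zero G.D G.cc hv (fun h => absurd h hlV) fun s hs hj =>
        G.inert he hlV1 hw' hj.1 ((G.tb.fix s).2 ⟨hs, hj.2.1⟩)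
  have hE : ECls A B l N N' {w} c := by
    refine ⟨⟨G.cc.mul, G.cc.cont⟩, fun s hs => lcb_l D (G.cc.val s hs), fun V hV => ?_, hloc, ?_⟩
    · exact G.local he hNN (fun V hV a ha h0 => H13Y.ram_step D.hl hNN hn hd hr hV ha h0) hV
    · intro V hw hlV s hs hsi hT
      exact G.inert he hlV (hw w rfl) hsi ((G.tb.fix s).2 ⟨hs, fun T hT' => hT T (tor_l D hT')⟩)
  refine ⟨c, hE, G.cc.val, fun h0 => G.not_cob he ?_⟩
  refine hS c hE.coc hE.tor fun V => ?_
  -- zero on the inertia group of V₀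
  have h00 : ∀ s ∈ N.fixingSubgroup, Inert V₀ s → c s = 0 := by
    intro s hs hsi
    obtain ⟨k, hk⟩ := pow_coset D.hl hNN hn hd hτ hτ' hs
    have hki : Inert V₀ (τ ^ k) := by
      clear hk
      induction k with
      | zero =>
        intro x hx
        rw [pow_zero, AlgEquiv.one_apply, sub_self, map_zero]
        exact zero_lt_one
      | succ k ih =>
        rw [pow_succ]
        exact lcb_mul ih hi
    have hu : Inert V₀ ((τ ^ k)⁻¹ * s) := lcb_mul (lcb_inv hki) hsi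
    have h1 := G.cc.mul (τ ^ k) (Subgroup.pow_mem _ hτ k) ((τ ^ k)⁻¹ * s)
      (mul_mem (inv_mem (Subgroup.pow_mem _ hτ k)) hs)
    rw [mul_inv_cancel_left, coc_pow G.cc.mul hτ h0 k, hkill V₀ hV₀ _ hk hu, map_zero, add_zero] at h1
    exact h1
  by_cases hVw : Abv N V w
  · obtain ⟨σ, hσN, hσ⟩ := trans_V N hV₀ hVw
    refine ⟨- c σ, fun s hs hsi => coc_conj G.cc.mul hσN hs (h00 _ (mul_mem (mul_mem (inv_mem hσN) hs) hσN)
      (inert_conj hσ hsi))⟩
  · by_cases hVt : V = ⊤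
    · subst hVt
      refine ⟨0, fun s hs hsi => ?_⟩
      have h1 : s = 1 := by
        ext x
        by_contra hx
        have h2 := hsi x (ValuationSubring.mem_top x)
        have h3 : s x - x ≠ 0 := sub_ne_zero.2 hx
        have h4 : (⊤ : ValuationSubring Ω).valuation (s x - x)⁻¹ ≤ 1 :=
          ((⊤ : ValuationSubring Ω).valuation_le_one_iff _).2 (ValuationSubring.mem_top _)
        rw [map_inv₀, inv_le_one₀ (zero_lt_iff.2 ((map_ne_zero _).2 h3))] at h4
        exact absurd h2 (not_lt.2 h4)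
      rw [h1, map_zero, sub_zero]
      exact G.cc.one
    · obtain ⟨P, hP⟩ := hloc V hVt (by rintro w' rfl; exact hVw)
      exact ⟨P, fun s hs hsi => hP s hs (Inert.dec hsi)⟩

end H13T
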