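import Mathlib
import Pool.Agent.Lib.H13T.E1

/-! # H13T, module E: all values at all primes of a finite set -/

open NumberField IsDedekindDomain WeierstrassCurve

namespace H13T

open H55P (IQ embF eF LF Per IsHecke Pt ac acR Inert Dec Nm Coc PExt UnrP Ram RamF SelZero)
open H35P (WAB Ker tt)
open H55K (Tor ak xc yc CMA Dta GV GMod cj cj_cj mul_cj cj_prime cj_dvd cj_nat Nm_cj Nm_mul Nm_nat tor_gen)
open H55K.S
open H13S (Abv)
open H13X

variable {F : Type} [Field F] [NumberField F] [IQ F] {A B : F} {Om : ℂ} {Ω : Type} [Field Ω] [DecidableEq Ω]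
  [Algebra F Ω] [IsAlgClosure F Ω] {j : Ω →+* ℂ} {act : 𝓞 F →+* AddMonoid.End (Pt (WAB A B) Ω)} {mo : Ideal (𝓞 F)}
  {ψ : Ideal (𝓞 F) →*₀ 𝓞 F} {π : 𝓞 F} {l : ℕ}

section cls

variable {N N' : IntermediateField F Ω} [NumberField N] {R R' : Set (HeightOneSpectrum (𝓞 N))}
  {c d : (Ω ≃ₐ[F] Ω) → Pt (WAB A B) Ω}

omit [IQ F] [NumberField F] [IsAlgClosure F Ω] in
/-- The zero class. -/
theorem ECls.zero : ECls A B l N N' R (fun _ => (0 : Pt (WAB A B) Ω)) where
  coc := ⟨fun s hs t ht => by rw [map_zero, add_zero], ⊥, inferInstance, fun _ _ _ => rfl⟩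
  tor := fun _ _ => smul_zero _
  loc' := fun V _ => ⟨0, fun s _ _ => by rw [map_zero, sub_zero]⟩
  loc := fun V _ _ => ⟨0, fun s _ _ => by rw [map_zero, sub_zero]⟩
  out := fun _ _ _ _ _ _ _ => rfl

omit [IQ F] [NumberField F] [IsAlgClosure F Ω] in
/-- Sums. -/
theorem ECls.add (h : ECls A B l N N' R c) (h' : ECls A B l N N' R' d) : ECls A B l N N' (R ∪ R') (fun s => c s + d s) where
  coc := by
    refine ⟨fun s hs t ht => ?_, ?_⟩
    · show c (s * t) + d (s * t) = _
      rw [h.coc.mul s hs t ht, h'.coc.mul s hs t ht, map_add]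
      abel
    · obtain ⟨M, hM, h1⟩ := h.coc.cont
      obtain ⟨M', hM', h1'⟩ := h'.coc.cont
      refine ⟨M ⊔ M', inferInstance, fun s hs hsM => ?_⟩
      show c s + d s = 0
      rw [h1 s hs (IntermediateField.fixingSubgroup_antitone le_sup_left hsM),
        h1' s hs (IntermediateField.fixingSubgroup_antitone le_sup_right hsM), add_zero]
  tor := fun s hs => by
    show l • (c s + d s) = 0
    rw [smul_add, h.tor s hs, h'.tor s hs, add_zero]
  loc' := fun V hV => by
    obtain ⟨P, hP⟩ := h.loc' V hV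
    obtain ⟨P', hP'⟩ := h'.loc' V hV
    refine ⟨P + P', fun s hs hsD => ?_⟩
    show c s + d s = _
    rw [hP s hs hsD, hP' s hs hsD, map_add]
    abel
  loc := fun V hV hR => by
    obtain ⟨P, hP⟩ := h.loc V hV fun w hw => hR w (Or.inl hw)
    obtain ⟨P', hP'⟩ := h'.loc V hV fun w hw => hR w (Or.inr hw)
    refine ⟨P + P', fun s hs hsD => ?_⟩
    show c s + d s = _
    rw [hP s hs hsD, hP' s hs hsD, map_add]
    abel
  out := fun V hR hl s hs hsi hT => by
    show c s + d s = 0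
    rw [h.out V (fun w hw => hR w (Or.inl hw)) hl s hs hsi hT, h'.out V (fun w hw => hR w (Or.inr hw)) hl s hs hsi hT, add_zero]

omit [IQ F] [NumberField F] [IsAlgClosure F Ω] in
/-- More primes. -/
theorem ECls.mono (h : ECls A B l N N' R c) (hR : R ⊆ R') : ECls A B l N N' R' c where
  coc := h.coc
  tor := h.tor
  loc' := h.loc'
  loc := fun V hV hw => h.loc V hV fun w hwR => hw w (hR hwR)
  out := fun V hw => h.out V fun w hwR => hw w (hR hwR)

omit [IsAlgClosure F Ω] in
/-- Multiples. -/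
theorem ECls.mulc (hA : CMA F A B Om j act) (h : ECls A B l N N' R c) (a : 𝓞 F) : ECls A B l N N' R (fun s => act a (c s)) where
  coc := by
    refine ⟨fun s hs t ht => ?_, ?_⟩
    · show act a (c (s * t)) = _
      rw [h.coc.mul s hs t ht, map_add, ac_act hA]
    · obtain ⟨M, hM, h1⟩ := h.coc.cont
      refine ⟨M, hM, fun s hs hsM => ?_⟩
      show act a (c s) = 0
      rw [h1 s hs hsM, map_zero]
  tor := fun s hs => by
    show l • act a (c s) = 0
    rw [← map_nsmul, h.tor s hs, map_zero]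
  loc' := fun V hV => by
    obtain ⟨P, hP⟩ := h.loc' V hV
    refine ⟨act a P, fun s hs hsD => ?_⟩
    show act a (c s) = _
    rw [hP s hs hsD, map_sub, ac_act hA]
  loc := fun V hV hR => by
    obtain ⟨P, hP⟩ := h.loc V hV hR
    refine ⟨act a P, fun s hs hsD => ?_⟩
    show act a (c s) = _
    rw [hP s hs hsD, map_sub, ac_act hA]
  out := fun V hR hl s hs hsi hT => by
    show act a (c s) = 0
    rw [h.out V hR hl s hs hsi hT, map_zero]

end cls

/-- One prime w: every point killed by l is the value at τ of a class. -/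
theorem e_two (D : Dat A B Om j act mo ψ π l) {N N' : IntermediateField F Ω} [NumberField N] [NumberField N']
    (hN : Nb l N) (hN'f : FiniteDimensional F N') (hUN : UnrP l N) (hNN : N ≤ N')
    (hn : ∀ s ∈ N.fixingSubgroup, ∀ x ∈ N', s x ∈ N')
    (hd : Module.finrank F N' = Module.finrank F N * l) {w : HeightOneSpectrum (𝓞 N)}
    (hlw : (l : 𝓞 N) ∉ w.asIdeal) (hr : Ram N N' w.asIdeal)
    (hfx : ∀ V : ValuationSubring Ω, Abv N V w → ∀ s, DecN N V s → ∀ T : Pt (WAB A B) Ω, l • T = 0 → ac (WAB A B) s T = T)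
    (hS : SelZero (WAB A B) l N) {V₀ : ValuationSubring Ω} (hV₀ : Abv N V₀ w) {τ : Ω ≃ₐ[F] Ω} (hτ : τ ∈ N.fixingSubgroup)
    (hi : Inert V₀ τ) (hτ' : τ ∉ N'.fixingSubgroup) {T : Pt (WAB A B) Ω} (hT : l • T = 0) :
    ∃ c : (Ω ≃ₐ[F] Ω) → Pt (WAB A B) Ω, ECls A B l N N' {w} c ∧ c τ = T := by
  obtain ⟨c, hc, hcv, hc0⟩ := e_one D hN hN'f hUN hNN hn hd hlw hr hfx hS hV₀ hτ hi hτ'
  have hlT : act (l : 𝓞 F) T = 0 := by rw [act_nat (act := act), hT]
  rcases dichotomy D.hl D.dta.unr D.pr D.dvd with ⟨h1, h2, h3⟩ | ⟨h1, -, -, hll⟩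
  · have hTm : T ∈ Tor act (cj π) := by
      rw [tor_assoc h1, ← tor_assoc h3, mem_Tor]
      exact hlT
    obtain ⟨a, ha⟩ := tor_gen D.cma (cj_prime D.pr) (hcv τ hτ) hTm hc0
    exact ⟨fun s => act a (c s), hc.mulc D.cma a, ha⟩
  · obtain ⟨c', hc', hcv', hc0'⟩ := e_one D.conj hN hN'f hUN hNN hn hd hlw hr hfx hS hV₀ hτ hi hτ'
    rw [cj_cj] at hcv'
    have hcop : IsCoprime π (cj π) := (D.pr.irreducible.coprime_iff_not_dvd).2 h1
    obtain ⟨u, v, huv⟩ := hcop
    have hX : act (u * π) T ∈ Tor act (cj π) := by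
      rw [mem_Tor, ← act_mul]
      have h6 : cj π * (u * π) = u * (l : 𝓞 F) := by rw [← hll]; ring
      rw [h6, act_mul, hlT, map_zero]
    have hY : act (v * cj π) T ∈ Tor act π := by
      rw [mem_Tor, ← act_mul]
      have h6 : π * (v * cj π) = v * (l : 𝓞 F) := by rw [← hll]; ring
      rw [h6, act_mul, hlT, map_zero]
    obtain ⟨a, ha⟩ := tor_gen D.cma (cj_prime D.pr) (hcv τ hτ) hX hc0
    obtain ⟨b, hb⟩ := tor_gen D.cma D.pr (hcv' τ hτ) hY hc0'
    refine ⟨fun s => act a (c s) + act b (c' s), ((hc.mulc D.cma a).add (hc'.mulc D.cma b)).mono (by simp), ?_⟩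
    show act a (c τ) + act b (c' τ) = T
    rw [ha, hb, ← act_add, huv, act_one]

omit [IQ F] [NumberField F] [DecidableEq Ω] [IsAlgClosure F Ω] in
/-- Two primes of N below the same valuation ring are equal. -/
theorem abv_unique {N : IntermediateField F Ω} [NumberField N] {V : ValuationSubring Ω} {w w' : HeightOneSpectrum (𝓞 N)}
    (h : Abv N V w) (h' : Abv N V w') : w = w' := by
  apply HeightOneSpectrum.ext
  ext a
  rw [← w.valuation_lt_one_iff_mem (K := N) a, ← w'.valuation_lt_one_iff_mem (K := N) a, ← H13S.Abv.lt h, H13S.Abv.lt h']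

/-- MODULE E. R a finite set of primes of N which do not contain l, are ramified in N' and whose decomposition groups fix the points
killed by l, τ w an inertia element above w which does not fix N': all values f w at the τ w occur. -/
theorem e_main (D : Dat A B Om j act mo ψ π l) {N N' : IntermediateField F Ω} [NumberField N] [NumberField N']
    (hN : Nb l N) (hN'f : FiniteDimensional F N') (hUN : UnrP l N) (hNN : N ≤ N')
    (hn : ∀ s ∈ N.fixingSubgroup, ∀ x ∈ N', s x ∈ N')
    (hd : Module.finrank F N' = Module.finrank F N * l) (hS : SelZero (WAB A B) l N)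
    (R : Finset (HeightOneSpectrum (𝓞 N))) (hlR : ∀ w ∈ R, (l : 𝓞 N) ∉ w.asIdeal) (hrR : ∀ w ∈ R, Ram N N' w.asIdeal)
    (hfx : ∀ w ∈ R, ∀ V : ValuationSubring Ω, Abv N V w → ∀ s, DecN N V s → ∀ T : Pt (WAB A B) Ω, l • T = 0 →
      ac (WAB A B) s T = T)
    {V : HeightOneSpectrum (𝓞 N) → ValuationSubring Ω} (hV : ∀ w ∈ R, Abv N (V w) w)
    {τ : HeightOneSpectrum (𝓞 N) → (Ω ≃ₐ[F] Ω)} (hτ : ∀ w ∈ R, τ w ∈ N.fixingSubgroup) (hi : ∀ w ∈ R, Inert (V w) (τ w))
    (hτ' : ∀ w ∈ R, τ w ∉ N'.fixingSubgroup) {f : HeightOneSpectrum (𝓞 N) → Pt (WAB A B) Ω}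
    (hf : ∀ w ∈ R, l • f w = 0) :
    ∃ d : (Ω ≃ₐ[F] Ω) → Pt (WAB A B) Ω, ECls A B l N N' (R : Set (HeightOneSpectrum (𝓞 N))) d ∧ ∀ w ∈ R, d (τ w) = f w := by
  classical
  induction R using Finset.induction_on with
  | empty => exact ⟨fun _ => 0, ECls.zero, fun w hw => absurd hw (Finset.notMem_empty w)⟩
  | insert w R hw ih =>
    obtain ⟨d, hd1, hd2⟩ := ih (fun w' h => hlR w' (Finset.mem_insert_of_mem h)) (fun w' h => hrR w' (Finset.mem_insert_of_mem h))
      (fun w' h => hfx w' (Finset.mem_insert_of_mem h)) (fun w' h => hV w' (Finset.mem_insert_of_mem h))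
      (fun w' h => hτ w' (Finset.mem_insert_of_mem h)) (fun w' h => hi w' (Finset.mem_insert_of_mem h))
      (fun w' h => hτ' w' (Finset.mem_insert_of_mem h)) (fun w' h => hf w' (Finset.mem_insert_of_mem h))
    have hwm := Finset.mem_insert_self w R
    have hT : l • (f w - d (τ w)) = 0 := by
      rw [smul_sub, hf w hwm, hd1.tor _ (hτ w hwm), sub_zero]
    obtain ⟨c, hc1, hc2⟩ := e_two D hN hN'f hUN hNN hn hd (hlR w hwm) (hrR w hwm) (hfx w hwm) hS (hV w hwm) (hτ w hwm)
      (hi w hwm) (hτ' w hwm) hT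
    refine ⟨fun s => d s + c s, (hd1.add hc1).mono ?_, fun w' hw' => ?_⟩
    · rw [Finset.coe_insert, Set.insert_eq, Set.union_comm]
    · rcases Finset.mem_insert.1 hw' with rfl | h
      · show d (τ w') + c (τ w') = f w'
        rw [hc2]
        abel
      · show d (τ w') + c (τ w') = f w'
        have hne : w' ≠ w := by
          rintro rfl
          exact hw h
        have hval : (V w').valuation (l : Ω) = 1 := by
          have h1 := yg2_unit (hV w' hw') (l : 𝓞 N) (hlR w' hw')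
          have h2 : (((l : 𝓞 N) : N) : Ω) = l := by
            have e1 : ((l : 𝓞 N) : N) = l := map_natCast (algebraMap (𝓞 N) N) l
            rw [e1]
            exact map_natCast (algebraMap N Ω) l
          rwa [h2] at h1
        have h3 : c (τ w') = 0 := by
          refine hc1.out (V w') ?_ hval (τ w') (hτ w' hw') (hi w' hw') fun T hT =>
            hfx w' hw' (V w') (hV w' hw') (τ w') ⟨hτ w' hw', Inert.dec (hi w' hw')⟩ T hT
          rintro v rfl hv
          exact hne (abv_unique (hV w' hw') hv)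
        rw [hd2 w' h, h3, add_zero]

omit [IQ F] in
/-- w is ramified in N' (a Galois step of prime degree): some inertia element over N above w does not fix N'. -/
theorem exists_tau (hl : l.Prime) {N N' : IntermediateField F Ω} [NumberField N] [NumberField N'] (hN'f : FiniteDimensional F N')
    (hNN : N ≤ N') (hn : ∀ s ∈ N.fixingSubgroup, ∀ x ∈ N', s x ∈ N')
    (hd : Module.finrank F N' = Module.finrank F N * l) {w : HeightOneSpectrum (𝓞 N)} (hr : Ram N N' w.asIdeal)
    {V : ValuationSubring Ω} (hV : Abv N V w) : ∃ τ ∈ N.fixingSubgroup, Inert V τ ∧ τ ∉ N'.fixingSubgroup := by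
  by_contra hcon
  push Not at hcon
  obtain ⟨a, ha⟩ := w.valuation_exists_uniformizer N
  have ha0 : a ≠ 0 := by
    rintro rfl
    rw [map_zero] at ha
    exact WithZero.exp_ne_zero ha.symm
  have ha0' : (a : Ω) ≠ 0 := by exact_mod_cast ha0
  obtain ⟨x, hx, hxa⟩ := H13Y.ram_step hl hNN hn hd hr hV a.2 ha0'
  have hx0 : x ≠ 0 := by
    rintro rfl
    rw [map_zero, zero_pow hl.ne_zero] at hxa
    exact (map_ne_zero _).2 ha0' hxa.symm
  obtain ⟨b, hb0, hb⟩ := H13S.value_fixed N V x hx0 (fun t ht hti =>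
    (IntermediateField.mem_fixingSubgroup_iff N' t).1 (hcon t ht hti) x hx)
  have h1 : V.valuation (((b ^ l : N) : Ω)) = V.valuation (a : Ω) := by
    push_cast
    rw [map_pow, ← hb, hxa]
  have h2 : w.valuation N (b ^ l) = w.valuation N a := by
    have key : ∀ x y : N, y ≠ 0 → V.valuation (x : Ω) ≤ V.valuation (y : Ω) → w.valuation N x ≤ w.valuation N y := by
      intro x y hy hxy
      have h3 : V.valuation (((x / y : N) : Ω)) ≤ 1 := by
        push_cast
        rw [map_div₀]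
        exact div_le_one_of_le₀ hxy zero_le
      have h4 := (hV (x / y)).1 ((V.valuation_le_one_iff _).1 h3)
      rw [map_div₀, div_le_one₀ (zero_lt_iff.2 ((map_ne_zero _).2 hy))] at h4
      exact h4
    exact le_antisymm (key _ _ ha0 h1.le) (key _ _ (pow_ne_zero l hb0) h1.ge)
  have hwb : w.valuation N b ≠ 0 := (map_ne_zero _).2 hb0
  obtain ⟨k, hk⟩ : ∃ k : ℤ, w.valuation N b = WithZero.exp k := ⟨WithZero.log (w.valuation N b), (WithZero.exp_log hwb).symm⟩
  have ha' : w.valuation N a = WithZero.exp (-1 : ℤ) := ha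
  rw [map_pow, hk, ha', ← WithZero.exp_nsmul, WithZero.exp_inj, nsmul_eq_mul] at h2
  have h5 : (l : ℤ) ∣ 1 := ⟨-k, by linarith⟩
  exact hl.one_lt.ne' (by exact_mod_cast Int.eq_one_of_dvd_one (by positivity) h5)

end H13T
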