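import Mathlib
import Pool.Agent.Lib.H13T.C0
import Pool.Agent.Lib.H13T.C2
import Pool.Agent.Lib.H13T.C3
import Pool.Agent.Lib.H13T.E2
import Pool.Agent.Lib.SSG.Z.L9
import Pool.Agent.Lib.H13R.G4
import Pool.Agent.Lib.H13R.E1

/-! # H13T, module CE: the relaxed places and the primes AnW; the index set (TI); classes with all values -/

open NumberField IsDedekindDomain WeierstrassCurve

namespace H13T

open H55P (IQ embF eF LF Per IsHecke Pt ac acR Inert Dec Nm Coc PExt UnrP Ram RamF SelZero SelG inS decS Below)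
open H35P (WAB Ker tt)
open H55K H55K.TQ
open H55K.S
open H13S (Abv)
open H13X
open H13R

open scoped Classical

section base

variable {F : Type} [Field F] [NumberField F]

/-- A place with a nontrivial inertia group lies above a prime of N'. -/
theorem ce_below {V : ValuationSubring (AlgebraicClosure F)} (hV : V ≠ ⊤) (N' : IntermediateField F (AlgebraicClosure F))
    [NumberField N'] : ∃ w : HeightOneSpectrum (𝓞 N'), Abv N' V w := by
  obtain ⟨q, hq, hqV⟩ := H13S.in1_char (F₀ := F) V hV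
  refine H13S.exists_below N' V ⟨((q : N'))⁻¹, fun h => ?_⟩
  have h1 : (((q : N')⁻¹ : N') : AlgebraicClosure F) = (q : AlgebraicClosure F)⁻¹ := by
    push_cast
    rfl
  rw [h1, ← V.valuation_le_one_iff, map_inv₀] at h
  have h0 : V.valuation (q : AlgebraicClosure F) ≠ 0 := (map_ne_zero _).2 (Nat.cast_ne_zero.2 hq.ne_zero)
  exact absurd ((one_lt_inv₀ (zero_lt_iff.2 h0)).2 hqV) (not_lt.2 h)

omit [NumberField F] in
/-- The inertia group of the trivial valuation ring is trivial. -/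
theorem ce_top {s : AlgebraicClosure F ≃ₐ[F] AlgebraicClosure F} (hs : Inert (⊤ : ValuationSubring (AlgebraicClosure F)) s) :
    s = 1 := by
  apply AlgEquiv.ext
  intro x
  have h1 := hs x (ValuationSubring.mem_top _)
  rw [H55P.lt1_iff] at h1
  rcases h1 with h1 | h1
  · exact sub_eq_zero.1 h1
  · exact absurd (ValuationSubring.mem_top _) h1

/-- The value of p is 1 at primes which do not contain p, and conversely. -/
theorem ce_val {N' : IntermediateField F (AlgebraicClosure F)} [NumberField N'] {V : ValuationSubring (AlgebraicClosure F)}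
    {w : HeightOneSpectrum (𝓞 N')} (hV : Abv N' V w) (p : ℕ) :
    (p : 𝓞 N') ∈ w.asIdeal ↔ V.valuation (p : AlgebraicClosure F) < 1 := by
  have h1 : (((p : 𝓞 N') : N') : AlgebraicClosure F) = p := by
    have e1 : ((p : 𝓞 N') : N') = p := map_natCast (algebraMap (𝓞 N') N') p
    rw [e1]
    exact map_natCast (algebraMap N' (AlgebraicClosure F)) p
  rw [← w.valuation_lt_one_iff_mem (K := N') (p : 𝓞 N'), ← h1]
  exact (hV.lt ((p : 𝓞 N') : N')).symm

/-- Below from Abv. -/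
theorem ce_bel {N' : IntermediateField F (AlgebraicClosure F)} [NumberField N'] {V : ValuationSubring (AlgebraicClosure F)}
    {w : HeightOneSpectrum (𝓞 N')} (hV : Abv N' V w) : Below V N' w.asIdeal := fun x => by
  rw [← w.valuation_lt_one_iff_mem (K := N') x]
  exact (hV.lt (x : N')).symm

end base

variable {F : Type} [Field F] [NumberField F] [IQ F] {W₀ : WeierstrassCurve (𝓞 F)} {Om : ℂ}
    {m : Ideal (𝓞 F)} {ψ : Ideal (𝓞 F) →*₀ 𝓞 F} {p n : ℕ} {M N' N : IntermediateField F (AlgebraicClosure F)}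
    [NumberField M] [NumberField N'] [NumberField N] {γ : AlgebraicClosure F ≃ₐ[F] AlgebraicClosure F}

omit [IQ F] in
/-- p is unramified in N'. -/
theorem ce_unr (hp : PrimeH F W₀ p) (c : CycI p n M N' N γ) (hU : UnrP p N) : UnrP p N' := by
  let _ : Algebra N' N := (IntermediateField.inclusion c.le').toRingHom.toAlgebra
  exact H55P.UnrP.down N' N p hp.prime hU

omit [NumberField M] in
/-- p is a unit at the places where some inertia element over N' does not fix N. -/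
theorem ce_p (hp : PrimeH F W₀ p) (hU : UnrP p N) {V : ValuationSubring (AlgebraicClosure F)}
    {s : AlgebraicClosure F ≃ₐ[F] AlgebraicClosure F} (hs : Inert V s) (hsN : s ∉ N.fixingSubgroup) :
    V.valuation (p : AlgebraicClosure F) = 1 := by
  have hNb : Nb p N := nb_ofR hp.prime hp.unr hU
  refine le_antisymm ((V.valuation_le_one_iff _).2 ?_) (not_lt.1 fun h => hsN (hNb.inert V h s hs))
  exact natCast_mem V p

/-- A prime of N' ramified in N does not contain p, and p divides its norm minus one. -/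
theorem ce_norm (hp : PrimeH F W₀ p) (c : CycI p n M N' N γ) (hU : UnrP p N)
    {V : ValuationSubring (AlgebraicClosure F)} {w : HeightOneSpectrum (𝓞 N')} (hV : Abv N' V w) (hr : Ram N' N w.asIdeal) :
    (p : 𝓞 N') ∉ w.asIdeal ∧ p ∣ Ideal.absNorm w.asIdeal - 1 ∧
      ∃ s ∈ N'.fixingSubgroup, Inert V s ∧ s ∉ N.fixingSubgroup := by
  obtain ⟨-, -, hx⟩ := c2_pext hp.prime.pos c
  have hfin : FiniteDimensional F N := c.fin
  obtain ⟨s, hs1, hs2, hs3⟩ := exists_tau hp.prime hfin c.le' hx.norm c.deg' hr hV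
  refine ⟨fun h => ?_, H55P.ram_norm p hp.prime N' N hx N c.le' le_rfl hU w hr, s, hs1, hs2, hs3⟩
  have h1 := (ce_val hV p).1 h
  rw [ce_p hp hU hs2 hs3] at h1
  exact lt_irrefl _ h1

/-- The relaxed places are the places above the primes in AnW. -/
theorem ce_rv (hH : BaseH F W₀ Om m ψ) (hp : PrimeH F W₀ p) (c : CycI p n M N' N γ) (hB : BadM W₀ M) (hU : UnrP p N)
    {V : ValuationSubring (AlgebraicClosure F)} {w : HeightOneSpectrum (𝓞 N')} (hV : Abv N' V w) :
    RV (W₀⁄F) p N' N V ↔ w ∈ AnW p W₀ N' N := by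
  obtain ⟨hMN, -, hx⟩ := c2_pext hp.prime.pos c
  have hfin : FiniteDimensional F N := c.fin
  have hfin' : FiniteDimensional F N' := H55P.finDim_of_le c.le'
  have hbel := ce_bel hV
  constructor
  · rintro ⟨⟨s, hs1, hs2, hs3⟩, T, hT0, hTp, hT⟩
    have hVp := ce_p hp hU hs2 hs3
    have hpw : (p : 𝓞 N') ∉ w.asIdeal := by
      intro h
      have h1 := (ce_val hV p).1 h
      rw [hVp] at h1
      exact lt_irrefl _ h1
    have hΔ : algebraMap (𝓞 F) (𝓞 N') W₀.Δ ∉ w.asIdeal := by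
      intro hΔ
      obtain ⟨v, hv⟩ := c3_below c.le w
      have hvV : ∀ a : 𝓞 M, a ∈ v.asIdeal → V.valuation ((a : M) : AlgebraicClosure F) < 1 := by
        intro a ha
        obtain ⟨b, hb⟩ : ∃ b : 𝓞 N', ((a : M) : AlgebraicClosure F) = ((b : N') : AlgebraicClosure F) := by
          refine ⟨⟨⟨((a : M) : AlgebraicClosure F), c.le (a : M).2⟩, ?_⟩, rfl⟩
          have h2 : IsIntegral ℤ (a : M) := a.isIntegral_coe
          have h3 : IsIntegral ℤ ((IntermediateField.inclusion c.le) (a : M)) :=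
            h2.map ((IntermediateField.inclusion c.le).toRingHom.toIntAlgHom)
          exact h3
        rw [hb]
        exact (hbel b).1 ((hv a b hb).1 ha)
      have hΔv : algebraMap (𝓞 F) (𝓞 M) W₀.Δ ∈ v.asIdeal := (hv _ _ rfl).2 hΔ
      exact hT0 (bad_torsR hH hp hMN c.le' hB hvV hΔv T hTp fun s hs hi => hT s hs (H55P.inert_dec V s hi))
    refine ⟨hΔ, ?_, ?_⟩
    · by_contra hr
      refine hs3 (H55P.inert_mem N' N c.le' hx.norm V (fun v hv => ?_) s hs1 hs2)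
      have e : v = w := by
        apply HeightOneSpectrum.ext
        ext x
        rw [hv x, hbel x]
      rw [e]
      exact hr
    · by_contra hc
      exact hT0 (H55P.fix_local W₀ p hp.prime N' V w hbel hΔ hpw hc T hTp hT)
  · rintro ⟨hΔ, hr, hc⟩
    obtain ⟨hpw, -, hs⟩ := ce_norm hp c hU hV hr
    refine ⟨hs, ?_⟩
    obtain ⟨A, B, j, act, hA, hB', dta⟩ := SSG.exists_dtaAB hH hp
    obtain ⟨Θ, hΘ⟩ := SSG.short_iso W₀ hA hB' hH.data.ell (Ω := AlgebraicClosure F)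
    obtain ⟨T, hT0, hT, hfT⟩ := lk_decR dta.cma W₀ hH.data.ell hA hB' N' hΔ hV hp.prime hp.five hpw hc
    refine ⟨Θ.symm T, ?_, ?_, fun s hs hd => ?_⟩
    · rw [Ne, EmbeddingLike.map_eq_zero_iff]
      exact hT0
    · rw [← map_nsmul, hT, map_zero]
    · apply Θ.injective
      rw [hΘ, Θ.apply_symm_apply, hfT s ⟨hs, hd⟩]

/-- The decomposition group over N' of a place above a prime in AnW fixes all points killed by p. -/
theorem ce_fixW (hH : BaseH F W₀ Om m ψ) (hp : PrimeH F W₀ p) (c : CycI p n M N' N γ) (hU : UnrP p N)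
    {A B : F} {j : AlgebraicClosure F →+* ℂ} {act : 𝓞 F →+* AddMonoid.End (Pt (WAB A B) (AlgebraicClosure F))}
    (hA : A = -(algebraMap (𝓞 F) F W₀.c₄) / 48) (hB' : B = -(algebraMap (𝓞 F) F W₀.c₆) / 864) (dta : Dta A B Om j act m ψ p)
    {V : ValuationSubring (AlgebraicClosure F)} {w : HeightOneSpectrum (𝓞 N')} (hV : Abv N' V w) (hw : w ∈ AnW p W₀ N' N)
    (s : AlgebraicClosure F ≃ₐ[F] AlgebraicClosure F) (hs : DecN N' V s) (T : Pt (WAB A B) (AlgebraicClosure F)) (hT : p • T = 0) :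
    ac (WAB A B) s T = T := by
  obtain ⟨hΔ, hr, hc⟩ := hw
  obtain ⟨hpw, hn, -⟩ := ce_norm hp c hU hV hr
  obtain ⟨T₀, hT0, hT', hfT⟩ := lk_decR dta.cma W₀ hH.data.ell hA hB' N' hΔ hV hp.prime hp.five hpw hc
  exact c3_fix dta dta.unr N' hV hpw hn hT0 hT' hfT s hs T hT

/-- A relaxed place is not trivial. -/
theorem ce_ne {V : ValuationSubring (AlgebraicClosure F)} (hV : RV (W₀⁄F) p N' N V) : V ≠ ⊤ := by
  rintro rfl
  obtain ⟨⟨s, -, hs2, hs3⟩, -⟩ := hV
  rw [ce_top hs2] at hs3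
  exact hs3 (one_mem _)

/-- The decomposition group over N' of a relaxed place fixes all points killed by p. -/
theorem ce_fix (hH : BaseH F W₀ Om m ψ) (hp : PrimeH F W₀ p) (c : CycI p n M N' N γ) (hB : BadM W₀ M) (hU : UnrP p N)
    {V : ValuationSubring (AlgebraicClosure F)} (hV : RV (W₀⁄F) p N' N V) (s : AlgebraicClosure F ≃ₐ[F] AlgebraicClosure F)
    (hs : s ∈ N'.fixingSubgroup) (hd : Dec V s) (T : Pt (W₀⁄F) (AlgebraicClosure F)) (hT : p • T = 0) : ac (W₀⁄F) s T = T := by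
  obtain ⟨w, hw⟩ := ce_below (ce_ne hV) N'
  obtain ⟨A, B, j, act, hA, hB', dta⟩ := SSG.exists_dtaAB hH hp
  obtain ⟨Θ, hΘ⟩ := SSG.short_iso W₀ hA hB' hH.data.ell (Ω := AlgebraicClosure F)
  apply Θ.injective
  rw [hΘ]
  exact ce_fixW hH hp c hU hA hB' dta hw ((ce_rv hH hp c hB hU hw).1 hV) s ⟨hs, hd⟩ (Θ T) (by rw [← map_nsmul, hT, map_zero])

/-- The index set of the relaxed primes. -/
theorem ce_ti (hH : BaseH F W₀ Om m ψ) (hp : PrimeH F W₀ p) (c : CycI p n M N' N γ) (hB : BadM W₀ M) (hU : UnrP p N) :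
    ∃ (v : AnW p W₀ N' N → ValuationSubring (AlgebraicClosure F)) (τ : AnW p W₀ N' N → AlgebraicClosure F ≃ₐ[F] AlgebraicClosure F),
      (∀ w : AnW p W₀ N' N, Abv N' (v w) w.1) ∧ (∀ w, τ w ∉ N.fixingSubgroup) ∧
      TI (inS F) N.fixingSubgroup N'.fixingSubgroup (RV (W₀⁄F) p N' N) (AnW p W₀ N' N) v τ := by
  obtain ⟨hMN, -, hx⟩ := c2_pext hp.prime.pos c
  have hfin : FiniteDimensional F N := c.fin
  have hfin' : FiniteDimensional F N' := H55P.finDim_of_le c.le'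
  choose v hv using fun w : AnW p W₀ N' N => H13S.exists_above (Ω := AlgebraicClosure F) N' w.1
  choose τ h1 h2 h3 using fun w : AnW p W₀ N' N => (ce_norm hp c hU (hv w) w.2.2.1).2.2
  refine ⟨v, τ, hv, h3, fun w => (ce_rv hH hp c hB hU (hv w)).2 w.2, h1, h2, fun w s hs hi => ?_, fun u hu => ?_⟩
  · obtain ⟨k, hk⟩ := pow_coset hp.prime c.le' hx.norm c.deg' (h1 w) (h3 w) hs
    refine ⟨k, _, hk, ?_, ?_⟩
    · exact mul_mem (inv_mem (pow_mem (h2 w) k)) hi
    · rw [mul_inv_cancel_left]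
  · obtain ⟨w, hw⟩ := ce_below (ce_ne hu) N'
    have hwA := (ce_rv hH hp c hB hU hw).1 hu
    obtain ⟨h, hh, hhx⟩ := trans_V N' hw (hv ⟨w, hwA⟩)
    refine ⟨⟨w, hwA⟩, h, hh, fun s => ⟨fun hs => ?_, fun hs => ?_⟩⟩
    · have e1 : ∀ x, h⁻¹ x ∈ u ↔ x ∈ v ⟨w, hwA⟩ := fun x => by
        rw [← hhx]
        have e2 : h (h⁻¹ x) = x := h.apply_symm_apply x
        rw [e2]
      have h4 := inert_conj e1 hs
      rwa [inv_inv] at h4
    · have h4 := inert_conj hhx hs
      have e1 : h⁻¹ * (h * s * h⁻¹) * h = s := by group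
      rwa [e1] at h4

/-- The classes. -/
theorem ce_cls (hH : BaseH F W₀ Om m ψ) (hp : PrimeH F W₀ p) (c : CycI p n M N' N γ) (hB : BadM W₀ M) (hU : UnrP p N)
    (hS : SelG p W₀ N') {v : AnW p W₀ N' N → ValuationSubring (AlgebraicClosure F)}
    {τ : AnW p W₀ N' N → AlgebraicClosure F ≃ₐ[F] AlgebraicClosure F} (hv : ∀ w : AnW p W₀ N' N, Abv N' (v w) w.1)
    (hTI : TI (inS F) N.fixingSubgroup N'.fixingSubgroup (RV (W₀⁄F) p N' N) (AnW p W₀ N' N) v τ)
    (hτ' : ∀ w, τ w ∉ N.fixingSubgroup) (w : AnW p W₀ N' N)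
    (T : Pt (W₀⁄F) (AlgebraicClosure F)) (hT : p • T = 0) :
    ∃ d : (AlgebraicClosure F ≃ₐ[F] AlgebraicClosure F) → Pt (W₀⁄F) (AlgebraicClosure F),
      RC (SSG.galS (W₀⁄F) (AlgebraicClosure F)).act p (SSG.galS (W₀⁄F) (AlgebraicClosure F)).U (inS F) N.fixingSubgroup
        N'.fixingSubgroup (RV (W₀⁄F) p N' N) d ∧
      (∀ J ∈ (SSG.galS (W₀⁄F) (AlgebraicClosure F)).D, Tr (SSG.galS (W₀⁄F) (AlgebraicClosure F)).act N.fixingSubgroup J d) ∧
      d (τ w) = T ∧ ∀ w' : AnW p W₀ N' N, w' ≠ w → d (τ w') = 0 := by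
  obtain ⟨hMN, -, hx⟩ := c2_pext hp.prime.pos c
  have hfin : FiniteDimensional F N := c.fin
  have hfin' : FiniteDimensional F N' := H55P.finDim_of_le c.le'
  obtain ⟨A, B, j, act, hA, hB', dta⟩ := SSG.exists_dtaAB hH hp
  obtain ⟨Θ, hΘ⟩ := SSG.short_iso W₀ hA hB' hH.data.ell (Ω := AlgebraicClosure F)
  obtain ⟨π, hπ, hπp⟩ := exists_prime_above (F := F) hp.prime
  have D : Dat A B Om j act m ψ π p := ⟨dta, hπ, hπp⟩
  have hUN' := ce_unr hp c hU
  have hΘ' : ∀ (s : AlgebraicClosure F ≃ₐ[F] AlgebraicClosure F) (P : Pt (WAB A B) (AlgebraicClosure F)),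
      Θ.symm (ac (WAB A B) s P) = ac (W₀⁄F) s (Θ.symm P) := fun s P => by
    apply Θ.injective
    rw [hΘ, Θ.apply_symm_apply, Θ.apply_symm_apply]
  have hS' : SelZero (WAB A B) p N' := y6_transport p N' Θ.symm hΘ' hS
  obtain ⟨hpw, -, -⟩ := ce_norm hp c hU (hv w) w.2.2.1
  obtain ⟨d, hd, hdτ⟩ := e_two D (N := N') (N' := N) (nb_ofR hp.prime hp.unr hUN') hfin hUN' c.le' hx.norm c.deg' hpw w.2.2.1
    (fun V hV s hs S hS => ce_fixW hH hp c hU hA hB' dta hV w.2 s hs S hS) hS' (hv w) (hTI.mem w) (hTI.ine w) (hτ' w)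
    (T := Θ T) (by rw [← map_nsmul, hT, map_zero])
  refine ⟨fun s => Θ.symm (d s), ⟨fun s hs t ht => ?_, ?_, fun s hs => ?_, fun V hV => ?_, fun V hV s hs hi => ?_⟩, fun J hJ => ?_,
    ?_, fun w' hw' => ?_⟩
  · show Θ.symm (d (s * t)) = Θ.symm (d s) + ac (W₀⁄F) s (Θ.symm (d t))
    rw [hd.coc.mul s hs t ht, map_add, hΘ']
  · obtain ⟨L, hL, hdL⟩ := hd.coc.cont
    refine ⟨L.fixingSubgroup, ⟨L, hL, rfl⟩, fun s hs hsL => ?_⟩
    show Θ.symm (d s) = 0
    rw [hdL s hs hsL, map_zero]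
  · show p • Θ.symm (d s) = 0
    rw [← map_nsmul, hd.tor s hs, map_zero]
  · by_cases hne : V = ⊤
    · refine ⟨0, fun s hs hi => ?_⟩
      have hi' : Inert V s := hi
      rw [hne] at hi'
      rw [map_zero, sub_zero, ce_top hi']
      show Θ.symm (d 1) = 0
      obtain ⟨L, hL, hdL⟩ := hd.coc.cont
      rw [hdL 1 (one_mem _) (one_mem _), map_zero]
    · obtain ⟨P, hP⟩ := hd.loc V hne (by
        rintro w' rfl hVw
        exact hV ((ce_rv hH hp c hB hU hVw).2 w.2))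
      refine ⟨Θ.symm P, fun s hs hi => ?_⟩
      show Θ.symm (d s) = ac (W₀⁄F) s (Θ.symm P) - Θ.symm P
      rw [hP s hs (H55P.inert_dec V s hi), map_sub, hΘ']
  · have hs' : s ∈ N'.fixingSubgroup := IntermediateField.fixingSubgroup_antitone c.le' hs
    have hi' : Inert V s := hi
    obtain ⟨w', hw'⟩ := ce_below (ce_ne hV) N'
    have hwA := (ce_rv hH hp c hB hU hw').1 hV
    have hVp : V.valuation (p : AlgebraicClosure F) = 1 := by
      obtain ⟨⟨t, -, ht2, ht3⟩, -⟩ := hV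
      exact ce_p hp hU ht2 ht3
    show Θ.symm (d s) = 0
    by_cases hww : w' = w.1
    · obtain ⟨P, hP⟩ := hd.loc' V (ce_ne hV)
      have h1 := hP s hs (H55P.inert_dec V s hi')
      have hG : H35P.GoodW ((W₀⁄F)⁄(AlgebraicClosure F)) V := H55P.good_below W₀ N' V w' (ce_bel hw') hwA.1
      have h2 : ac (W₀⁄F) s (Θ.symm P) = Θ.symm P := by
        refine H55P.red_fix (W₀⁄F) V hG p hVp s hi' (Θ.symm P) ?_
        rw [← hΘ', ← map_sub, ← map_nsmul, ← h1, hd.tor s hs', map_zero]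
      rw [h1, map_sub, hΘ', h2, sub_self]
    · rw [hd.out V (by
        rintro v' rfl hv'
        exact hww (abv_unique hw' hv')) hVp s hs' hi' (fun S hS =>
          ce_fixW hH hp c hU hA hB' dta hw' hwA s ⟨hs', H55P.inert_dec V s hi'⟩ S hS), map_zero]
  · obtain ⟨V, hV, rfl⟩ := hJ
    obtain ⟨P, hP⟩ := hd.loc' V hV
    refine ⟨Θ.symm P, fun s hs hi => ?_⟩
    show Θ.symm (d s) = ac (W₀⁄F) s (Θ.symm P) - Θ.symm P
    rw [hP s hs hi, map_sub, hΘ']
  · show Θ.symm (d (τ w)) = T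
    rw [hdτ, Θ.symm_apply_apply]
  · have hVp : (v w').valuation (p : AlgebraicClosure F) = 1 := ce_p hp hU (hTI.ine w') (hτ' w')
    show Θ.symm (d (τ w')) = 0
    rw [hd.out (v w') (by
        rintro v' hv1 hv'
        apply hw'
        apply Subtype.ext
        rw [abv_unique (hv w') hv']
        exact hv1) hVp (τ w') (hTI.mem w') (hTI.ine w') (fun S hS =>
          ce_fixW hH hp c hU hA hB' dta (hv w') w'.2 (τ w') ⟨hTI.mem w', H55P.inert_dec (v w') (τ w') (hTI.ine w')⟩ S hS), map_zero]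

/-- MODULE CE. -/
theorem ce_main (hH : BaseH F W₀ Om m ψ) (hp : PrimeH F W₀ p) (c : CycI p n M N' N γ) (hB : BadM W₀ M) (hU : UnrP p N)
    (hS : SelG p W₀ N') :
    ∃ (v : AnW p W₀ N' N → ValuationSubring (AlgebraicClosure F)) (τ : AnW p W₀ N' N → AlgebraicClosure F ≃ₐ[F] AlgebraicClosure F),
      TI (inS F) N.fixingSubgroup N'.fixingSubgroup (RV (W₀⁄F) p N' N) (AnW p W₀ N' N) v τ ∧
      ∀ (w : AnW p W₀ N' N) (T : Pt (W₀⁄F) (AlgebraicClosure F)), p • T = 0 →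
        ∃ d : (AlgebraicClosure F ≃ₐ[F] AlgebraicClosure F) → Pt (W₀⁄F) (AlgebraicClosure F),
          RC (SSG.galS (W₀⁄F) (AlgebraicClosure F)).act p (SSG.galS (W₀⁄F) (AlgebraicClosure F)).U (inS F) N.fixingSubgroup
            N'.fixingSubgroup (RV (W₀⁄F) p N' N) d ∧
          (∀ J ∈ (SSG.galS (W₀⁄F) (AlgebraicClosure F)).D, Tr (SSG.galS (W₀⁄F) (AlgebraicClosure F)).act N.fixingSubgroup J d) ∧
          d (τ w) = T ∧ ∀ w' : AnW p W₀ N' N, w' ≠ w → d (τ w') = 0 := by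
  obtain ⟨v, τ, h1, h3, h2⟩ := ce_ti hH hp c hB hU
  exact ⟨v, τ, h2, fun w T hT => ce_cls hH hp c hB hU hS h1 h2 h3 w T hT⟩

end H13T
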