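import Mathlib
import Pool.Agent.Lib.H13T.C0

/-! Chunk C1 (S). Conjugation of valuation rings. cV V g = V.comap g: the ring of the x with g x in V. See H55P.inS_conj (Lib/H55P/S1.lean) for c1_in (its proof is the first claim); c1_dec: the same for Dec (Dec V' s: s x in V' iff x in V', that is g (s x) in V iff g x in V; put y = g x).
c1_below: x in w.asIdeal iff V.valuation x < 1. c1_rv: N' and N are normal over M: fixingSubgroups normalized by g (hypotheses); the point T becomes ac W g⁻¹ T for the conjugate place (ac W is a homomorphism). -/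

open NumberField IsDedekindDomain WeierstrassCurve

namespace H13T

open H55P

open scoped Classical

variable {F : Type} [Field F] {Ω : Type} [Field Ω] [Algebra F Ω]

/-- The conjugate valuation ring. -/
def cV (V : ValuationSubring Ω) (g : Ω ≃ₐ[F] Ω) : ValuationSubring Ω := V.comap (g : Ω →+* Ω)

theorem mem_cV (V : ValuationSubring Ω) (g : Ω ≃ₐ[F] Ω) (x : Ω) : x ∈ cV V g ↔ g x ∈ V := ValuationSubring.mem_comap

theorem c1_lt0 (V : ValuationSubring Ω) (g : Ω ≃ₐ[F] Ω) (x : Ω) : (cV V g).valuation x < 1 ↔ V.valuation (g x) < 1 := by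
  rw [lt1_iff, lt1_iff, mem_cV, map_inv₀]
  simp

theorem c1_in (V : ValuationSubring Ω) (g s : Ω ≃ₐ[F] Ω) : Inert (cV V g) s ↔ Inert V (g * s * g⁻¹) := by
  constructor
  · intro h x hx
    have h2 : g (g⁻¹ x) = x := g.apply_symm_apply x
    have h1 := h (g⁻¹ x) ((mem_cV V g _).2 (by rwa [h2]))
    rw [c1_lt0, map_sub, h2] at h1
    exact h1
  · intro h x hx
    have h1 := h (g x) ((mem_cV V g _).1 hx)
    have h2 : g⁻¹ (g x) = x := g.symm_apply_apply x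
    rw [AlgEquiv.mul_apply, AlgEquiv.mul_apply, h2] at h1
    rw [c1_lt0, map_sub]
    exact h1

theorem c1_dec (V : ValuationSubring Ω) (g s : Ω ≃ₐ[F] Ω) : Dec (cV V g) s ↔ Dec V (g * s * g⁻¹) := by
  constructor
  · intro h x
    have h2 : g (g⁻¹ x) = x := g.apply_symm_apply x
    have h1 := h (g⁻¹ x)
    rw [mem_cV, mem_cV, h2] at h1
    exact h1
  · intro h x
    have h1 := h (g x)
    have h2 : g⁻¹ (g x) = x := g.symm_apply_apply x
    rw [AlgEquiv.mul_apply, AlgEquiv.mul_apply, h2] at h1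
    rw [mem_cV, mem_cV]
    exact h1

theorem c1_lt (V : ValuationSubring Ω) (g : Ω ≃ₐ[F] Ω) (x : Ω) : (cV V g).valuation x < 1 ↔ V.valuation (g x) < 1 := c1_lt0 V g x

theorem c1_mul (W : WeierstrassCurve F) (s t : Ω ≃ₐ[F] Ω) (T : Pt W Ω) : ac W (s * t) T = ac W s (ac W t T) := by
  cases T <;> rfl

theorem c1_one (W : WeierstrassCurve F) (T : Pt W Ω) : ac W (1 : Ω ≃ₐ[F] Ω) T = T := by
  cases T <;> rfl

theorem c1_rv1 (W : WeierstrassCurve F) (p : ℕ) (N' N : IntermediateField F Ω) (V V' : ValuationSubring Ω) (g : Ω ≃ₐ[F] Ω)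
    (hin : ∀ s : Ω ≃ₐ[F] Ω, Inert V' s ↔ Inert V (g * s * g⁻¹)) (hdec : ∀ s : Ω ≃ₐ[F] Ω, Dec V' s ↔ Dec V (g * s * g⁻¹))
    (h1 : ∀ s, g * s * g⁻¹ ∈ N'.fixingSubgroup ↔ s ∈ N'.fixingSubgroup) (h2 : ∀ s, g * s * g⁻¹ ∈ N.fixingSubgroup ↔ s ∈ N.fixingSubgroup)
    (h : RV W p N' N V') : RV W p N' N V := by
  obtain ⟨⟨s, hs1, hs2, hs3⟩, T, hT0, hTp, hT⟩ := h
  refine ⟨⟨g * s * g⁻¹, (h1 s).2 hs1, (hin s).1 hs2, fun h3 => hs3 ((h2 s).1 h3)⟩, ac W g T, ?_, ?_, ?_⟩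
  · intro h3
    apply hT0
    have h4 : ac W (g⁻¹ * g) T = T := by
      rw [inv_mul_cancel, c1_one]
    rw [c1_mul, h3, map_zero] at h4
    exact h4.symm
  · rw [← map_nsmul, hTp, map_zero]
  · intro t ht hd
    have e : g * (g⁻¹ * t * g) * g⁻¹ = t := by group
    have h3 : g⁻¹ * t * g ∈ N'.fixingSubgroup := by
      rw [← h1, e]
      exact ht
    have h4 : Dec V' (g⁻¹ * t * g) := by
      rw [hdec, e]
      exact hd
    have h5 := hT _ h3 h4
    have e2 : t * g = g * (g⁻¹ * t * g) := by group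
    rw [← c1_mul, e2, c1_mul, h5]

theorem c1_rv (W : WeierstrassCurve F) (p : ℕ) (N' N : IntermediateField F Ω) (V : ValuationSubring Ω) (g : Ω ≃ₐ[F] Ω)
    (h1 : ∀ s, g * s * g⁻¹ ∈ N'.fixingSubgroup ↔ s ∈ N'.fixingSubgroup) (h2 : ∀ s, g * s * g⁻¹ ∈ N.fixingSubgroup ↔ s ∈ N.fixingSubgroup) :
    RV W p N' N (cV V g) ↔ RV W p N' N V := by
  refine ⟨c1_rv1 W p N' N V (cV V g) g (c1_in V g) (c1_dec V g) h1 h2, ?_⟩
  have e : ∀ s : Ω ≃ₐ[F] Ω, g * (g⁻¹ * s * g⁻¹⁻¹) * g⁻¹ = s := fun s => by group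
  refine c1_rv1 W p N' N (cV V g) V g⁻¹ (fun s => ?_) (fun s => ?_) (fun s => ?_) (fun s => ?_)
  · rw [c1_in, e]
  · rw [c1_dec, e]
  · rw [← h1, e]
  · rw [← h2, e]

end H13T
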