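import Mathlib
import Pool.Agent.Lib.H13T.C0

/-! Chunk C4 (M). Short curve. An automorphism s over F with s^(p^n) trivial on the points killed by p is trivial on them.
PROOF. T₀ a generator of the points killed by p (CMA.gen for b = p): act a T₀ = 0 iff p divides a, every point killed by p is act b T₀.
s T₀ = act a T₀ (ac_tor), s^k T₀ = act (a^k) T₀ (ac commutes with act), hence act (a^(p^n) - 1) T₀ = 0, that is p | a^(p^n) - 1, and
(a - 1)^(p^n) = a^(p^n) - 1 modulo p (exists_add_pow_prime_pow_eq, p odd). p is squarefree in 𝓞 F (hF), so p | a - 1 and s T₀ = T₀. -/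

open NumberField IsDedekindDomain WeierstrassCurve

namespace H13T

open H55P H55K H55K.S
open H35P (WAB)

open scoped Classical

variable {F : Type} [Field F] [NumberField F] [IQ F] {A B : F} {Om : ℂ}
  {j : AlgebraicClosure F →+* ℂ} {act : 𝓞 F →+* AddMonoid.End (Pt (WAB A B) (AlgebraicClosure F))} {mo : Ideal (𝓞 F)}
  {ψ : Ideal (𝓞 F) →*₀ 𝓞 F} {p : ℕ}

private theorem c4_sqf (hp : p.Prime) (hF : ∀ v : HeightOneSpectrum (𝓞 F), (p : 𝓞 F) ∉ v.asIdeal ^ 2) :
    Squarefree (p : 𝓞 F) := by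
  intro x hx
  by_contra hu
  have h0 : (p : 𝓞 F) ≠ 0 := by exact_mod_cast hp.ne_zero
  have hx0 : x ≠ 0 := by
    rintro rfl
    rw [zero_mul, zero_dvd_iff] at hx
    exact h0 hx
  obtain ⟨q, hq, hqx⟩ := WfDvdMonoid.exists_irreducible_factor hu hx0
  have hq' : Prime q := hq.prime
  let v : HeightOneSpectrum (𝓞 F) :=
    ⟨Ideal.span {q}, (Ideal.span_singleton_prime hq'.ne_zero).2 hq', by
      rw [Ne, Ideal.span_singleton_eq_bot]; exact hq'.ne_zero⟩
  refine hF v ?_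
  change (p : 𝓞 F) ∈ (Ideal.span {q}) ^ 2
  rw [Ideal.span_singleton_pow, Ideal.mem_span_singleton, pow_two]
  exact (mul_dvd_mul hqx hqx).trans hx

theorem c4_pow (dta : Dta A B Om j act mo ψ p) (hF : ∀ v : HeightOneSpectrum (𝓞 F), (p : 𝓞 F) ∉ v.asIdeal ^ 2)
    (s : AlgebraicClosure F ≃ₐ[F] AlgebraicClosure F) (n : ℕ)
    (hs : ∀ T : Pt (WAB A B) (AlgebraicClosure F), p • T = 0 → ac (WAB A B) (s ^ p ^ n) T = T)
    (T : Pt (WAB A B) (AlgebraicClosure F)) (hT : p • T = 0) : ac (WAB A B) s T = T := by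
  have hA := dta.cma
  have hp := dta.prime
  have h0 : (p : 𝓞 F) ≠ 0 := by exact_mod_cast hp.ne_zero
  have hact : ∀ P : Pt (WAB A B) (AlgebraicClosure F), act (p : 𝓞 F) P = p • P := by
    intro P
    rw [map_natCast]
    exact AddMonoid.End.natCast_apply p P
  obtain ⟨T₀, hT₀, hgen, hker, -⟩ := hA.gen (p : 𝓞 F) h0
  have hT₀' : p • T₀ = 0 := by rw [← hact]; exact mem_Tor.1 hT₀
  obtain ⟨a, ha⟩ := hgen _ (ac_mem hA s hT₀)
  have hpow : ∀ k : ℕ, ac (WAB A B) (s ^ k) T₀ = act (a ^ k) T₀ := by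
    intro k
    induction k with
    | zero => rw [pow_zero, pow_zero, H55K.S.ac_one, map_one]; rfl
    | succ k ih => rw [pow_succ, H55K.S.ac_mul, ha, H55K.S.ac_act hA, ih, ← H55K.S.act_mul, pow_succ, mul_comm]
  have h1 : act (a ^ p ^ n) T₀ = T₀ := by rw [← hpow, hs T₀ hT₀']
  have h2 : act (a ^ p ^ n - 1) T₀ = 0 := by
    rw [map_sub, map_one]
    change act (a ^ p ^ n) T₀ - T₀ = 0
    rw [h1, sub_self]
  have h3 : (p : 𝓞 F) ∣ a ^ p ^ n - 1 := (hker _).1 h2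
  have h4 : (p : 𝓞 F) ∣ (a - 1) ^ p ^ n := by
    obtain ⟨r, hr⟩ := exists_add_pow_prime_pow_eq hp a (-1) n
    have hodd : Odd (p ^ n) := (hp.odd_of_ne_two (by have := dta.five; omega)).pow
    rw [hodd.neg_one_pow] at hr
    rw [sub_eq_add_neg, hr]
    have h5 : a ^ p ^ n + -1 = a ^ p ^ n - 1 := by ring
    rw [h5]
    refine dvd_add h3 ?_
    exact Dvd.dvd.mul_right (Dvd.dvd.mul_right (dvd_mul_right _ _) _) _
  have h5 : (p : 𝓞 F) ∣ a - 1 := (c4_sqf hp hF).isRadical _ _ h4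
  have h6 : act (a - 1) T₀ = 0 := (hker _).2 h5
  have h7 : ac (WAB A B) s T₀ = T₀ := by
    rw [ha]
    rw [map_sub, map_one] at h6
    change act a T₀ - T₀ = 0 at h6
    exact sub_eq_zero.1 h6
  obtain ⟨b, hb⟩ := hgen T (by rw [mem_Tor, hact]; exact hT)
  rw [hb, H55K.S.ac_act hA, h7]

end H13T
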