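import Mathlib
import Pool.Agent.Lib.H13T.C1
import Pool.Agent.Lib.H13T.C2
import Pool.Agent.Lib.H13T.C3
import Pool.Agent.Lib.H13T.C4
import Pool.Agent.Lib.H13T.E2
import Pool.Agent.Lib.H13R.Main

/-! Chunk C5 (M). The relaxed places are the places above the primes in AnW; their decomposition groups over M act trivially on the points killed by p.
exists_dta. PROOF: copy the beginning of H13R.nonselR (Lib/H13R/G6.lean, up to hD).
c5_p: H13R.g6_ram_p with PExt p N' N (c2_pext), K = N; c5_n: H55P.ram_norm.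
c5_below. s in N'.fixingSubgroup, Inert V s, s not in N.fixingSubgroup; below_cases N' V (Lib/H55P/S13.lean): second case s = 1, no. V above w (Below; Abv: V ≠ ⊤, xg3_below in Lib/H13X/XG3.lean and H13S.Abv.lt). Ram: otherwise inert_mem N' N. Δ not in w: otherwise take v of H13R.c3_below
(the prime of M below w) and H13R.bad_torsR (L = N, K = N'): T = 0 (inert_dec: inertia is in the decomposition group). p | number of points: otherwise fix_local (Lib/H55P/S10.lean) gives T = 0.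
c5_above: exists_tau (E2), lk_decR (Lib/H13R/R6.lean) and the isomorphism Θ of r6_iso.
c5_dec. w by c5_below; T' = Θ⁻¹ T, c3_fix: all s in DecN N' V are trivial on the p-torsion of WAB A B; φ^(p^k) is in N'.fixingSubgroup (PExt.pow for PExt p M N') and in Dec V (decS is a subgroup); c4_pow; back by Θ. c5_red: red_fix (Lib/H55P/S8.lean), good_below, val_below with p^k in place of p
(V.valuation p = 1 so V.valuation (p^k) = 1). -/

open NumberField IsDedekindDomain WeierstrassCurve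

namespace H13T

open H55P H55K H55K.TQ H55K.S
open H35P (WAB)
open H13S (Abv)
open H13X (DecN)
open H13R (BadM)

open scoped Classical

variable {F : Type} [Field F] [NumberField F] [IQ F] {W₀ : WeierstrassCurve (𝓞 F)} {Om : ℂ}
  {m : Ideal (𝓞 F)} {ψ : Ideal (𝓞 F) →*₀ 𝓞 F} {p n : ℕ} {M N' N : IntermediateField F (AlgebraicClosure F)}
  {γ : AlgebraicClosure F ≃ₐ[F] AlgebraicClosure F}

theorem exists_dta (hH : BaseH F W₀ Om m ψ) (hp : PrimeH F W₀ p) :
    ∃ (A B : F) (j : AlgebraicClosure F →+* ℂ) (act : 𝓞 F →+* AddMonoid.End (Pt (WAB A B) (AlgebraicClosure F))),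
      A = -(algebraMap (𝓞 F) F W₀.c₄) / 48 ∧ B = -(algebraMap (𝓞 F) F W₀.c₆) / 864 ∧ Dta A B Om j act m ψ p := by
  have hB := H55K.TQ.base_of hH hp
  obtain ⟨j, hj⟩ := H55K.exists_j F (AlgebraicClosure F)
  obtain ⟨A, hA⟩ : ∃ A : F, A = -(algebraMap (𝓞 F) F W₀.c₄) / 48 := ⟨_, rfl⟩
  obtain ⟨B, hB'⟩ : ∃ B : F, B = -(algebraMap (𝓞 F) F W₀.c₆) / 864 := ⟨_, rfl⟩
  have hd := H55K.y3_ne W₀ hA hB' hB.data.ell
  have hper : Per F (embF F A) (embF F B) Om := by
    have e1 : embF F A = -(eF F W₀.c₄) / 48 := by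
      rw [hA, map_div₀, map_neg, map_ofNat]
      rfl
    have e2 : embF F B = -(eF F W₀.c₆) / 864 := by
      rw [hB', map_div₀, map_neg, map_ofNat]
      rfl
    rw [e1, e2]
    exact hB.data.per
  obtain ⟨act, hact⟩ := H55K.exists_CMA F A B Om j hd hper hj
  have hG : ∀ V : ValuationSubring (AlgebraicClosure F),
      ∃ (Kg : AddSubgroup (Pt (WAB A B) (AlgebraicClosure F))) (u : AlgebraicClosure F),
        GMod (WAB A B) V Kg u := fun V => H55K.exists_gmod hd (H55K.y3_j W₀ hA hB' hB.jint) V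
  exact ⟨A, B, j, act, hA, hB', H55K.mk_Dta hB hA hB' hact hG⟩

theorem c5_p (hp : PrimeH F W₀ p) [NumberField N'] [NumberField N] (c : CycI p n M N' N γ) (hU : UnrP p N)
    {w : HeightOneSpectrum (𝓞 N')} (hw : w ∈ AnW p W₀ N' N) : (p : 𝓞 N') ∉ w.asIdeal := by
  exact H13R.g6_ram_p hp.prime (c2_pext hp.prime.pos c).2.2 c.le' le_rfl hU hw.2.1

theorem c5_n (hp : PrimeH F W₀ p) [NumberField N'] [NumberField N] (c : CycI p n M N' N γ) (hU : UnrP p N)
    {w : HeightOneSpectrum (𝓞 N')} (hw : w ∈ AnW p W₀ N' N) : p ∣ Ideal.absNorm w.asIdeal - 1 := by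
  exact H55P.ram_norm p hp.prime N' N (c2_pext hp.prime.pos c).2.2 N c.le' le_rfl hU w hw.2.1

theorem c5_below (hH : BaseH F W₀ Om m ψ) (hp : PrimeH F W₀ p) [NumberField M] [NumberField N'] [NumberField N]
    (c : CycI p n M N' N γ) (hU : UnrP p N) (hB : BadM W₀ M) {V : ValuationSubring (AlgebraicClosure F)}
    (hV : RV (W₀⁄F) p N' N V) : ∃ w ∈ AnW p W₀ N' N, Abv N' V w := by
  obtain ⟨⟨s, hs, hin, hsN⟩, T, hT0, hTp, hTf⟩ := hV
  have hPE := (c2_pext hp.prime.pos c).2.2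
  have hVt : V ≠ ⊤ := by
    rintro rfl
    apply hsN
    have h1 : s = 1 := by
      ext x
      by_contra hx
      have h2 := hin x (ValuationSubring.mem_top x)
      have h3 : s x - x ≠ 0 := sub_ne_zero.2 hx
      have h4 := ((⊤ : ValuationSubring (AlgebraicClosure F)).valuation_le_one_iff ((s x - x)⁻¹)).2 (ValuationSubring.mem_top _)
      rw [map_inv₀] at h4
      have h5 : 0 < (⊤ : ValuationSubring (AlgebraicClosure F)).valuation (s x - x) := zero_lt_iff.2 ((map_ne_zero _).2 h3)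
      exact absurd ((one_lt_inv₀ h5).2 h2) (not_lt.2 h4)
    rw [h1]
    exact one_mem _
  obtain ⟨w, hw⟩ := H13X.xg3_below (F := F) N' hVt
  have hbel : Below V N' w.asIdeal := fun x => by
    rw [← w.valuation_lt_one_iff_mem (K := N') x]
    exact (H13S.Abv.lt hw (x : N')).symm
  have hfN := c.fin
  have hfN' : FiniteDimensional F N' := H55P.s13_fin c.le'
  have hram : Ram N' N w.asIdeal := by
    by_contra hr
    refine hsN (H55P.inert_mem N' N c.le' hPE.norm V (fun v hv hrv => hr ?_) s hs hin)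
    have e : v.asIdeal = w.asIdeal := by
      ext x
      exact (hv x).trans (hbel x).symm
    rwa [e] at hrv
  have hpw : (p : 𝓞 N') ∉ w.asIdeal := H13R.g6_ram_p hp.prime hPE c.le' le_rfl hU hram
  have hΔ : algebraMap (𝓞 F) (𝓞 N') W₀.Δ ∉ w.asIdeal := by
    intro hΔw
    obtain ⟨v, hvw⟩ := H13R.c3_below c.le w
    have hv : ∀ a : 𝓞 M, a ∈ v.asIdeal → V.valuation ((a : M) : AlgebraicClosure F) < 1 := by
      intro a ha
      have h1 : ∃ b : 𝓞 N', ((a : M) : AlgebraicClosure F) = ((b : N') : AlgebraicClosure F) := by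
        refine ⟨⟨⟨((a : M) : AlgebraicClosure F), c.le (a : M).2⟩, ?_⟩, rfl⟩
        have h2 : IsIntegral ℤ (a : M) := a.isIntegral_coe
        have h3 : IsIntegral ℤ ((IntermediateField.inclusion c.le) (a : M)) :=
          h2.map ((IntermediateField.inclusion c.le).toRingHom.toIntAlgHom)
        exact h3
      obtain ⟨b, hb⟩ := h1
      rw [hb]
      exact (hbel b).1 ((hvw a b hb).1 ha)
    have hΔv : algebraMap (𝓞 F) (𝓞 M) W₀.Δ ∈ v.asIdeal := (hvw _ (algebraMap (𝓞 F) (𝓞 N') W₀.Δ) rfl).2 hΔw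
    exact hT0 (H13R.bad_torsR hH hp (c2_pext hp.prime.pos c).1 c.le' hB hv hΔv T hTp
      (fun t ht hti => hTf t ht (H55P.inert_dec V t hti)))
  refine ⟨w, ⟨hΔ, hram, ?_⟩, hw⟩
  by_contra hc
  exact hT0 (H55P.fix_local W₀ p hp.prime N' V w hbel hΔ hpw hc T hTp hTf)

theorem c5_above (hH : BaseH F W₀ Om m ψ) (hp : PrimeH F W₀ p) [NumberField N'] [NumberField N]
    (c : CycI p n M N' N γ) (hU : UnrP p N) {w : HeightOneSpectrum (𝓞 N')} (hw : w ∈ AnW p W₀ N' N)
    {V : ValuationSubring (AlgebraicClosure F)} (hV : Abv N' V w) : RV (W₀⁄F) p N' N V := by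
  refine ⟨exists_tau hp.prime c.fin c.le' (c2_pext hp.prime.pos c).2.2.norm c.deg' hw.2.1 hV, ?_⟩
  obtain ⟨A, B, j, act, hA, hB, dta⟩ := exists_dta hH hp
  obtain ⟨T, hT0, hTp, hTf⟩ := H13R.lk_decR dta.cma W₀ hH.data.ell hA hB N' hw.1 hV hp.prime hp.five (c5_p hp c hU hw) hw.2.2
  obtain ⟨r, s, t, Θ, -, -, hΘ⟩ := H13R.r6_iso (Ω := AlgebraicClosure F) W₀ hH.data.ell hA hB
  refine ⟨Θ T, fun h => hT0 ?_, ?_, fun s hs hd => ?_⟩
  · exact (map_eq_zero_iff Θ Θ.injective).1 h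
  · rw [← map_nsmul, hTp, map_zero]
  · rw [hΘ, hTf s ⟨hs, hd⟩]

theorem c5_dec (hH : BaseH F W₀ Om m ψ) (hp : PrimeH F W₀ p) [NumberField M] [NumberField N'] [NumberField N]
    (c : CycI p n M N' N γ) (hU : UnrP p N) (hB : BadM W₀ M) {V : ValuationSubring (AlgebraicClosure F)}
    (hV : RV (W₀⁄F) p N' N V) (φ : AlgebraicClosure F ≃ₐ[F] AlgebraicClosure F) (hφ : φ ∈ M.fixingSubgroup) (hd : Dec V φ)
    (T : Pt (W₀⁄F) (AlgebraicClosure F)) (hT : p • T = 0) : ac (W₀⁄F) φ T = T := by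
  obtain ⟨w, hw, hVw⟩ := c5_below hH hp c hU hB hV
  obtain ⟨-, T0, hT00, hT0p, hT0f⟩ := hV
  obtain ⟨A, B, j, act, hA, hB', dta⟩ := exists_dta hH hp
  obtain ⟨r, s, t, Θ, -, -, hΘ⟩ := H13R.r6_iso (Ω := AlgebraicClosure F) W₀ hH.data.ell hA hB'
  obtain ⟨T1, rfl⟩ := Θ.surjective T0
  have hT10 : T1 ≠ 0 := by
    rintro rfl
    exact hT00 (map_zero Θ)
  have hT1p : p • T1 = 0 := by
    apply Θ.injective
    rw [map_nsmul, hT0p, map_zero]
  have hT1f : ∀ s, DecN N' V s → ac (WAB A B) s T1 = T1 := by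
    intro s hs
    apply Θ.injective
    rw [← hΘ, hT0f s hs.1 hs.2]
  obtain ⟨k, hk⟩ := H55P.PExt.pow p hp.prime M N' (c2_pext hp.prime.pos c).2.1
  obtain ⟨S, rfl⟩ := Θ.surjective T
  have hS : p • S = 0 := by
    apply Θ.injective
    rw [map_nsmul, hT, map_zero]
  rw [hΘ]
  refine congrArg Θ (c4_pow dta dta.unr φ k (fun S' hS' => ?_) S hS)
  refine c3_fix dta dta.unr N' hVw (c5_p hp c hU hw) (c5_n hp c hU hw) hT10 hT1p hT1f _ ⟨hk φ hφ, ?_⟩ S' hS'
  have h1 : φ ∈ H55P.decS F V := hd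
  exact pow_mem h1 (p ^ k)

theorem c5_red (hH : BaseH F W₀ Om m ψ) (hp : PrimeH F W₀ p) [NumberField N'] {w : HeightOneSpectrum (𝓞 N')}
    (hΔ : algebraMap (𝓞 F) (𝓞 N') W₀.Δ ∉ w.asIdeal) (hpw : (p : 𝓞 N') ∉ w.asIdeal) {V : ValuationSubring (AlgebraicClosure F)}
    (hV : Below V N' w.asIdeal) (s : AlgebraicClosure F ≃ₐ[F] AlgebraicClosure F) (hs : Inert V s) (k : ℕ)
    (P : Pt (W₀⁄F) (AlgebraicClosure F)) (h : p ^ k • (ac (W₀⁄F) s P - P) = 0) : ac (W₀⁄F) s P = P := by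
  have h1 : V.valuation (p : AlgebraicClosure F) = 1 := H55P.val_below N' V w hV p hpw
  refine H55P.red_fix (W₀⁄F) V (H55P.good_below W₀ N' V w hV hΔ) (p ^ k) ?_ s hs P h
  rw [Nat.cast_pow, map_pow, h1, one_pow]

end H13T
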