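import Mathlib
import Pool.Agent.Lib.H13T.C5
import Pool.Agent.Lib.H55R.X12

/-! Chunk C6 (M). Few relaxed primes: the decomposition group over M of a relaxed place contains an element of the class of η = γ^(p^(n-1)) modulo N'.
c6_num. PROOF. d = p^a d', p not dividing d' (Nat.exists_eq_pow_mul_and_not_dvd), a ≤ n - 1 as d < p^n; d' is invertible modulo p^n: e' d' ≡ 1 [MOD p^n]; e = e' * p^(n-1-a).
c6_fin. The primes of N' ramified in N: H55R.ram_fin (Lib/H55R/X12.lean) with Algebra N' N := inclusion, IsGalois N' N (H55P.s13_galois, Lib/H55P/S13.lean, from PExt.norm), and Ram N' N w → es ≠ 1 (see how Ram and es are compared: grep es_ram, ram_es, ramF_iff in Lib/H55P, Lib/H55K, Lib/H13R; or the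
primes of N' dividing the different: Ram gives W with w ⊆ W^2, so w 𝓞 N ⊆ W^2 (if W ≠ ⊥ above w)). 
c6_phi. PROOF. For i < p^n the place V_i = cV V (γ^i) satisfies RV (C1: c1_rv, C2: c2_iff); w_i in AnW below it (c5_below). Pigeonhole (c6_fin, few: Set.ncard, Finset.exists_ne_map_eq_of_card_lt_of_maps_to on Finset.range (p^n)): i < j < p^n with w_i = w_j.
trans_V (Lib/H13X/XT.lean) for V_i, V_j: s in N'.fixingSubgroup with s x ∈ V_j iff x ∈ V_i, that is γ^j (s x) in V iff γ^i x in V. δ = γ^j * s * (γ^i)⁻¹ satisfies Dec V δ (put x = (γ^i)⁻¹ y), is in M.fixingSubgroup, and δ = γ^(j-i) * s', s' = γ^i s γ^(-i) in N'.fixingSubgroup (c2_iff).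
e from c6_num for d = j - i: φ = δ^e. Modulo the normal subgroup N'.fixingSubgroup of M.fixingSubgroup (c2_iff) φ is γ^(d e), and γ^(d e) is γ^(p^(n-1)) modulo N'.fixingSubgroup by c.mid (if a ≡ b mod p^n then (γ^a)⁻¹ γ^b in N'.fixingSubgroup). Dec: decS is a subgroup. -/

open NumberField IsDedekindDomain WeierstrassCurve

namespace H13T

open H55P H55K H55K.TQ H55K.S
open H13S (Abv)
open H13R (BadM)

open scoped Classical

theorem c6_num {p n d : ℕ} (hp : p.Prime) (hn : 1 ≤ n) (h0 : 0 < d) (hd : d < p ^ n) : ∃ e : ℕ, d * e ≡ p ^ (n - 1) [MOD p ^ n] := by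
  obtain ⟨a, d', h2, h1⟩ := Nat.exists_eq_pow_mul_and_not_dvd h0.ne' p hp.ne_one
  have h3 : a ≤ n - 1 := by
    by_contra h4
    have h5 : n ≤ a := by omega
    have h6 : p ^ n ≤ p ^ a := Nat.pow_le_pow_right hp.pos h5
    have h7 : 0 < d' := by
      rcases Nat.eq_zero_or_pos d' with h8 | h8
      · rw [h8, mul_zero] at h1
        omega
      · exact h8
    have h9 : p ^ a * 1 ≤ p ^ a * d' := Nat.mul_le_mul_left _ h7
    omega
  have hcop : Nat.Coprime d' (p ^ n) := ((Nat.Prime.coprime_iff_not_dvd hp).2 h2).symm.pow_right n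
  have hgt : 1 < p ^ n := Nat.one_lt_pow (by omega) hp.one_lt
  obtain ⟨e', -, he'⟩ := Nat.exists_mul_mod_eq_one_of_coprime hcop hgt
  refine ⟨e' * p ^ (n - 1 - a), ?_⟩
  have h10 : d * (e' * p ^ (n - 1 - a)) = (d' * e') * p ^ (n - 1) := by
    have h11 : p ^ (n - 1) = p ^ a * p ^ (n - 1 - a) := by
      rw [← pow_add]
      congr 1
      omega
    rw [h11, h1]
    ring
  have h12 : d' * e' ≡ 1 [MOD p ^ n] := by
    show d' * e' % p ^ n = 1 % p ^ n
    rw [he', Nat.mod_eq_of_lt hgt]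
  rw [h10]
  have h13 := h12.mul_right (p ^ (n - 1))
  rwa [one_mul] at h13

variable {F : Type} [Field F] [NumberField F] [IQ F] {W₀ : WeierstrassCurve (𝓞 F)} {Om : ℂ}
  {m : Ideal (𝓞 F)} {ψ : Ideal (𝓞 F) →*₀ 𝓞 F} {p n : ℕ} {M N' N : IntermediateField F (AlgebraicClosure F)}
  {γ : AlgebraicClosure F ≃ₐ[F] AlgebraicClosure F}

theorem c6_fin (hp : 0 < p) [NumberField N'] [NumberField N] (c : CycI p n M N' N γ) : (AnW p W₀ N' N).Finite := by
  have hfd : FiniteDimensional F N := c.fin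
  let _ := s13_alg c.le'
  have hgal : IsGalois N' N := s13_galois N' N c.le'
    (fun g hg x hx => c.nrm g (IntermediateField.fixingSubgroup_antitone c.le hg) x hx)
  have hD : differentIdeal (𝓞 N') (𝓞 N) ≠ ⊥ := differentIdeal_ne_bot
  refine Set.Finite.subset (Set.Finite.image (fun W : HeightOneSpectrum (𝓞 N) => W.under (𝓞 N'))
    (Ideal.finite_factors (I := differentIdeal (𝓞 N') (𝓞 N)) hD)) ?_
  rintro w ⟨-, ⟨W, hWp, hW⟩, -⟩
  have hwm := w.isMaximal
  have hle : w.asIdeal.map (algebraMap (𝓞 N') (𝓞 N)) ≤ W ^ 2 :=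
    Ideal.map_le_iff_le_comap.2 fun x hx => hW x (algebraMap (𝓞 N') (𝓞 N) x) hx rfl
  have hne : W ≠ ⊥ := by
    intro h1
    have h2 : W ^ 2 = ⊥ := by
      rw [h1]
      exact zero_pow two_ne_zero
    rw [h2, le_bot_iff] at hle
    exact w.ne_bot ((Ideal.map_eq_bot_iff_of_injective (FaithfulSMul.algebraMap_injective (𝓞 N') (𝓞 N))).1 hle)
  refine ⟨⟨W, hWp, hne⟩, ?_, ?_⟩
  · have h2 : W ^ 2 ∣ w.asIdeal.map (algebraMap (𝓞 N') (𝓞 N)) := Ideal.dvd_iff_le.2 hle
    have h3 := pow_sub_one_dvd_differentIdeal (𝓞 N') W _ w.ne_bot h2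
    have h4 : (2 - 1 : ℕ) = 1 := rfl
    rw [h4, pow_one] at h3
    exact h3
  · apply HeightOneSpectrum.ext
    have h5 : w.asIdeal ≤ W.comap (algebraMap (𝓞 N') (𝓞 N)) :=
      Ideal.map_le_iff_le_comap.1 (hle.trans (Ideal.pow_le_self two_ne_zero))
    exact (hwm.eq_of_le (Ideal.comap_ne_top _ hWp.ne_top) h5).symm

theorem c6_phi (hH : BaseH F W₀ Om m ψ) (hp : PrimeH F W₀ p) [NumberField M] [NumberField N'] [NumberField N]
    (c : CycI p n M N' N γ) (hU : UnrP p N) (hB : BadM W₀ M) (few : (AnW p W₀ N' N).ncard < p ^ n)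
    {V : ValuationSubring (AlgebraicClosure F)} (hV : RV (W₀⁄F) p N' N V) :
    ∃ φ ∈ M.fixingSubgroup, Dec V φ ∧ φ⁻¹ * γ ^ p ^ (n - 1) ∈ N'.fixingSubgroup := by
  have hfin : (AnW p W₀ N' N).Finite := c6_fin hp.prime.pos c
  have hgm : ∀ i : ℕ, γ ^ i ∈ M.fixingSubgroup := fun i => Subgroup.pow_mem _ c.gam i
  have hex : ∀ i : ℕ, ∃ w ∈ AnW p W₀ N' N, Abv N' (cV V (γ ^ i)) w := fun i =>
    c5_below hH hp c hU hB ((c1_rv (W₀⁄F) p N' N V (γ ^ i) (c2_iff c _ (hgm i)).1 (c2_iff c _ (hgm i)).2).2 hV)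
  choose w hwA hwV using hex
  have hcard : hfin.toFinset.card < (Finset.range (p ^ n)).card := by
    rw [Finset.card_range, ← Set.ncard_eq_toFinset_card _ hfin]
    exact few
  obtain ⟨i, hi, j, hj, hij, hw⟩ := Finset.exists_ne_map_eq_of_card_lt_of_maps_to hcard
    (f := w) (fun i _ => by
      rw [Finset.mem_coe, Set.Finite.mem_toFinset]
      exact hwA i)
  have hmain : ∀ i j : ℕ, i < j → j < p ^ n → w i = w j →
      ∃ φ ∈ M.fixingSubgroup, Dec V φ ∧ φ⁻¹ * γ ^ p ^ (n - 1) ∈ N'.fixingSubgroup := by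
    intro i j hij hj hw
    have h1 := hwV i
    rw [hw] at h1
    obtain ⟨s, hs, hs'⟩ := H13X.trans_V N' h1 (hwV j)
    obtain ⟨δ, hδ⟩ : ∃ δ, δ = γ ^ j * s * (γ ^ i)⁻¹ := ⟨_, rfl⟩
    have hdec : Dec V δ := by
      intro x
      have h2 := hs' ((γ ^ i)⁻¹ x)
      rw [mem_cV, mem_cV] at h2
      have h3 : (γ ^ i) ((γ ^ i)⁻¹ x) = x := (γ ^ i).apply_symm_apply x
      rw [h3] at h2
      rw [hδ]
      exact h2
    have hδ2 : δ = γ ^ (j - i) * (γ ^ i * s * (γ ^ i)⁻¹) := by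
      have h4 : γ ^ j = γ ^ (j - i) * γ ^ i := by
        rw [← pow_add]
        congr 1
        omega
      rw [hδ, h4]
      group
    have hs'' : γ ^ i * s * (γ ^ i)⁻¹ ∈ N'.fixingSubgroup := ((c2_iff c _ (hgm i)).1 s).2 hs
    have hNM : ∀ t, t ∈ N'.fixingSubgroup → t ∈ M.fixingSubgroup := fun t ht =>
      IntermediateField.fixingSubgroup_antitone c.le ht
    have hδM : δ ∈ M.fixingSubgroup := by
      rw [hδ2]
      exact mul_mem (hgm _) (hNM _ hs'')
    obtain ⟨e, he⟩ := c6_num hp.prime c.pos (show 0 < j - i by omega) (show j - i < p ^ n by omega)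
    have hk : ∀ k : ℕ, (γ ^ ((j - i) * k))⁻¹ * δ ^ k ∈ N'.fixingSubgroup := by
      intro k
      induction k with
      | zero =>
        rw [mul_zero, pow_zero, pow_zero, inv_one, one_mul]
        exact one_mem _
      | succ k ih =>
        have h5 : (γ ^ ((j - i) * (k + 1)))⁻¹ * δ ^ (k + 1) =
            ((γ ^ (j - i))⁻¹ * ((γ ^ ((j - i) * k))⁻¹ * δ ^ k) * ((γ ^ (j - i))⁻¹)⁻¹) *
              (γ ^ i * s * (γ ^ i)⁻¹) := by
          have h6 : γ ^ ((j - i) * (k + 1)) = γ ^ ((j - i) * k) * γ ^ (j - i) := by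
            rw [mul_add, mul_one, pow_add]
          have h7 : γ ^ i * s * (γ ^ i)⁻¹ = (γ ^ (j - i))⁻¹ * δ := by
            rw [hδ2]
            group
          rw [h6, h7, pow_succ, mul_inv_rev]
          simp only [mul_assoc, inv_inv, mul_inv_cancel_left]
        rw [h5]
        exact mul_mem (((c2_iff c _ (inv_mem (hgm (j - i)))).1 _).2 ih) hs''
    refine ⟨δ ^ e, Subgroup.pow_mem _ hδM e, ?_, ?_⟩
    · exact Subgroup.pow_mem (decS F V) (show δ ∈ decS F V from hdec) e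
    · have h8 : (γ ^ ((j - i) * e))⁻¹ * γ ^ p ^ (n - 1) ∈ N'.fixingSubgroup := by
        rcases le_total ((j - i) * e) (p ^ (n - 1)) with h9 | h9
        · have h10 : (γ ^ ((j - i) * e))⁻¹ * γ ^ p ^ (n - 1) = γ ^ (p ^ (n - 1) - (j - i) * e) := by
            rw [inv_mul_eq_iff_eq_mul, ← pow_add]
            congr 1
            omega
          rw [h10, c.mid]
          exact (Nat.modEq_iff_dvd' h9).1 he
        · have h10 : (γ ^ ((j - i) * e))⁻¹ * γ ^ p ^ (n - 1) = (γ ^ ((j - i) * e - p ^ (n - 1)))⁻¹ := by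
            rw [inv_mul_eq_iff_eq_mul, eq_mul_inv_iff_mul_eq, ← pow_add]
            congr 1
            omega
          rw [h10]
          apply inv_mem
          rw [c.mid]
          exact (Nat.modEq_iff_dvd' h9).1 he.symm
      have h11 : (δ ^ e)⁻¹ * γ ^ p ^ (n - 1) =
          ((γ ^ ((j - i) * e))⁻¹ * δ ^ e)⁻¹ * ((γ ^ ((j - i) * e))⁻¹ * γ ^ p ^ (n - 1)) := by
        group
      rw [h11]
      exact mul_mem (inv_mem (hk e)) h8
  rw [Finset.mem_range] at hi hj
  rcases lt_or_gt_of_ne hij with h | h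
  · exact hmain i j h hj hw
  · exact hmain j i h hi hw.symm

end H13T
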