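import Mathlib
import Pool.Agent.Lib.H13T.C5
import Pool.Agent.Lib.H55K.NA7

/-! Chunk C7 (M). The local conditions at the places which are not relaxed.
c7_cob. PROOF: copy H55K.NB.inert_cob (Lib/H55K/NA5.lean): only values on the elements s of N'.fixingSubgroup with Inert V s are used; sah gives p • P = 0 as well. hcomm: H55K.NB.comm_tors (Lib/H55K/NA7.lean).
c7_loc. PROOF. If all s in N'.fixingSubgroup with Inert V s are in N.fixingSubgroup: first alternative. Otherwise no nonzero point killed by p is fixed by the s of N'.fixingSubgroup with Dec V s (¬ RV), V is above a prime w of N' (below_cases; in the other case Inert V s gives s = 1), Ram N' N w.asIdeal (inert_mem), p not in w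
(H13R.g6_ram_p, c2_pext). If Δ is not in w: second alternative (c5_red; the absence of points). If Δ is in w: third alternative: c7_cob with V.valuation p = 1 (val_below) and h0 = H13R.bad_torsR (L = N, K = N', v the prime of M below w: H13R.c3_below; val: H55P.Below gives V.valuation < 1). -/

open NumberField IsDedekindDomain WeierstrassCurve

namespace H13T

open H55P H55K H55K.TQ H55K.S
open H13S (Abv)
open H13R (BadM)

open scoped Classical

variable {F : Type} [Field F] [NumberField F] [IQ F] {W₀ : WeierstrassCurve (𝓞 F)} {Om : ℂ}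
  {m : Ideal (𝓞 F)} {ψ : Ideal (𝓞 F) →*₀ 𝓞 F} {p n : ℕ} {M N' N : IntermediateField F (AlgebraicClosure F)}
  {γ : AlgebraicClosure F ≃ₐ[F] AlgebraicClosure F}

theorem c7_cob (hH : BaseH F W₀ Om m ψ) (hp : PrimeH F W₀ p) (V : ValuationSubring (AlgebraicClosure F))
    (hV : V.valuation (p : AlgebraicClosure F) = 1)
    (h0 : ∀ T : Pt (W₀⁄F) (AlgebraicClosure F), p • T = 0 → (∀ s ∈ N'.fixingSubgroup, Inert V s → ac (W₀⁄F) s T = T) → T = 0)
    (d : (AlgebraicClosure F ≃ₐ[F] AlgebraicClosure F) → Pt (W₀⁄F) (AlgebraicClosure F))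
    (hd : ∀ s ∈ N'.fixingSubgroup ⊓ inS F V, ∀ t ∈ N'.fixingSubgroup ⊓ inS F V, d (s * t) = d s + ac (W₀⁄F) s (d t))
    (hpd : ∀ s ∈ N'.fixingSubgroup ⊓ inS F V, p • d s = 0)
    (hco : ∃ L : IntermediateField F (AlgebraicClosure F), FiniteDimensional F L ∧
      ∀ s ∈ N'.fixingSubgroup ⊓ inS F V, s ∈ L.fixingSubgroup → d s = 0) :
    ∃ T : Pt (W₀⁄F) (AlgebraicClosure F), p • T = 0 ∧ ∀ s ∈ N'.fixingSubgroup ⊓ inS F V, d s = ac (W₀⁄F) s T - T := by
  have hpp := hp.prime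
  have hell : (W₀⁄F).IsElliptic := by
    rw [WeierstrassCurve.isElliptic_iff, isUnit_iff_ne_zero]
    have e : (W₀⁄F).Δ = algebraMap (𝓞 F) F W₀.Δ := WeierstrassCurve.map_Δ _ _
    rw [e]
    intro h1
    exact hH.data.ell ((map_eq_zero_iff _ (FaithfulSMul.algebraMap_injective (𝓞 F) F)).1 h1)
  have hcomm : ∀ s t : AlgebraicClosure F ≃ₐ[F] AlgebraicClosure F, ∀ T : Pt (W₀⁄F) (AlgebraicClosure F), p • T = 0 →
      ac (W₀⁄F) s (ac (W₀⁄F) t T) = ac (W₀⁄F) t (ac (W₀⁄F) s T) := fun s t T hT => H55K.NB.comm_tors hH hpp s t T hT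
  have hMul : ∀ (a b : AlgebraicClosure F ≃ₐ[F] AlgebraicClosure F) (x : Pt (W₀⁄F) (AlgebraicClosure F)),
      ac (W₀⁄F) (a * b) x = ac (W₀⁄F) a (ac (W₀⁄F) b x) := by
    intro a b x
    rw [← acR_apply, map_mul]
    rfl
  have hone : ∀ x : Pt (W₀⁄F) (AlgebraicClosure F), ac (W₀⁄F) 1 x = x := fun x => by rw [← acR_apply, map_one]; rfl
  have hk : ∀ s ∈ N'.fixingSubgroup ⊓ inS F V, ∀ t ∈ N'.fixingSubgroup ⊓ inS F V, d (s * t * s⁻¹ * t⁻¹) = 0 := by
    intro s hs t ht
    obtain ⟨L, hLf, hL⟩ := hco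
    set u : AlgebraicClosure F ≃ₐ[F] AlgebraicClosure F := s * t * s⁻¹ * t⁻¹ with hu
    have huN : u ∈ N'.fixingSubgroup ⊓ inS F V :=
      mul_mem (mul_mem (mul_mem hs ht) (inv_mem hs)) (inv_mem ht)
    have hw : H55K.NB.Wild V u := H55K.NB.wild_comm V s t hs.2 ht.2
    obtain ⟨a, hpa, hfix⟩ := H55K.NB.wild_coprime V hw hpp hV L
    have htriv : ∀ T : Pt (W₀⁄F) (AlgebraicClosure F), p • T = 0 → ac (W₀⁄F) u T = T := by
      intro T hT
      have q : ∀ g : AlgebraicClosure F ≃ₐ[F] AlgebraicClosure F, p • ac (W₀⁄F) g T = 0 := fun g => by rw [← map_nsmul, hT, map_zero]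
      rw [hu, hMul, hMul, hMul, hcomm s t _ (by rw [← map_nsmul, q, map_zero]), ← hMul s s⁻¹,
        mul_inv_cancel, hone, ← hMul, mul_inv_cancel, hone]
    have hpow : ∀ k : ℕ, d (u ^ k) = k • d u := by
      intro k
      induction k with
      | zero =>
        rw [pow_zero, zero_smul]
        have h1 := hd 1 (one_mem _) 1 (one_mem _)
        rw [mul_one, hone] at h1
        exact left_eq_add.1 h1
      | succ k ih =>
        rw [pow_succ', hd u huN _ (pow_mem huN k), htriv _ (hpd _ (pow_mem huN k)), ih, succ_nsmul']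
    have h1 : a • d u = 0 := by
      rw [← hpow]
      exact hL _ (pow_mem huN a) hfix
    have h2 : p • d u = 0 := hpd u huN
    have hcop : IsCoprime (a : ℤ) (p : ℤ) := by
      rw [Nat.isCoprime_iff_coprime, Nat.coprime_comm]
      exact (Nat.Prime.coprime_iff_not_dvd hpp).2 hpa
    obtain ⟨x, y, hxy⟩ := hcop
    have h3 : (1 : ℤ) • d u = 0 := by
      rw [← hxy, add_smul, mul_smul, mul_smul, natCast_zsmul, natCast_zsmul, h1, h2, smul_zero, smul_zero, add_zero]
    rwa [one_smul] at h3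
  exact H55K.NB.sah (acR (W₀⁄F)) p (tors_fin (Ω := AlgebraicClosure F) (W₀⁄F) p hpp.pos) (N'.fixingSubgroup ⊓ inS F V)
    (fun s _ t _ T hT => hcomm s t T hT)
    (fun T hT h => h0 T hT fun s hs hi => h s ⟨hs, hi⟩) d hd hpd hk

theorem c7_loc (hH : BaseH F W₀ Om m ψ) (hp : PrimeH F W₀ p) [NumberField M] [NumberField N'] [NumberField N]
    (c : CycI p n M N' N γ) (hU : UnrP p N) (hB : BadM W₀ M) {V : ValuationSubring (AlgebraicClosure F)}
    (hV : ¬ RV (W₀⁄F) p N' N V) : (∀ s ∈ N'.fixingSubgroup, Inert V s → s ∈ N.fixingSubgroup) ∨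
      ((∀ s ∈ N'.fixingSubgroup, Inert V s → ∀ (k : ℕ) (P : Pt (W₀⁄F) (AlgebraicClosure F)),
          p ^ k • (ac (W₀⁄F) s P - P) = 0 → ac (W₀⁄F) s P = P) ∧
        ∀ T : Pt (W₀⁄F) (AlgebraicClosure F), p • T = 0 → (∀ s ∈ N'.fixingSubgroup, Dec V s → ac (W₀⁄F) s T = T) → T = 0) ∨
      (V.valuation (p : AlgebraicClosure F) = 1 ∧ ∀ T : Pt (W₀⁄F) (AlgebraicClosure F), p • T = 0 →
        (∀ s ∈ N'.fixingSubgroup, Inert V s → ac (W₀⁄F) s T = T) → T = 0) := by
  have hpp := hp.prime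
  obtain ⟨hMN, -, hNN⟩ := c2_pext hpp.pos c
  have hfin : FiniteDimensional F N := c.fin
  have hfin' : FiniteDimensional F N' := inferInstance
  rcases below_cases N' V with ⟨w, hw⟩ | h
  swap
  · left
    intro s _ hi
    rw [h s hi]
    exact one_mem _
  by_cases hin : ∀ s ∈ N'.fixingSubgroup, Inert V s → s ∈ N.fixingSubgroup
  · exact Or.inl hin
  right
  have hin' : ∃ s ∈ N'.fixingSubgroup, Inert V s ∧ s ∉ N.fixingSubgroup := by
    by_contra h1
    exact hin fun s hs hi => by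
      by_contra h2
      exact h1 ⟨s, hs, hi, h2⟩
  have hno : ∀ T : Pt (W₀⁄F) (AlgebraicClosure F), p • T = 0 → (∀ s ∈ N'.fixingSubgroup, Dec V s → ac (W₀⁄F) s T = T) → T = 0 := by
    intro T hT hs
    by_contra hT0
    exact hV ⟨hin', T, hT0, hT, hs⟩
  have hram : Ram N' N w.asIdeal := by
    by_contra hr
    refine hin (inert_mem N' N c.le' (fun s hs x hx => c.nrm s (IntermediateField.fixingSubgroup_antitone c.le hs) x hx) V fun v hv => ?_)
    have e1 : v = w := by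
      apply HeightOneSpectrum.ext
      ext x
      rw [hv x, hw x]
    rw [e1]
    exact hr
  have hpw : (p : 𝓞 N') ∉ w.asIdeal := H13R.g6_ram_p hpp hNN c.le' le_rfl hU hram
  by_cases hΔ : algebraMap (𝓞 F) (𝓞 N') W₀.Δ ∈ w.asIdeal
  · right
    refine ⟨val_below N' V w hw p hpw, fun T hT hf => ?_⟩
    obtain ⟨v, hv⟩ := H13R.c3_below c.le w
    refine H13R.bad_torsR hH hp hMN c.le' hB (v := v) (V := V) (fun a ha => ?_) ((hv _ _ rfl).2 hΔ) T hT hf
    let _ : Algebra M N' := (IntermediateField.inclusion c.le).toRingHom.toAlgebra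
    have h1 : algebraMap (𝓞 M) (𝓞 N') a ∈ w.asIdeal := (hv a (algebraMap (𝓞 M) (𝓞 N') a) rfl).1 ha
    exact (hw _).1 h1
  · left
    exact ⟨fun s _ hi k P h => c5_red hH hp hΔ hpw hw s hi k P h, hno⟩

end H13T
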