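import Mathlib
import Pool.Agent.Lib.H13T.C6
import Pool.Agent.Lib.H13T.C7
import Pool.Agent.Lib.H13R.Main

/-! Chunk C9 (M). The data TS for the curve. ρ = (galS (W₀⁄F) Ω).act (SSG.galS_act: it is ac), U = (galS ..).U = the fixing subgroups of the finite extensions, I = inS F, D = decS F, N, H, H₀ = the fixing subgroups of N, N', M.
c9_hI: V ≠ ⊤: J = decS F V, inert_dec; V = ⊤: valuation of a nonzero element is 1 (ValuationSubring.mem_top, valuation_le_one_iff for x and x⁻¹), so Inert ⊤ s gives s = 1.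
c9_ts. hUi: IntermediateField.fixingSubgroup_sup; hUc: as in H55P.sel_step (Lib/H55P/S3.lean); hN: c.fin; hNH, hHH: IntermediateField.fixingSubgroup_antitone (c.le', c.le); hcomm, hη, hηp, hηpp, hgen: C2; hconj: v' = cV v g, c1_in, c1_rv, c2_iff; hDI: inS_dec; h0: H13R.tors_KR with L = K = N (c2_pext; UnrP p M: H13R.unr_le);
hdiv: H55P.div_pt (p > 0; (W₀⁄F).IsElliptic: H55P.gen_ell); hfix: H55P.pt_open; hloc: c7_loc, c7_cob; hR: c5_below + c5_red (first part), c6_phi + c5_dec (second part); sel: H55P.sel_iff for SelG p W₀ N' (acR and (galS ..).act agree: acR_apply). -/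

open NumberField IsDedekindDomain WeierstrassCurve

namespace H13T

open H55P H55K H55K.TQ H55K.S
open H13S (Abv)
open H13R (BadM)

open scoped Classical

variable {F : Type} [Field F] [NumberField F] [IQ F] {W₀ : WeierstrassCurve (𝓞 F)} {Om : ℂ}
  {m : Ideal (𝓞 F)} {ψ : Ideal (𝓞 F) →*₀ 𝓞 F} {p n : ℕ} {M N' N : IntermediateField F (AlgebraicClosure F)}
  {γ : AlgebraicClosure F ≃ₐ[F] AlgebraicClosure F}

theorem c9_hI {F : Type} [Field F] (W : WeierstrassCurve F) {Ω : Type} [Field Ω] [Algebra F Ω] (V : ValuationSubring Ω) :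
    (∃ J ∈ (SSG.galS W Ω).D, inS F V ≤ J) ∨ inS F V = ⊥ := by
  by_cases hV : V = ⊤
  · right
    rw [Subgroup.eq_bot_iff_forall]
    intro s hs
    rw [mem_inS, hV] at hs
    ext x
    by_contra hx
    have h2 := hs x (ValuationSubring.mem_top x)
    have h3 : s x - x ≠ 0 := sub_ne_zero.2 hx
    have h4 : (⊤ : ValuationSubring Ω).valuation (s x - x)⁻¹ ≤ 1 :=
      ((⊤ : ValuationSubring Ω).valuation_le_one_iff _).2 (ValuationSubring.mem_top _)
    rw [map_inv₀, inv_le_one₀ (zero_lt_iff.2 ((map_ne_zero _).2 h3))] at h4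
    exact absurd h2 (not_lt.2 h4)
  · left
    exact ⟨decS F V, ⟨V, hV, rfl⟩, fun s hs => inert_dec V s hs⟩

theorem c9_ts (hH : BaseH F W₀ Om m ψ) (hp : PrimeH F W₀ p) [NumberField M] [NumberField N'] [NumberField N]
    (c : CycI p n M N' N γ) (hU : UnrP p N) (hB : BadM W₀ M) (hS : SelG p W₀ N') (few : (AnW p W₀ N' N).ncard < p ^ n) :
    TS (SSG.galS (W₀⁄F) (AlgebraicClosure F)).act p (SSG.galS (W₀⁄F) (AlgebraicClosure F)).U (inS F) (decS F) N.fixingSubgroup
      N'.fixingSubgroup M.fixingSubgroup (γ ^ p ^ (n - 1)) (RV (W₀⁄F) p N' N) := by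
  have hNf : FiniteDimensional F N := c.fin
  have hell : (W₀⁄F).IsElliptic := gen_ell W₀ hH.data.ell
  obtain ⟨hp1, hp2, hp3⟩ := c2_pext hp.prime.pos c
  obtain ⟨he1, he2, he3⟩ := c2_eta c
  have hUM : UnrP p M := H13R.unr_le hp.prime (c.le.trans c.le') hU
  refine
    { hp := hp.prime
      hUi := ?_
      hUc := ?_
      hN := ⟨N, c.fin, rfl⟩
      hNH := IntermediateField.fixingSubgroup_antitone c.le'
      hHH := IntermediateField.fixingSubgroup_antitone c.le
      hcomm := c2_comm c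
      hη := he1
      hηp := he2
      hηpp := he3
      hgen := c2_gen c
      hconj := fun g hg v => ⟨cV v g, fun s => c1_in v g s,
        c1_rv (W₀⁄F) p N' N v g (c2_iff c g hg).1 (c2_iff c g hg).2⟩
      hDI := fun v φ hφ s hs => inS_dec v φ hφ s hs
      h0 := fun T hT hf => H13R.tors_KR hH hp hUM hp1 le_rfl T hT hf
      hdiv := fun T => div_pt (W₀⁄F) p hp.prime.pos T
      hfix := ?_
      hloc := ?_
      hR := ?_
      sel := (sel_iff (W₀⁄F) p N').1 hS }
  · rintro _ ⟨L, hL, rfl⟩ _ ⟨L', hL', rfl⟩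
    exact ⟨L ⊔ L', IntermediateField.finiteDimensional_sup L L',
      (IntermediateField.fixingSubgroup_sup).symm⟩
  · rintro _ ⟨L, hL, rfl⟩ g
    refine ⟨(L.map (g⁻¹ : AlgebraicClosure F ≃ₐ[F] AlgebraicClosure F).toAlgHom).fixingSubgroup, ⟨_, ?_, rfl⟩, ?_⟩
    · exact LinearEquiv.finiteDimensional
        (IntermediateField.equivMap L (g⁻¹ : AlgebraicClosure F ≃ₐ[F] AlgebraicClosure F).toAlgHom).toLinearEquiv
    · intro s hs
      rw [s3_mem] at hs ⊢
      intro x hx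
      have h1 : g (g⁻¹ x) = x := g.apply_symm_apply x
      have h2 : s (g⁻¹ x) = g⁻¹ x := hs _ ⟨x, hx, rfl⟩
      rw [AlgEquiv.mul_apply, AlgEquiv.mul_apply, h2, h1]
  · intro T
    obtain ⟨L, hL, h⟩ := pt_open (W₀⁄F) T
    exact ⟨L.fixingSubgroup, ⟨L, hL, rfl⟩, h⟩
  · intro v hv
    rcases c7_loc hH hp c hU hB hv with h | h | ⟨h1, h2⟩
    · exact Or.inl h
    · exact Or.inr (Or.inl h)
    · refine Or.inr (Or.inr fun d hd hpd hco => ?_)
      obtain ⟨O, ⟨L, hL, rfl⟩, hO⟩ := hco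
      exact c7_cob hH hp v h1 h2 d hd hpd ⟨L, hL, hO⟩
  · intro v hv
    obtain ⟨w, hw, hwV⟩ := c5_below hH hp c hU hB hv
    have hbel : Below v N' w.asIdeal := fun x => by
      rw [H13S.Abv.lt hwV (x : N')]
      exact (HeightOneSpectrum.valuation_lt_one_iff_mem w x).symm
    obtain ⟨φ, h1, h2, h3⟩ := c6_phi hH hp c hU hB few hv
    exact ⟨fun s _ hs k P h => c5_red hH hp hw.1 (c5_p hp c hU hw) hbel s hs k P h,
      φ, h2, h1, h3, fun T hT => c5_dec hH hp c hU hB hv φ h1 h2 T hT⟩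

end H13T
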