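import Mathlib
import Pool.Agent.Lib.H13T.D

/-! Chunk U2 (S). From p to p^k.
pow_sel: induction on k. k = 0: 1 • c s = 0, T = 0. k + 1: c₁ = fun s => p^k • c s satisfies the hypotheses of SelA ρ p U I H (P becomes p^k • P), so p^k • c s = ρ s T - T on H with p • T = 0. T = p^k • T' (hdiv k times: div_pow). c₂ = fun s => c s - (ρ s T' - T') on H:
cocycle, killed by p^k on H, continuous (hfix T' gives O', O ⊓ O' in U by hUi), local conditions P - T'. The induction hypothesis gives T''; take T' + T'' (p^(k+1) (T' + T'') = p • T + p • (p^k • T'') = 0).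
pow_all: the same for the group J in place of H (no local conditions): if all continuous cocycles on J killed by p are coboundaries of points killed by p then the same for p^k. -/

namespace H13T

open H55P

variable {G M Vs : Type} [Group G] [AddCommGroup M]

theorem div_pow {p : ℕ} (hdiv : ∀ T : M, ∃ T', p • T' = T) (k : ℕ) (T : M) : ∃ T', p ^ k • T' = T := by
  induction k generalizing T with
  | zero => exact ⟨T, by rw [pow_zero, one_smul]⟩
  | succ k ih =>
    obtain ⟨T', h1⟩ := ih T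
    obtain ⟨T'', h2⟩ := hdiv T'
    exact ⟨T'', by rw [pow_succ, mul_smul, h2, h1]⟩

theorem u2_coc (ρ : G →* AddMonoid.End M) {J : Subgroup G} {c : G → M} (hc : IsC ρ J c) (T' : M) :
    IsC ρ J fun s => c s - (ρ s T' - T') := by
  intro s hs t ht
  have h1 : ρ (s * t) T' = ρ s (ρ t T') := by
    rw [map_mul]
    rfl
  show c (s * t) - (ρ (s * t) T' - T') = c s - (ρ s T' - T') + ρ s (c t - (ρ t T' - T'))
  rw [hc s hs t ht, h1, map_sub, map_sub]
  abel

theorem u2_cont (ρ : G →* AddMonoid.End M) {U : Set (Subgroup G)} {J : Subgroup G}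
    (hUi : ∀ O ∈ U, ∀ O' ∈ U, O ⊓ O' ∈ U) (hfix : ∀ T : M, ∃ O ∈ U, ∀ s ∈ O, ρ s T = T)
    {c : G → M} (hc : Cont U J c) (T' : M) : Cont U J fun s => c s - (ρ s T' - T') := by
  obtain ⟨O, hO, h1⟩ := hc
  obtain ⟨O', hO', h2⟩ := hfix T'
  refine ⟨O ⊓ O', hUi O hO O' hO', fun s hs hsO => ?_⟩
  show c s - (ρ s T' - T') = 0
  rw [h1 s hs hsO.1, h2 s hsO.2, sub_self, sub_zero]

theorem u2_kil (ρ : G →* AddMonoid.End M) {N : ℕ} {c T T' : M} {s : G} (h : N • c = ρ s T - T)
    (hT : N • T' = T) : N • (c - (ρ s T' - T')) = 0 := by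
  rw [smul_sub, smul_sub, ← map_nsmul, hT, h, sub_self]

theorem u2_fin {p k : ℕ} {T T' T'' : M} (hT : p • T = 0) (hT' : p ^ k • T' = T) (hT'' : p ^ k • T'' = 0) :
    p ^ (k + 1) • (T' + T'') = 0 := by
  rw [pow_succ', mul_smul, smul_add, hT', hT'', add_zero, hT]

theorem pow_sel (ρ : G →* AddMonoid.End M) {p : ℕ} {U : Set (Subgroup G)} {I : Vs → Subgroup G} {H : Subgroup G}
    (hUi : ∀ O ∈ U, ∀ O' ∈ U, O ⊓ O' ∈ U) (hdiv : ∀ T : M, ∃ T', p • T' = T) (hfix : ∀ T : M, ∃ O ∈ U, ∀ s ∈ O, ρ s T = T)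
    (sel : SelA ρ p U I H) (k : ℕ) : SelA ρ (p ^ k) U I H := by
  induction k with
  | zero =>
    intro c _ _ hk _
    refine ⟨0, smul_zero _, fun s hs => ?_⟩
    have h1 := hk s hs
    rw [pow_zero, one_smul] at h1
    rw [h1, map_zero, sub_zero]
  | succ k ih =>
    intro c hc hco hk hloc
    obtain ⟨T, hT, h1⟩ := sel (fun s => p ^ k • c s)
      (fun s hs t ht => by
        show p ^ k • c (s * t) = p ^ k • c s + ρ s (p ^ k • c t)
        rw [hc s hs t ht, smul_add, map_nsmul])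
      (by
        obtain ⟨O, hO, h2⟩ := hco
        exact ⟨O, hO, fun s hs hsO => by
          show p ^ k • c s = 0
          rw [h2 s hs hsO, smul_zero]⟩)
      (fun s hs => by
        show p • p ^ k • c s = 0
        rw [← mul_smul, ← pow_succ']
        exact hk s hs)
      (fun v => by
        obtain ⟨P, hP⟩ := hloc v
        exact ⟨p ^ k • P, fun s hs hsv => by
          show p ^ k • c s = _
          rw [hP s hs hsv, smul_sub, map_nsmul]⟩)
    obtain ⟨T', hT'⟩ := div_pow hdiv k T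
    obtain ⟨T'', hT'', h3⟩ := ih (fun s => c s - (ρ s T' - T')) (u2_coc ρ hc T')
      (u2_cont ρ hUi hfix hco T') (fun s hs => u2_kil ρ (h1 s hs) hT')
      (fun v => by
        obtain ⟨P, hP⟩ := hloc v
        exact ⟨P - T', fun s hs hsv => by
          show c s - (ρ s T' - T') = _
          rw [hP s hs hsv, map_sub]
          abel⟩)
    refine ⟨T' + T'', u2_fin hT hT' hT'', fun s hs => ?_⟩
    have h4 : c s - (ρ s T' - T') = ρ s T'' - T'' := h3 s hs
    rw [sub_eq_iff_eq_add] at h4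
    rw [h4, map_add]
    abel

theorem pow_all (ρ : G →* AddMonoid.End M) {p : ℕ} {U : Set (Subgroup G)} {J : Subgroup G}
    (hUi : ∀ O ∈ U, ∀ O' ∈ U, O ⊓ O' ∈ U) (hdiv : ∀ T : M, ∃ T', p • T' = T) (hfix : ∀ T : M, ∃ O ∈ U, ∀ s ∈ O, ρ s T = T)
    (h : ∀ c : G → M, IsC ρ J c → (∀ s ∈ J, p • c s = 0) → Cont U J c → ∃ T : M, p • T = 0 ∧ ∀ s ∈ J, c s = ρ s T - T)
    (k : ℕ) (c : G → M) (hc : IsC ρ J c) (hk : ∀ s ∈ J, p ^ k • c s = 0) (hco : Cont U J c) :
    ∃ T : M, p ^ k • T = 0 ∧ ∀ s ∈ J, c s = ρ s T - T := by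
  induction k generalizing c with
  | zero =>
    refine ⟨0, smul_zero _, fun s hs => ?_⟩
    have h1 := hk s hs
    rw [pow_zero, one_smul] at h1
    rw [h1, map_zero, sub_zero]
  | succ k ih =>
    obtain ⟨T, hT, h1⟩ := h (fun s => p ^ k • c s)
      (fun s hs t ht => by
        show p ^ k • c (s * t) = p ^ k • c s + ρ s (p ^ k • c t)
        rw [hc s hs t ht, smul_add, map_nsmul])
      (fun s hs => by
        show p • p ^ k • c s = 0
        rw [← mul_smul, ← pow_succ']
        exact hk s hs)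
      (by
        obtain ⟨O, hO, h2⟩ := hco
        exact ⟨O, hO, fun s hs hsO => by
          show p ^ k • c s = 0
          rw [h2 s hs hsO, smul_zero]⟩)
    obtain ⟨T', hT'⟩ := div_pow hdiv k T
    obtain ⟨T'', hT'', h3⟩ := ih (fun s => c s - (ρ s T' - T')) (u2_coc ρ hc T')
      (fun s hs => u2_kil ρ (h1 s hs) hT') (u2_cont ρ hUi hfix hco T')
    refine ⟨T' + T'', u2_fin hT hT' hT'', fun s hs => ?_⟩
    have h4 : c s - (ρ s T' - T') = ρ s T'' - T'' := h3 s hs
    rw [sub_eq_iff_eq_add] at h4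
    rw [h4, map_add]
    abel

end H13T
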