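import Mathlib
import Pool.Agent.Lib.SSG.Z.A5
import Pool.Agent.Lib.SSG.Z.B7
import Pool.Agent.Lib.SSG.Z.L3
import Pool.Agent.Lib.SSG.Z.L4

/-! Chunk K1 (S/M). KP p X: p kills the p-primary part of X. It passes from S' to S when there are morphisms back and forth.
kp_inj: f x is killed by a power of p, so p • f x = 0, f (p • x) = 0 and p • x is killed by a power of p. kp_hom: f = h.map; if h.map x = 0 then m • x = h'.map (h.map x) = 0 (Hom.map_back), x = 0 by pp_inj (Lib/SSG/Z/ZH.lean). kp_index: the restriction r = (res_hom S H).map and k of exists_cor (A5):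
k (r x) = 2 • x (see index_two in A6.lean), τ not in H as there. kp_quot (compare b6_card in B6.lean): z in Z₁ / B with p^k z = 0: z = class of c, p^k c in B, c in Z₂ (key), the class of c in Z₂ / B is killed by p^k, hence by p: p c in B. -/

namespace H13T

open SSG

/-- p kills the elements of order a power of p. -/
def KP (p : ℕ) (X : Type*) [AddCommGroup X] : Prop := ∀ x : X, (∃ k : ℕ, p ^ k • x = 0) → p • x = 0

theorem kp_inj {p : ℕ} {X Y : Type*} [AddCommGroup X] [AddCommGroup Y] (f : X →+ Y)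
    (hf : ∀ x : X, (∃ k : ℕ, p ^ k • x = 0) → f x = 0 → x = 0) (h : KP p Y) : KP p X := by
  rintro x ⟨k, hk⟩
  have h1 : p • f x = 0 := h (f x) ⟨k, by rw [← map_nsmul, hk, map_zero]⟩
  exact hf (p • x) ⟨k, by rw [smul_comm, hk, smul_zero]⟩ (by rw [map_nsmul, h1])

theorem kp_hom {G A G' A' : Type} [Group G] [AddCommGroup A] [Group G'] [AddCommGroup A'] {S : LS G A} {S' : LS G' A'} {e : G' →* G}
    {φ : A →+ A'} {p : ℕ} (hp : p.Prime) {m : ℕ} (hm : ¬ p ∣ m) (h : Hom S S' e φ) {e₁ : G →* G'} {φ₁ : A' →+ A}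
    (h' : Hom S' S e₁ φ₁) (he : ∀ g, e (e₁ g) = g) (hm1 : ∀ a, φ₁ (φ a) = m • a) (hK : KP p S'.Sha) : KP p S.Sha := by
  refine kp_inj h.map (fun x hx h0 => pp_inj hp hm hx ?_) hK
  rw [← h.map_back h' he hm1 x, h0, map_zero]

theorem kp_index {G A : Type} [Group G] [AddCommGroup A] {S : LS G A} (hS : S.Conj) (H : Subgroup G) (hH : ∃ u ∈ S.U, u ≤ H)
    (hi : H.index = 2) {p : ℕ} (hp : p.Prime) (hp2 : p ≠ 2) (hK : KP p (S.res H).Sha) : KP p S.Sha := by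
  have hN : H.Normal := Subgroup.normal_of_index_eq_two hi
  obtain ⟨τ, hτ⟩ : ∃ τ, τ ∉ H := by
    by_contra hc
    push Not at hc
    have h1 : H = ⊤ := (Subgroup.eq_top_iff' H).2 hc
    rw [h1, Subgroup.index_top] at hi
    omega
  obtain ⟨k, hk1, -⟩ := exists_cor hS H hH hi hτ
  refine kp_inj (res_hom S H).map (fun x hx h0 => pp_inj hp (m := 2) ?_ hx ?_) hK
  · intro h2
    exact hp2 ((Nat.prime_dvd_prime_iff_eq hp Nat.prime_two).1 h2)
  · rw [← hk1 x, h0, map_zero]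

theorem kp_quot {M : Type*} [AddCommGroup M] (Z₁ Z₂ B : AddSubgroup M) (p : ℕ)
    (key : ∀ c : M, (∃ k : ℕ, p ^ k • c ∈ B) → (c ∈ Z₁ ↔ c ∈ Z₂)) (h : KP p (Z₂ ⧸ B.addSubgroupOf Z₂)) :
    KP p (Z₁ ⧸ B.addSubgroupOf Z₁) := by
  have hz : ∀ (Z : AddSubgroup M) (c : Z) (n : ℕ),
      (n • QuotientAddGroup.mk' (B.addSubgroupOf Z) c = 0 ↔ n • c.1 ∈ B) := by
    intro Z c n
    rw [← map_nsmul]
    refine (QuotientAddGroup.eq_zero_iff (N := B.addSubgroupOf Z) (n • c)).trans ?_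
    exact AddSubgroup.mem_addSubgroupOf
  rintro z ⟨k, hk⟩
  obtain ⟨c, rfl⟩ := QuotientAddGroup.mk'_surjective _ z
  have h1 := (hz Z₁ c _).1 hk
  have h2 : c.1 ∈ Z₂ := (key c.1 ⟨k, h1⟩).1 c.2
  have h3 := h (QuotientAddGroup.mk' (B.addSubgroupOf Z₂) ⟨c.1, h2⟩) ⟨k, (hz Z₂ ⟨c.1, h2⟩ _).2 h1⟩
  exact (hz Z₁ c _).2 ((hz Z₂ ⟨c.1, h2⟩ _).1 h3)

end H13T
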