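import Mathlib
import Pool.Agent.Lib.H55P.SA1

/-! Chunk U1 (M). Pure algebra. X an abelian group, B ≤ Z (modulo B), η an operator, σ = η^[p].
PROOF. Work modulo B in the ring of endomorphisms preserving Z (as in op_zero, Lib/H55P/SA1.lean, whose proof shows how to handle it: the Subring S of the f with f Z ≤ Z). Write x ~ 0 for x in B (x in Z). Put y = η - 1, s1 = σ - 1 = η^p - 1.
(i) s1 is nilpotent on each z in Z modulo B: s1^p = σ^p - 1 + p r with r a polynomial in η (Commute.exists_add_pow_prime_eq, sign as in op_zero), so s1^p z ~ p (r z) (hη: σ^[p] = η^[p*p]), hence s1^(p k) z ~ p^k (r^k z) ~ 0 by hk.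
(ii) s1 = y^p + p y g with g a polynomial in η (the same lemma for (1 + y)^p).
(iii) Let s in Z with s1 (s1 s) ~ 0. h0 for s1 s: p s1 s ~ 0 and y s1 s ~ 0. So p s is killed by s1, h0 for p s gives y p s ~ 0. By (ii) s1 s ~ y^p s (the polynomials commute). y^(p+1) s ~ y s1 s ~ 0. t = y^(p-1) s: s1 t ~ y^(2p-1) s + g y^(p-1) (y p s) ~ 0 since
2p - 1 ≥ p + 1. h0 for t: y t = y^p s ~ 0, so s1 s ~ 0.
(iv) descending induction: if s1^(j+2) z ~ 0 then (iii) for s = s1^j z gives s1^(j+1) z ~ 0; so s1 z ~ 0. -/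

namespace H13T

theorem u1_ring {A : Type} [CommRing A] (p : ℕ) (hp : p.Prime) (k : ℕ) (J : Ideal A) (x : A) (hk : (p : A) ^ k ∈ J)
    (hx : x ^ (p * p) - 1 ∈ J) (h0 : ∀ g, (x ^ p - 1) * g ∈ J → (p : A) * g ∈ J ∧ (x - 1) * g ∈ J) : x ^ p - 1 ∈ J := by
  have hp2 := hp.two_le
  -- (i)
  have hnil : ∃ n, (x ^ p - 1) ^ n ∈ J := by
    obtain ⟨r, hr⟩ := Commute.exists_add_pow_prime_eq hp (Commute.all (x ^ p) (-1 : A))
    have hsign : ∃ e : A, (-1 : A) ^ p = -1 + (p : A) * e := by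
      rcases hp.eq_two_or_odd' with h2 | hodd
      · refine ⟨1, ?_⟩
        rw [h2]
        push_cast
        ring
      · exact ⟨0, by rw [hodd.neg_one_pow, mul_zero, add_zero]⟩
    obtain ⟨e, he⟩ := hsign
    obtain ⟨r', hr'⟩ : ∃ r' : A, (x ^ p - 1) ^ p = (x ^ (p * p) - 1) + (p : A) * r' := by
      refine ⟨e + x ^ p * -1 * r, ?_⟩
      rw [sub_eq_add_neg, hr, he, ← pow_mul]
      ring
    refine ⟨p * k, ?_⟩
    rw [pow_mul, hr']
    obtain ⟨q, hq⟩ := sub_dvd_pow_sub_pow ((x ^ (p * p) - 1) + (p : A) * r') ((p : A) * r') k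
    have h1 : ((x ^ (p * p) - 1) + (p : A) * r') ^ k =
        (x ^ (p * p) - 1) * q + (p : A) ^ k * r' ^ k := by
      have h2 : ((x ^ (p * p) - 1) + (p : A) * r') - (p : A) * r' = x ^ (p * p) - 1 := by ring
      rw [h2] at hq
      rw [← hq, mul_pow]
      ring
    rw [h1]
    exact J.add_mem (J.mul_mem_right _ hx) (J.mul_mem_right _ hk)
  -- (ii)
  obtain ⟨g, hg⟩ : ∃ g : A, x ^ p - 1 = (x - 1) ^ p + (p : A) * (x - 1) * g := by
    obtain ⟨r, hr⟩ := Commute.exists_add_pow_prime_eq hp (Commute.all (x - 1) (1 : A))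
    refine ⟨r, ?_⟩
    rw [sub_add_cancel, one_pow, mul_one] at hr
    rw [hr]
    ring
  -- (iii)
  have hstep : ∀ s : A, (x ^ p - 1) * ((x ^ p - 1) * s) ∈ J → (x ^ p - 1) * s ∈ J := by
    intro s hs
    obtain ⟨h1, h2⟩ := h0 _ hs
    have h3 : (x ^ p - 1) * ((p : A) * s) ∈ J := by
      have e1 : (x ^ p - 1) * ((p : A) * s) = (p : A) * ((x ^ p - 1) * s) := by ring
      rw [e1]
      exact h1
    have h4 := (h0 _ h3).2
    have h5 : (x - 1) ^ (p + 1) * s ∈ J := by
      have e1 : (x - 1) ^ (p + 1) * s =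
          (x - 1) * ((x ^ p - 1) * s) - (x - 1) * g * ((x - 1) * ((p : A) * s)) := by
        rw [hg]
        ring
      rw [e1]
      exact J.sub_mem h2 (J.mul_mem_left _ h4)
    have h6 : (x ^ p - 1) * ((x - 1) ^ (p - 1) * s) ∈ J := by
      have e2 : (x - 1) ^ p * (x - 1) ^ (p - 1) = (x - 1) ^ (p - 2) * (x - 1) ^ (p + 1) := by
        rw [← pow_add, ← pow_add]
        congr 1
        omega
      have e1 : (x ^ p - 1) * ((x - 1) ^ (p - 1) * s) =
          (x - 1) ^ (p - 2) * ((x - 1) ^ (p + 1) * s) + (g * (x - 1) ^ (p - 1)) * ((x - 1) * ((p : A) * s)) := by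
        rw [hg, add_mul, ← mul_assoc, e2]
        ring
      rw [e1]
      exact J.add_mem (J.mul_mem_left _ h5) (J.mul_mem_left _ h4)
    have h7 := (h0 _ h6).2
    have h8 : (x ^ p - 1) * s = (x - 1) * ((x - 1) ^ (p - 1) * s) + g * ((x - 1) * ((p : A) * s)) := by
      have e1 : (x - 1) * (x - 1) ^ (p - 1) = (x - 1) ^ p := by
        rw [← pow_succ']
        congr 1
        omega
      rw [hg, ← mul_assoc, e1]
      ring
    rw [h8]
    exact J.add_mem h7 (J.mul_mem_left _ h4)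
  -- (iv)
  obtain ⟨n, hn⟩ := hnil
  have hdesc : ∀ j : ℕ, (x ^ p - 1) ^ (j + 1) ∈ J → x ^ p - 1 ∈ J := by
    intro j
    induction j with
    | zero =>
      intro h
      rwa [zero_add, pow_one] at h
    | succ j ih =>
      intro h
      apply ih
      rw [pow_succ']
      apply hstep
      have e1 : (x ^ p - 1) * ((x ^ p - 1) * (x ^ p - 1) ^ j) = (x ^ p - 1) ^ (j + 1 + 1) := by ring
      rw [e1]
      exact h
  refine hdesc n ?_
  rw [pow_succ]
  exact J.mul_mem_right _ hn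

theorem ps_fix {X : Type} [AddCommGroup X] (p : ℕ) (hp : p.Prime) (k : ℕ) (Z B : AddSubgroup X) (η : X →+ X)
    (hηZ : ∀ z ∈ Z, η z ∈ Z) (hηB : ∀ b ∈ B, η b ∈ B) (hk : ∀ z ∈ Z, p ^ k • z ∈ B) (hη : ∀ z ∈ Z, η^[p * p] z - z ∈ B)
    (h0 : ∀ z ∈ Z, η^[p] z - z ∈ B → p • z ∈ B ∧ η z - z ∈ B) : ∀ z ∈ Z, η^[p] z - z ∈ B := by
  classical
  let S : Subring (AddMonoid.End X) :=
    { carrier := {f | (∀ z ∈ Z, f z ∈ Z) ∧ ∀ z ∈ B, f z ∈ B}
      mul_mem' := fun {f g} hf hg => ⟨fun z hz => hf.1 _ (hg.1 z hz), fun z hz => hf.2 _ (hg.2 z hz)⟩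
      one_mem' := ⟨fun z hz => hz, fun z hz => hz⟩
      add_mem' := fun {f g} hf hg => ⟨fun z hz => Z.add_mem (hf.1 z hz) (hg.1 z hz),
        fun z hz => B.add_mem (hf.2 z hz) (hg.2 z hz)⟩
      zero_mem' := ⟨fun z _ => Z.zero_mem, fun z _ => B.zero_mem⟩
      neg_mem' := fun {f} hf => ⟨fun z hz => Z.neg_mem (hf.1 z hz), fun z hz => B.neg_mem (hf.2 z hz)⟩ }
  let e : AddMonoid.End X := η
  have heS : e ∈ S := ⟨hηZ, hηB⟩
  let x : S := ⟨e, heS⟩
  have hMul : ∀ (f g : AddMonoid.End X) (z : X), (f * g) z = f (g z) := fun _ _ _ => rfl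
  have hAdd : ∀ (f g : AddMonoid.End X) (z : X), (f + g) z = f z + g z := fun _ _ _ => rfl
  have hSub : ∀ (f g : AddMonoid.End X) (z : X), (f - g) z = f z - g z := fun _ _ _ => rfl
  have hOne : ∀ z : X, (1 : AddMonoid.End X) z = z := fun _ => rfl
  obtain ⟨F, hF⟩ : ∃ F : Polynomial ℤ →ₐ[ℤ] S, F = Polynomial.aeval x := ⟨_, rfl⟩
  have hFX : F Polynomial.X = x := by
    rw [hF]
    exact Polynomial.aeval_X x
  intro z hz
  let J : Ideal (Polynomial ℤ) :=
    { carrier := {f | (F f : AddMonoid.End X) z ∈ B}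
      add_mem' := fun {f g} hf hg => by
        show (F (f + g) : AddMonoid.End X) z ∈ B
        rw [map_add]
        exact B.add_mem hf hg
      zero_mem' := by
        show (F 0 : AddMonoid.End X) z ∈ B
        rw [map_zero]
        exact B.zero_mem
      smul_mem' := fun c f hf => by
        show (F (c * f) : AddMonoid.End X) z ∈ B
        rw [map_mul]
        exact (F c).2.2 _ hf }
  have hJ : ∀ f, f ∈ J ↔ (F f : AddMonoid.End X) z ∈ B := fun f => Iff.rfl
  have hpow : ∀ (m : ℕ) (w : X), (((x ^ m : S) : AddMonoid.End X)) w = η^[m] w := by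
    intro m w
    have h1 : ((x ^ m : S) : AddMonoid.End X) = e ^ m := map_pow S.subtype x m
    rw [h1, AddMonoid.End.coe_pow]
    rfl
  have hnat : ∀ (m : ℕ) (w : X), (((m : S) : AddMonoid.End X)) w = m • w := by
    intro m w
    have h1 : (((m : ℕ) : S) : AddMonoid.End X) = (m : AddMonoid.End X) := rfl
    rw [h1, AddMonoid.End.natCast_apply]
  have h1 : (Polynomial.X ^ p - 1 : Polynomial ℤ) ∈ J := by
    refine u1_ring p hp k J Polynomial.X ?_ ?_ ?_
    · rw [hJ, ← Nat.cast_pow, map_natCast, hnat]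
      exact hk z hz
    · rw [hJ, map_sub, map_pow, map_one, hFX]
      show ((x ^ (p * p) : S) : AddMonoid.End X) z - z ∈ B
      rw [hpow]
      exact hη z hz
    · intro g hg
      rw [hJ, map_mul, map_sub, map_pow, map_one, hFX] at hg
      obtain ⟨w, hw⟩ : ∃ w, w = (F g : AddMonoid.End X) z := ⟨_, rfl⟩
      have hwZ : w ∈ Z := by
        rw [hw]
        exact (F g).2.1 z hz
      have hg' : ((x ^ p : S) : AddMonoid.End X) w - w ∈ B := by
        rw [hw]
        exact hg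
      rw [hpow] at hg'
      obtain ⟨a1, a2⟩ := h0 w hwZ hg'
      constructor
      · rw [hJ, map_mul, map_natCast]
        show ((p : S) : AddMonoid.End X) ((F g : AddMonoid.End X) z) ∈ B
        rw [← hw, hnat]
        exact a1
      · rw [hJ, map_mul, map_sub, map_one, hFX]
        show η ((F g : AddMonoid.End X) z) - (F g : AddMonoid.End X) z ∈ B
        rw [← hw]
        exact a2
  rw [hJ, map_sub, map_pow, map_one, hFX] at h1
  have h2 : ((x ^ p : S) : AddMonoid.End X) z - z ∈ B := h1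
  rwa [hpow] at h2

end H13T
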