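import Mathlib
import Pool.Agent.Lib.H13T.U2

/-! Chunk U3 (S/M). A class over N invariant under σ = η^p extends to H.
fix_pow: no point killed by p^k is fixed by N (induction on k: p^k • T is killed by p and fixed by N, so 0).
ts_ext: hinv for ext_coc (Lib/H55P/SA2.lean, with q = p^k in place of p): as in the proof of abs_step (Lib/H55P/SA3.lean, end): sa3_I for σ (hypothesis hb), for n in N (sa3_self), for powers and products (sa3_I_mul), hgen.
Norms: sa3_norm, sa3_norm' from hcomm restricted to H. -/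

namespace H13T

open H55P

variable {G M Vs : Type} [Group G] [AddCommGroup M] {ρ : G →* AddMonoid.End M} {p : ℕ} {U : Set (Subgroup G)} {I D : Vs → Subgroup G}
  {N H H₀ : Subgroup G} {η : G} {R : Vs → Prop}

theorem fix_pow (S : TS ρ p U I D N H H₀ η R) (k : ℕ) (T : M) (hT : p ^ k • T = 0) (hf : ∀ s ∈ N, ρ s T = T) : T = 0 := by
  induction k with
  | zero => rwa [pow_zero, one_smul] at hT
  | succ k ih =>
    refine ih (S.h0 _ ?_ ?_)
    · rw [← mul_smul, ← pow_succ']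
      exact hT
    · intro s hs
      rw [map_nsmul, hf s hs]

theorem ts_ext (S : TS ρ p U I D N H H₀ η R) (k : ℕ) (c : G → M) (hc : IsC ρ N c) (hk : ∀ s ∈ N, p ^ k • c s = 0)
    (hb : ∃ T : M, p ^ k • T = 0 ∧ ∀ s ∈ N, ρ (η ^ p) (c ((η ^ p)⁻¹ * s * η ^ p)) - c s = ρ s T - T) :
    ∃ d : G → M, IsC ρ H d ∧ (∀ s ∈ H, p ^ k • d s = 0) ∧ ∀ s ∈ N, d s = c s := by
  have hcH : ∀ a ∈ H, ∀ b ∈ H, a * b * a⁻¹ * b⁻¹ ∈ N := fun a ha b hb => S.hcomm a (S.hHH ha) b (S.hHH hb)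
  have hn := sa3_norm S.hNH hcH
  have hn' := sa3_norm' S.hNH hcH
  have hI : sa3_I ρ (p ^ k) N c (η ^ p) := hb
  have hI1 : ∀ n ∈ N, sa3_I ρ (p ^ k) N c n := fun n hn => ⟨c n, hk n hn, fun s hs => sa3_self hc n hn s hs⟩
  have hI2 : ∀ i : ℕ, sa3_I ρ (p ^ k) N c ((η ^ p) ^ i) := by
    intro i
    induction i with
    | zero =>
      rw [pow_zero]
      exact hI1 1 N.one_mem
    | succ i ih =>
      rw [pow_succ' (η ^ p) i]
      exact sa3_I_mul (hn' _ S.hηp) hI ih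
  have hinv : ∀ g ∈ H, sa3_I ρ (p ^ k) N c g := by
    intro g hg
    obtain ⟨i, n, hnN, rfl⟩ := S.hgen g hg
    exact sa3_I_mul (hn' _ (H.pow_mem S.hηp i)) (hI2 i) (hI1 n hnN)
  exact ext_coc ρ (p ^ k) N H S.hNH hn (fun T hT hf => fix_pow S k T hT hf) c hc hk hinv

end H13T
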