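import Mathlib
import Pool.Agent.Lib.H13T.U3

/-! Chunk U4 (M). The extension can be chosen with values killed by p, and it is a relaxed class.
PROOF. d from ts_ext. Continuity: N ⊓ O (S.hN, S.hUi), d s = c s there. Let v be a place.
(a) ¬ R v: Tr ρ H (I v) d. S.hloc v: first alternative: s in H, I v is in N, use hl. second: sa3_loc (Lib/H55P/SA3.lean) with p^k in place of p (its two hypotheses for p^k: the first is S.hloc's with this k; the second (T killed by p^k and fixed by H ⊓ D v is 0) by induction on k from p).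
third: pow_all (U2) with J = H ⊓ I v gives T.
(b) R v: for s in H ⊓ I v: s^p in N (s = (η^p)^i n modulo commutators: H/N is abelian of exponent p: (η^p)^p = η^(p*p) in N; prove pow_mem: ∀ s ∈ H, s^p ∈ N by writing s = (η^p)^i n and expanding modulo N: the quotient is commutative (hcomm); or: QuotientGroup). ρ s fixes d s (S.hR v .1 with P = d s: p^k • (ρ s P - P) = 0), so
d (s^i) = i • d s (induction), d (s^p) = p • d s; d (s^p) = c (s^p) = ρ P - P for P from hl v, killed by p^k, so ρ P = P by S.hR, so it is 0. Hence p • d s = 0 for s in H ⊓ I v.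
So fun s => p • d s satisfies all hypotheses of SelA ρ (p^k) (pow_sel) over H: p • d s = ρ s T - T on H, p^k • T = 0. T = p • T' (S.hdiv). e = fun s => d s - (ρ s T' - T'): cocycle on H, killed by p, continuous (S.hfix), trivial on inertia at ¬ R v (P - T'); for R v, s in N, I v:
e s = c s - (ρ s T' - T') = ρ s (P - T') - (P - T') and p • e s = 0, so it is 0 by S.hR (k = 1). -/

namespace H13T

open H55P

variable {G M Vs : Type} [Group G] [AddCommGroup M] {ρ : G →* AddMonoid.End M} {p : ℕ} {U : Set (Subgroup G)} {I D : Vs → Subgroup G}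
  {N H H₀ : Subgroup G} {η : G} {R : Vs → Prop}

theorem u4_fix (ρ : G →* AddMonoid.End M) (p : ℕ) (Q : G → Prop)
    (h : ∀ T : M, p • T = 0 → (∀ s, Q s → ρ s T = T) → T = 0) (k : ℕ) :
    ∀ T : M, p ^ k • T = 0 → (∀ s, Q s → ρ s T = T) → T = 0 := by
  induction k with
  | zero =>
    intro T hT _
    rwa [pow_zero, one_smul] at hT
  | succ k ih =>
    intro T hT hf
    refine ih T ?_ hf
    refine h _ ?_ fun s hs => ?_
    · rw [smul_smul, ← pow_succ']
      exact hT
    · rw [map_nsmul, hf s hs]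

theorem u4_pow {N : Subgroup G} {a n : G} (ha : ∀ x ∈ N, a⁻¹ * x * a ∈ N) (hn : n ∈ N) (m : ℕ) :
    (a ^ m)⁻¹ * (a * n) ^ m ∈ N := by
  induction m with
  | zero =>
    rw [pow_zero, pow_zero, inv_one, one_mul]
    exact N.one_mem
  | succ m ih =>
    have e : (a ^ (m + 1))⁻¹ * (a * n) ^ (m + 1) = (a⁻¹ * ((a ^ m)⁻¹ * (a * n) ^ m) * a) * n := by
      rw [pow_succ a m, pow_succ (a * n) m]
      group
    rw [e]
    exact N.mul_mem (ha _ ih) hn

theorem pow_mem (S : TS ρ p U I D N H H₀ η R) (s : G) (hs : s ∈ H) : s ^ p ∈ N := by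
  obtain ⟨i, n, hn, rfl⟩ := S.hgen s hs
  have ha : (η ^ p) ^ i ∈ H₀ := H₀.pow_mem (H₀.pow_mem S.hη p) i
  have h1 := u4_pow (N := N) (a := (η ^ p) ^ i) (n := n)
    (fun x hx => sa3_norm' (S.hNH.trans S.hHH) S.hcomm _ ha x hx) hn p
  have h2 : ((η ^ p) ^ i) ^ p ∈ N := by
    have e : ((η ^ p) ^ i) ^ p = (η ^ (p * p)) ^ i := by
      rw [← pow_mul, ← pow_mul, ← pow_mul]
      congr 1
      ring
    rw [e]
    exact N.pow_mem S.hηpp i
  have h3 := N.mul_mem h2 h1
  rwa [mul_inv_cancel_left] at h3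

theorem ts_rel (S : TS ρ p U I D N H H₀ η R) (k : ℕ) (c : G → M) (hc : IsC ρ N c) (hk : ∀ s ∈ N, p ^ k • c s = 0)
    (hco : Cont U N c) (hl : ∀ v, Tr ρ N (I v) c)
    (hb : ∃ T : M, p ^ k • T = 0 ∧ ∀ s ∈ N, ρ (η ^ p) (c ((η ^ p)⁻¹ * s * η ^ p)) - c s = ρ s T - T) :
    ∃ (e : G → M) (T' : M), RC ρ p U I N H R e ∧ p ^ (k + 1) • T' = 0 ∧ ∀ s ∈ N, c s = e s + (ρ s T' - T') := by
  obtain ⟨d, hd1, hd2, hd3⟩ := ts_ext S k c hc hk hb
  obtain ⟨O, hO, hO1⟩ := hco
  have hNO : N ⊓ O ∈ U := S.hUi N S.hN O hO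
  have hdO : ∀ s ∈ H, s ∈ N ⊓ O → d s = 0 := fun s _ h => by rw [hd3 s h.1, hO1 s h.1 h.2]
  have hcommH : ∀ a ∈ H, ∀ b ∈ H, a * b * a⁻¹ * b⁻¹ ∈ N := fun a ha b hb =>
    S.hcomm a (S.hHH ha) b (S.hHH hb)
  -- the places which are not relaxed
  have ha : ∀ v, ¬ R v → Tr ρ H (I v) d := by
    intro v hv
    rcases S.hloc v hv with h | ⟨h1, h2⟩ | h3
    · obtain ⟨P, hP⟩ := hl v
      exact ⟨P, fun s hs hI => by rw [hd3 s (h s hs hI), hP s (h s hs hI) hI]⟩
    · refine sa3_loc (p ^ k) I D N H S.hNH hcommH S.hDI v (Or.inr ⟨fun s hs hI P hP => h1 s hs hI k P hP, ?_⟩)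
        c d (hl v) hk hd1 hd2 hd3
      intro T hT hf
      exact u4_fix ρ p (fun s => s ∈ H ∧ s ∈ D v) (fun T hT hf => h2 T hT fun s hs hD => hf s ⟨hs, hD⟩) k T hT
        fun s hs => hf s hs.1 hs.2
    · obtain ⟨T, _, hT⟩ := pow_all ρ S.hUi S.hdiv S.hfix h3 k d (fun s hs t ht => hd1 s hs.1 t ht.1)
        (fun s hs => hd2 s hs.1) ⟨N ⊓ O, hNO, fun s hs h => hdO s hs.1 h⟩
      exact ⟨T, fun s hs hI => hT s ⟨hs, hI⟩⟩
  -- the relaxed places
  have hbR : ∀ v, R v → ∀ s ∈ H, s ∈ I v → p • d s = 0 := by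
    intro v hv s hs hI
    obtain ⟨hRv, -⟩ := S.hR v hv
    have triv : ∀ t ∈ H, t ∈ I v → ∀ x : M, p ^ k • x = 0 → ρ t x = x := by
      intro t ht hIt x hx
      refine hRv t ht hIt k x ?_
      rw [smul_sub, ← map_nsmul, hx, map_zero, sub_zero]
    have h1 : d 1 = 0 := by
      have := hd1 1 H.one_mem 1 H.one_mem
      rw [mul_one, sa3_one] at this
      exact left_eq_add.1 this
    have hdp : ∀ i : ℕ, d (s ^ i) = i • d s := by
      intro i
      induction i with
      | zero => rw [pow_zero, h1, zero_smul]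
      | succ i ih =>
        rw [pow_succ, hd1 _ (H.pow_mem hs i) s hs, ih, triv _ (H.pow_mem hs i) ((I v).pow_mem hI i) _ (hd2 s hs),
          succ_nsmul]
    have hspN := pow_mem S s hs
    have hspI : s ^ p ∈ I v := (I v).pow_mem hI p
    obtain ⟨P, hP⟩ := hl v
    have h2 := hP _ hspN hspI
    have h3 : ρ (s ^ p) P = P := hRv _ (H.pow_mem hs p) hspI k P (by rw [← h2]; exact hk _ hspN)
    rw [← hdp p, hd3 _ hspN, h2, h3, sub_self]
  -- the class `p d`
  obtain ⟨T, hT, hTd⟩ := pow_sel ρ S.hUi S.hdiv S.hfix S.sel k (fun s => p • d s)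
    (fun s hs t ht => by
      show p • d (s * t) = p • d s + ρ s (p • d t)
      rw [hd1 s hs t ht, smul_add, map_nsmul])
    ⟨N ⊓ O, hNO, fun s hs h => by
      show p • d s = 0
      rw [hdO s hs h, smul_zero]⟩
    (fun s hs => by
      show p ^ k • p • d s = 0
      rw [smul_comm, hd2 s hs, smul_zero])
    (fun v => by
      by_cases hv : R v
      · refine ⟨0, fun s hs hI => ?_⟩
        show p • d s = _
        rw [hbR v hv s hs hI, map_zero, sub_zero]
      · obtain ⟨P, hP⟩ := ha v hv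
        refine ⟨p • P, fun s hs hI => ?_⟩
        show p • d s = _
        rw [hP s hs hI, smul_sub, map_nsmul])
  have hTd' : ∀ s ∈ H, p • d s = ρ s T - T := hTd
  obtain ⟨T', hT'⟩ := S.hdiv T
  obtain ⟨O', hO', hfO'⟩ := S.hfix T'
  have hkil : ∀ s ∈ H, p • (d s - (ρ s T' - T')) = 0 := by
    intro s hs
    rw [smul_sub, smul_sub, ← map_nsmul, hT', hTd' s hs, sub_self]
  refine ⟨fun s => d s - (ρ s T' - T'), T', ?_, ?_, fun s hs => ?_⟩
  · refine ⟨fun s hs t ht => ?_, ⟨(N ⊓ O) ⊓ O', S.hUi _ hNO _ hO', fun s hs h => ?_⟩, hkil, fun v hv => ?_,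
      fun v hv s hs hI => ?_⟩
    · show d (s * t) - (ρ (s * t) T' - T') = d s - (ρ s T' - T') + ρ s (d t - (ρ t T' - T'))
      rw [hd1 s hs t ht, sa3_mul, map_sub, map_sub]
      abel
    · show d s - (ρ s T' - T') = 0
      rw [hdO s hs h.1, hfO' s h.2, sub_self, sub_zero]
    · obtain ⟨P, hP⟩ := ha v hv
      refine ⟨P - T', fun s hs hI => ?_⟩
      show d s - (ρ s T' - T') = _
      rw [hP s hs hI, map_sub]
      abel
    · show d s - (ρ s T' - T') = 0
      obtain ⟨P, hP⟩ := hl v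
      have hsH := S.hNH hs
      have h1 : d s - (ρ s T' - T') = ρ s (P - T') - (P - T') := by
        rw [hd3 s hs, hP s hs hI, map_sub]
        abel
      have h2 : ρ s (P - T') = P - T' := by
        refine (S.hR v hv).1 s hsH hI 1 _ ?_
        rw [pow_one, ← h1]
        exact hkil s hsH
      rw [h1, h2, sub_self]
  · rw [pow_succ, mul_smul, hT', hT]
  · show c s = d s - (ρ s T' - T') + (ρ s T' - T')
    rw [sub_add_cancel, hd3 s hs]

end H13T
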