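import Mathlib
import Pool.Agent.Lib.H13T.D

/-! Chunk U5 (M). η acts trivially on the relaxed classes.
PROOF. f s = ρ η (e (η⁻¹ s η)) - e s. It is a cocycle on H (H is normalized by η: hcomm, hη, hNH, hHH: η⁻¹ s η = (η⁻¹ s η s⁻¹) s), killed by p on H, continuous (hUc with g = η⁻¹; hUi), see sa3_FZ (Lib/H55P/SA3.lean) for each item.
¬ R v: v' from hconj with g = η: s in I v gives η⁻¹ s η in I v' (η (η⁻¹ s η) η⁻¹ = s), ¬ R v', P' for e at v': ρ η (e ..) = ρ s (ρ η P') - ρ η P' (sa3_bd), minus P for e at v.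
R v: f = 0 on H ⊓ I v. φ from hR: η = φ h with h = φ⁻¹ η in H. s' = φ⁻¹ s φ in H ⊓ I v (hDI for φ⁻¹ in D v; H normal in H₀). η⁻¹ s η = h⁻¹ s' h. sa3_self (for H, n = h): ρ h (e (h⁻¹ s' h)) = e s' + (ρ s' (e h) - e h), and ρ s' (e h) = e h (hR with k = 1: p • (ρ s' P - P) = 0 for P = e h).
So ρ η (e (η⁻¹ s η)) = ρ φ (e s') = e s' (φ trivial on the p-torsion). s' = u s with u = s' s⁻¹ = φ⁻¹ s φ s⁻¹ in N (hcomm with a = φ⁻¹, b = s) and in I v: e (u s) = e u + ρ u (e s) = 0 + e s (RC.rel; ρ u fixes e s by hR).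
So f satisfies the hypotheses of SelA: f = ρ s T - T on H with p • T = 0. -/

namespace H13T

open H55P

variable {G M Vs : Type} [Group G] [AddCommGroup M] {ρ : G →* AddMonoid.End M} {p : ℕ} {U : Set (Subgroup G)} {I D : Vs → Subgroup G}
  {N H H₀ : Subgroup G} {η : G} {R : Vs → Prop}

theorem ts_eta (S : TS ρ p U I D N H H₀ η R) (e : G → M) (he : RC ρ p U I N H R e) :
    ∃ T : M, p • T = 0 ∧ ∀ s ∈ H, ρ η (e (η⁻¹ * s * η)) - e s = ρ s T - T := by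
  have hnH : ∀ g ∈ H₀, ∀ s ∈ H, g⁻¹ * s * g ∈ H := fun g hg s hs =>
    sa3_norm' S.hHH (fun a ha b hb => S.hNH (S.hcomm a ha b hb)) g hg s hs
  have hn := hnH η S.hη
  refine S.sel (fun s => ρ η (e (η⁻¹ * s * η)) - e s) (fun s hs t ht => ?_) ?_ (fun s hs => ?_) (fun v => ?_)
  · show ρ η (e (η⁻¹ * (s * t) * η)) - e (s * t) =
      ρ η (e (η⁻¹ * s * η)) - e s + ρ s (ρ η (e (η⁻¹ * t * η)) - e t)
    have e1 : η⁻¹ * (s * t) * η = (η⁻¹ * s * η) * (η⁻¹ * t * η) := by group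
    have e2 : ρ η (ρ (η⁻¹ * s * η) (e (η⁻¹ * t * η))) = ρ s (ρ η (e (η⁻¹ * t * η))) := by
      rw [← sa3_mul, ← sa3_mul]
      congr 2
      group
    rw [e1, he.coc _ (hn s hs) _ (hn t ht), map_add, e2, he.coc s hs t ht, map_sub]
    abel
  · obtain ⟨O, hO, h⟩ := he.cont
    obtain ⟨O', hO', h'⟩ := S.hUc O hO η⁻¹
    refine ⟨O ⊓ O', S.hUi O hO O' hO', fun s hs hsO => ?_⟩
    have h1 := h' s hsO.2
    rw [inv_inv] at h1
    show ρ η (e (η⁻¹ * s * η)) - e s = 0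
    rw [h _ (hn s hs) h1, h s hs hsO.1, map_zero, sub_zero]
  · show p • (ρ η (e (η⁻¹ * s * η)) - e s) = 0
    rw [smul_sub, sa3_nsmul ρ p η _ (he.kil _ (hn s hs)), he.kil s hs, sub_zero]
  · by_cases hv : R v
    · obtain ⟨hRv, φ, hφD, hφH, hφη, hφT⟩ := S.hR v hv
      refine ⟨0, fun s hs hI => ?_⟩
      show ρ η (e (η⁻¹ * s * η)) - e s = ρ s 0 - 0
      rw [map_zero, sub_zero, sub_eq_zero]
      have triv : ∀ t ∈ H, t ∈ I v → ∀ x : M, p • x = 0 → ρ t x = x := by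
        intro t ht hIt x hx
        refine hRv t ht hIt 1 x ?_
        rw [pow_one, smul_sub, ← map_nsmul, hx, map_zero, sub_zero]
      have hs' : φ⁻¹ * s * φ ∈ H := hnH φ hφH s hs
      have hI' : φ⁻¹ * s * φ ∈ I v := by
        have := S.hDI v φ⁻¹ ((D v).inv_mem hφD) s hI
        rwa [inv_inv] at this
      have e1 : η⁻¹ * s * η = (φ⁻¹ * η)⁻¹ * (φ⁻¹ * s * φ) * (φ⁻¹ * η) := by group
      have h1 := sa3_self he.coc (φ⁻¹ * η) hφη (φ⁻¹ * s * φ) hs'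
      rw [triv _ hs' hI' _ (he.kil _ hφη), sub_self, sub_eq_zero, ← e1] at h1
      have h2 : ρ η (e (η⁻¹ * s * η)) = ρ φ (ρ (φ⁻¹ * η) (e (η⁻¹ * s * η))) := by
        rw [← sa3_mul, mul_inv_cancel_left]
      rw [h2, h1, hφT _ (he.kil _ hs')]
      have huN : φ⁻¹ * s * φ * s⁻¹ ∈ N := by
        have := S.hcomm φ⁻¹ (H₀.inv_mem hφH) s (S.hHH hs)
        rwa [inv_inv] at this
      have huI : φ⁻¹ * s * φ * s⁻¹ ∈ I v := (I v).mul_mem hI' ((I v).inv_mem hI)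
      have h3 := he.coc _ (S.hNH huN) s hs
      rw [inv_mul_cancel_right, he.rel v hv _ huN huI, zero_add, triv _ (S.hNH huN) huI _ (he.kil s hs)] at h3
      exact h3
    · obtain ⟨v', hv1, hv2⟩ := S.hconj η S.hη v
      obtain ⟨P', hP'⟩ := he.loc v' fun h => hv (hv2.1 h)
      obtain ⟨P, hP⟩ := he.loc v hv
      refine ⟨ρ η P' - P, fun s hs hI => ?_⟩
      show ρ η (e (η⁻¹ * s * η)) - e s = _
      have h1 : η⁻¹ * s * η ∈ I v' := by
        rw [hv1]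
        have e1 : η * (η⁻¹ * s * η) * η⁻¹ = s := by group
        rw [e1]
        exact hI
      rw [hP' _ (hn s hs) h1, sa3_bd, hP s hs hI, map_sub]
      abel

end H13T
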