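import Mathlib
import Pool.Agent.Lib.H13T.U1
import Pool.Agent.Lib.H13T.U4
import Pool.Agent.Lib.H13T.U5

/-! Chunk U6 (M). THE UPPER BOUND: every class over N (continuous cocycle killed by p^k, trivial on inertia everywhere) comes from a relaxed class over H.
PROOF. ps_fix (U1) with X = G → M, Z = sa3_Z ρ (p^k) U I N S.hN S.hUi, B = sa3_B ρ (p^k) N, η = sa3_F ρ η (Lib/H55P/SA3.lean; model: the proof of abs_step there). hηZ: sa3_FZ with H₀ in place of H (hconj: first component). hηB: as in abs_step (sa3_bd). hk: p^k • z = 0 on N, T = 0.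
hη: sa3_iter and sa3_self for n = η^(p*p) in N, T = z (η^(p*p)). h0: z in Z with η^[p] z - z in B: sa3_iter turns it into hb of ts_rel (U4): e, T' with z = e + ∂T' on N. p^(k+1) • T' = 0. p • z = ∂(p • T') on N and p^k • (p • T') = 0, so p • z is in B.
η z - z = (η e - e) + ∂(ρ η T' - T') = ∂Y on N, Y = T'' + ρ η T' - T' (ts_eta, N ≤ H; sa3_bd); ∂Y is killed by p^k on N (z and η z are), so p^k • Y is fixed by N; it is killed by p^(k+1), so p^k • Y = 0 by fix_pow (U3).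
Then all z in Z satisfy η^[p] z - z in B and the conclusion is ts_rel again. -/

namespace H13T

open H55P

variable {G M Vs : Type} [Group G] [AddCommGroup M] {ρ : G →* AddMonoid.End M} {p : ℕ} {U : Set (Subgroup G)} {I D : Vs → Subgroup G}
  {N H H₀ : Subgroup G} {η : G} {R : Vs → Prop}

theorem ts_up (S : TS ρ p U I D N H H₀ η R) (k : ℕ) (c : G → M) (hc : IsC ρ N c) (hk : ∀ s ∈ N, p ^ k • c s = 0)
    (hco : Cont U N c) (hl : ∀ v, Tr ρ N (I v) c) :
    ∃ (e : G → M) (T' : M), RC ρ p U I N H R e ∧ p ^ (k + 1) • T' = 0 ∧ ∀ s ∈ N, c s = e s + (ρ s T' - T') := by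
  have hNH₀ : N ≤ H₀ := le_trans S.hNH S.hHH
  have hn' := sa3_norm' hNH₀ S.hcomm
  have key : (sa3_F ρ η)^[p] c - c ∈ sa3_B ρ (p ^ k) N := by
    refine ps_fix p S.hp k (sa3_Z ρ (p ^ k) U I N S.hN S.hUi) (sa3_B ρ (p ^ k) N) (sa3_F ρ η) ?_ ?_ ?_ ?_ ?_ c ⟨hc, hco, hk, hl⟩
    · intro z hz
      exact sa3_FZ (p ^ k) U I N H₀ S.hUc hNH₀ S.hcomm η S.hη (fun g hg v => by
        obtain ⟨v', h1, -⟩ := S.hconj g hg v
        exact ⟨v', h1⟩) z hz
    · rintro b ⟨T, hT, hb⟩
      refine ⟨ρ η T, sa3_nsmul ρ (p ^ k) η T hT, fun s hs => ?_⟩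
      rw [sa3_F_apply, hb _ (hn' η S.hη s hs), sa3_bd]
    · rintro z ⟨-, -, hz, -⟩
      exact ⟨0, smul_zero _, fun s hs => by rw [Pi.smul_apply, hz s hs, map_zero, sub_zero]⟩
    · rintro z ⟨z1, -, z3, -⟩
      refine ⟨z (η ^ (p * p)), z3 _ S.hηpp, fun s hs => ?_⟩
      rw [Pi.sub_apply, sa3_iter]
      exact sa3_self z1 _ S.hηpp s hs
    · rintro z ⟨z1, z2, z3, z4⟩ ⟨T, hT, hb⟩
      obtain ⟨e, T', he, hT', hz⟩ := ts_rel S k z z1 z3 z2 z4 ⟨T, hT, fun s hs => by
        have h1 := hb s hs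
        rwa [Pi.sub_apply, sa3_iter] at h1⟩
      refine ⟨⟨p • T', ?_, fun s hs => ?_⟩, ?_⟩
      · rw [← mul_smul, ← pow_succ]
        exact hT'
      · rw [Pi.smul_apply, hz s hs, smul_add, he.kil s (S.hNH hs), zero_add, smul_sub, map_nsmul]
      · obtain ⟨T₂, hT₂, h2⟩ := ts_eta S e he
        have hY : ∀ s ∈ N, (sa3_F ρ η z - z) s = ρ s (T₂ + ρ η T' - T') - (T₂ + ρ η T' - T') := by
          intro s hs
          have h3 := h2 s (S.hNH hs)
          have h4 : ρ η (e (η⁻¹ * s * η)) = e s + (ρ s T₂ - T₂) := by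
            rw [← h3]
            abel
          rw [Pi.sub_apply, sa3_F_apply, hz _ (hn' η S.hη s hs), hz s hs, map_add, sa3_bd, h4, map_sub, map_add]
          abel
        refine ⟨T₂ + ρ η T' - T', ?_, hY⟩
        refine S.h0 _ ?_ ?_
        · have h5 : p • (p ^ k • (T₂ + ρ η T' - T')) = p ^ k • (p • T₂) + (ρ η (p ^ (k + 1) • T') - p ^ (k + 1) • T') := by
            rw [← mul_smul, ← pow_succ', smul_sub, smul_add, map_nsmul]
            have h6 : p ^ (k + 1) • T₂ = p ^ k • (p • T₂) := by rw [← mul_smul, ← pow_succ]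
            rw [h6]
            abel
          rw [h5, hT₂, hT', smul_zero, map_zero, sub_zero, add_zero]
        · intro s hs
          have h7 := hY s hs
          have h8 : p ^ k • (sa3_F ρ η z - z) s = 0 := by
            rw [Pi.sub_apply, smul_sub, z3 s hs, sa3_F_apply, sa3_nsmul ρ (p ^ k) η _ (z3 _ (hn' η S.hη s hs)), sub_zero]
          rw [h7, smul_sub, ← map_nsmul, sub_eq_zero] at h8
          exact h8
  obtain ⟨T, hT, hb⟩ := key
  exact ts_rel S k c hc hk hco hl ⟨T, hT, fun s hs => by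
    have h1 := hb s hs
    rwa [Pi.sub_apply, sa3_iter] at h1⟩

end H13T
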