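import Mathlib
import Pool.Agent.Lib.H13T.U6

/-! Chunk U7 (S). The points fixed by N are divisible by p among themselves.
PROOF. P = p^2 • Q₀ (div_pow, U2, k = 2). c s = ρ s Q₀ - Q₀ is a cocycle on N, p^2 • c s = ρ s P - P = 0 on N, continuous (S.hfix), local conditions with Q₀. ts_up (k = 2): c = e + ∂T' on N, p^3 • T' = 0. p • c = ∂(p T') on N (e killed by p on H ≥ N), so
Q₁ = p • Q₀ - p • T' is fixed by N. p • Q₁ = P - p^2 • T'. So p^2 • T' = P - p • Q₁ is fixed by N and killed by p: 0 by S.h0. Q = Q₁. -/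

namespace H13T

open H55P

variable {G M Vs : Type} [Group G] [AddCommGroup M] {ρ : G →* AddMonoid.End M} {p : ℕ} {U : Set (Subgroup G)} {I D : Vs → Subgroup G}
  {N H H₀ : Subgroup G} {η : G} {R : Vs → Prop}

theorem pts_div (S : TS ρ p U I D N H H₀ η R) (P : M) (hP : ∀ s ∈ N, ρ s P = P) : ∃ Q : M, (∀ s ∈ N, ρ s Q = Q) ∧ p • Q = P := by
  obtain ⟨Q₀, hQ₀⟩ := div_pow S.hdiv 2 P
  obtain ⟨e, T', hRC, hT', hc⟩ := ts_up S 2 (fun s => ρ s Q₀ - Q₀)
    (by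
      intro s hs t ht
      show ρ (s * t) Q₀ - Q₀ = (ρ s Q₀ - Q₀) + ρ s (ρ t Q₀ - Q₀)
      have h1 : ρ (s * t) Q₀ = ρ s (ρ t Q₀) := by
        rw [map_mul]
        rfl
      rw [h1, map_sub]
      abel)
    (by
      intro s hs
      show p ^ 2 • (ρ s Q₀ - Q₀) = 0
      rw [smul_sub, ← map_nsmul, hQ₀, hP s hs, sub_self])
    (by
      obtain ⟨O, hO, h1⟩ := S.hfix Q₀
      exact ⟨O, hO, fun s _ hsO => by
        show ρ s Q₀ - Q₀ = 0
        rw [h1 s hsO, sub_self]⟩)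
    (fun v => ⟨Q₀, fun s _ _ => rfl⟩)
  have hQ : ∀ s ∈ N, ρ s (p • Q₀ - p • T') = p • Q₀ - p • T' := by
    intro s hs
    have h1 : p • e s = 0 := hRC.kil s (S.hNH hs)
    have h2 : ρ s Q₀ - Q₀ = e s + (ρ s T' - T') := hc s hs
    have h3 : ρ s (p • Q₀ - p • T') - (p • Q₀ - p • T') = p • (ρ s Q₀ - Q₀) - p • (ρ s T' - T') := by
      rw [map_sub, map_nsmul, map_nsmul, smul_sub, smul_sub]
      abel
    rw [h2, smul_add, h1, zero_add, sub_self] at h3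
    exact sub_eq_zero.1 h3
  refine ⟨p • Q₀ - p • T', hQ, ?_⟩
  have h4 : p • (p • Q₀ - p • T') = P - p ^ 2 • T' := by
    rw [smul_sub, ← mul_smul, ← mul_smul, ← sq, hQ₀]
  have h5 : p ^ 2 • T' = 0 := by
    apply S.h0
    · rw [← mul_smul, ← pow_succ']
      exact hT'
    · intro s hs
      have h6 : p ^ 2 • T' = P - p • (p • Q₀ - p • T') := by rw [h4]; abel
      rw [h6, map_sub, hP s hs, map_nsmul, hQ s hs]
  rw [h4, h5, sub_zero]

end H13T
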