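import Mathlib
import Pool.Agent.Lib.H13T.U7

/-! Chunk U8 (S/M). Relaxed classes are determined by their values at the τ w.
rc_zero. PROOF. S.sel for d: local conditions at u with R u: P = 0, that is d s = 0 for s in H ⊓ I u: T.cov gives w, h; s₁ = h s h⁻¹ is in H ⊓ I (v w), s₁ = (τ w)^i n (T.gen), ρ (τ w) fixes all points killed by p (S.hR (v w) (T.rel w), k = 1), so d ((τ w)^i) = i • d (τ w) = 0 (induction),
d s₁ = 0 + ρ .. (d n) = 0 (RC.rel). sa3_self (Lib/H55P/SA3.lean) with n = h⁻¹: ρ h⁻¹ (d (h s h⁻¹)) - d s = ρ s (d h⁻¹) - d h⁻¹ = 0 (s in I u fixes the points killed by p: S.hR u), so d s = 0.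
rc_inj. PROOF. p • P is fixed by N (p • d s = 0). pts_div: Q fixed by N with p • Q = p • P; T₀ = P - Q is killed by p and d = ∂T₀ on N. f s = d s - (ρ s T₀ - T₀) is a cocycle on H, killed by p, zero on N. For g in H, n in N: f (n g) = ρ n (f g) and f (n g) = f (g (g⁻¹ n g)) = f g
(N is normal in H: sa3_norm'), so f g is fixed by N: 0 by S.h0. At g = τ w: ρ (τ w) T₀ = T₀ by S.hR, so d (τ w) = 0. -/

namespace H13T

open H55P

variable {G M Vs : Type} [Group G] [AddCommGroup M] {ρ : G →* AddMonoid.End M} {p : ℕ} {U : Set (Subgroup G)} {I D : Vs → Subgroup G}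
  {N H H₀ : Subgroup G} {η : G} {R : Vs → Prop} {ι : Type} {v : ι → Vs} {τ : ι → G}

theorem u8_one {c : G → M} (hc : IsC ρ H c) : c 1 = 0 := by
  have h := hc 1 H.one_mem 1 H.one_mem
  rw [mul_one, sa3_one] at h
  exact left_eq_add.1 h

theorem u8_fix (S : TS ρ p U I D N H H₀ η R) {u : Vs} (hu : R u) {s : G} (hs : s ∈ H) (hsI : s ∈ I u) {P : M}
    (hP : p • P = 0) : ρ s P = P := by
  refine (S.hR u hu).1 s hs hsI 1 P ?_
  rw [pow_one, smul_sub, hP, sa3_nsmul ρ p s P hP, sub_zero]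

theorem rc_zero (S : TS ρ p U I D N H H₀ η R) (T : TI I N H R ι v τ) (d : G → M) (hd : RC ρ p U I N H R d)
    (h : ∀ w, d (τ w) = 0) : ∃ T₀ : M, p • T₀ = 0 ∧ ∀ s ∈ H, d s = ρ s T₀ - T₀ := by
  refine S.sel d hd.coc hd.cont hd.kil fun u => ?_
  by_cases hu : R u
  · refine ⟨0, fun s hs hsI => ?_⟩
    rw [map_zero, sub_zero]
    obtain ⟨w, g, hg, hcov⟩ := T.cov u hu
    have h1 : g * s * g⁻¹ ∈ H := H.mul_mem (H.mul_mem hg hs) (H.inv_mem hg)
    obtain ⟨i, n, hn, hnI, hi⟩ := T.gen w (g * s * g⁻¹) h1 ((hcov s).1 hsI)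
    have hpow : ∀ i : ℕ, d (τ w ^ i) = 0 := by
      intro i
      induction i with
      | zero => rw [pow_zero, u8_one hd.coc]
      | succ i ih =>
        rw [pow_succ, hd.coc _ (H.pow_mem (T.mem w) i) _ (T.mem w), ih, h w, map_zero, add_zero]
    have h2 : d (g * s * g⁻¹) = 0 := by
      rw [hi, hd.coc _ (H.pow_mem (T.mem w) i) _ (S.hNH hn), hpow, hd.rel (v w) (T.rel w) n hn hnI,
        map_zero, add_zero]
    have h3 := sa3_self hd.coc g⁻¹ (H.inv_mem hg) s hs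
    rw [inv_inv, h2, map_zero, u8_fix S hu hs hsI (hd.kil _ (H.inv_mem hg)), sub_self, zero_sub,
      neg_eq_zero] at h3
    exact h3
  · exact hd.loc u hu

theorem rc_inj (S : TS ρ p U I D N H H₀ η R) (T : TI I N H R ι v τ) (d : G → M) (hd : RC ρ p U I N H R d)
    (P : M) (hP : ∀ s ∈ N, d s = ρ s P - P) (w : ι) : d (τ w) = 0 := by
  have hpP : ∀ s ∈ N, ρ s (p • P) = p • P := by
    intro s hs
    have h1 := hd.kil s (S.hNH hs)
    rw [hP s hs, smul_sub, ← map_nsmul] at h1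
    exact sub_eq_zero.1 h1
  obtain ⟨Q, hQ, hQP⟩ := pts_div S (p • P) hpP
  have hT : p • (P - Q) = 0 := by rw [smul_sub, hQP, sub_self]
  obtain ⟨f, hf⟩ : ∃ f : G → M, ∀ s, f s = d s - (ρ s (P - Q) - (P - Q)) := ⟨_, fun _ => rfl⟩
  have hfc : IsC ρ H f := by
    intro s hs t ht
    rw [hf, hf, hf, hd.coc s hs t ht, sa3_mul]
    simp only [map_sub]
    abel
  have hfN : ∀ s ∈ N, f s = 0 := by
    intro s hs
    rw [hf, hP s hs, map_sub, hQ s hs]
    abel
  have hfp : ∀ s ∈ H, p • f s = 0 := by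
    intro s hs
    rw [hf, smul_sub, hd.kil s hs, smul_sub, hT, sa3_nsmul ρ p s _ hT]
    simp
  have hf0 : ∀ g ∈ H, f g = 0 := by
    intro g hg
    refine S.h0 _ (hfp g hg) fun n hn => ?_
    have h1 : g⁻¹ * n * g ∈ N :=
      sa3_norm' S.hNH (fun a ha b hb => S.hcomm a (S.hHH ha) b (S.hHH hb)) g hg n hn
    have h2 := hfc n (S.hNH hn) g hg
    have h3 := hfc g hg _ (S.hNH h1)
    rw [hfN n hn, zero_add] at h2
    rw [hfN _ h1, map_zero, add_zero] at h3
    have h4 : g * (g⁻¹ * n * g) = n * g := by group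
    rw [h4] at h3
    rw [← h2, h3]
  have h5 := hf0 (τ w) (T.mem w)
  rw [hf, u8_fix S (T.rel w) (T.mem w) (T.ine w) hT, sub_self, sub_zero] at h5
  exact h5

end H13T
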