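import Mathlib
import Pool.Agent.Lib.H13T.D

/-! Chunk U9 (S). Sums of relaxed classes.
rc_add, rc_sub: componentwise (as sa3_Z in Lib/H55P/SA3.lean; continuity O ⊓ O', S.hUi; Tr: P + P'). rc_fun: Fintype.ofFinite ι; by Finset.induction_on prove: for every finite set t of indices there is d with RC, the conditions on 𝒟, d (τ w) = f w for w in t and 0 for w not in t; t = univ. -/

namespace H13T

open H55P

variable {G M Vs : Type} [Group G] [AddCommGroup M] {ρ : G →* AddMonoid.End M} {p : ℕ} {U : Set (Subgroup G)} {I D : Vs → Subgroup G}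
  {N H H₀ : Subgroup G} {η : G} {R : Vs → Prop} {ι : Type} {v : ι → Vs} {τ : ι → G}

theorem rc_add (S : TS ρ p U I D N H H₀ η R) {d d' : G → M} (hd : RC ρ p U I N H R d) (hd' : RC ρ p U I N H R d') :
    RC ρ p U I N H R (d + d') := by
  refine ⟨fun s hs t ht => ?_, ?_, fun s hs => ?_, fun u hu => ?_, fun u hu s hs hsI => ?_⟩
  · rw [Pi.add_apply, Pi.add_apply, Pi.add_apply, hd.coc s hs t ht, hd'.coc s hs t ht, map_add]
    abel
  · obtain ⟨O, hO, h1⟩ := hd.cont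
    obtain ⟨O', hO', h2⟩ := hd'.cont
    refine ⟨O ⊓ O', S.hUi O hO O' hO', fun s hs h => ?_⟩
    rw [Pi.add_apply, h1 s hs h.1, h2 s hs h.2, add_zero]
  · rw [Pi.add_apply, smul_add, hd.kil s hs, hd'.kil s hs, add_zero]
  · obtain ⟨P, hP⟩ := hd.loc u hu
    obtain ⟨Q, hQ⟩ := hd'.loc u hu
    refine ⟨P + Q, fun s hs h => ?_⟩
    rw [Pi.add_apply, hP s hs h, hQ s hs h, map_add]
    abel
  · rw [Pi.add_apply, hd.rel u hu s hs hsI, hd'.rel u hu s hs hsI, add_zero]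

theorem u9_neg {d : G → M} (hd : RC ρ p U I N H R d) : RC ρ p U I N H R (-d) := by
  refine ⟨fun s hs t ht => ?_, ?_, fun s hs => ?_, fun u hu => ?_, fun u hu s hs hsI => ?_⟩
  · rw [Pi.neg_apply, Pi.neg_apply, Pi.neg_apply, hd.coc s hs t ht, map_neg]
    abel
  · obtain ⟨O, hO, h1⟩ := hd.cont
    exact ⟨O, hO, fun s hs h => by rw [Pi.neg_apply, h1 s hs h, neg_zero]⟩
  · rw [Pi.neg_apply, smul_neg, hd.kil s hs, neg_zero]
  · obtain ⟨P, hP⟩ := hd.loc u hu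
    refine ⟨-P, fun s hs h => ?_⟩
    rw [Pi.neg_apply, hP s hs h, map_neg]
    abel
  · rw [Pi.neg_apply, hd.rel u hu s hs hsI, neg_zero]

theorem u9_zero (S : TS ρ p U I D N H H₀ η R) : RC ρ p U I N H R (0 : G → M) := by
  refine ⟨fun s _ t _ => ?_, ⟨N, S.hN, fun s _ _ => rfl⟩, fun s _ => ?_, fun u _ => ⟨0, fun s _ _ => ?_⟩, fun u _ s _ _ => rfl⟩
  · rw [Pi.zero_apply, Pi.zero_apply, Pi.zero_apply, map_zero, add_zero]
  · rw [Pi.zero_apply, smul_zero]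
  · rw [Pi.zero_apply, map_zero, sub_zero]

theorem rc_sub (S : TS ρ p U I D N H H₀ η R) {d d' : G → M} (hd : RC ρ p U I N H R d) (hd' : RC ρ p U I N H R d') :
    RC ρ p U I N H R (d - d') := by
  rw [sub_eq_add_neg]
  exact rc_add S hd (u9_neg hd')

theorem rc_fun (S : TS ρ p U I D N H H₀ η R) [Finite ι] (𝒟 : Set (Subgroup G))
    (hE : ∀ (w : ι) (T : M), p • T = 0 → ∃ d : G → M, RC ρ p U I N H R d ∧ (∀ J ∈ 𝒟, Tr ρ N J d) ∧ d (τ w) = T ∧ ∀ w', w' ≠ w → d (τ w') = 0)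
    (f : ι → M) (hf : ∀ w, p • f w = 0) : ∃ d : G → M, RC ρ p U I N H R d ∧ (∀ J ∈ 𝒟, Tr ρ N J d) ∧ ∀ w, d (τ w) = f w := by
  classical
  have : Fintype ι := Fintype.ofFinite ι
  have key : ∀ t : Finset ι, ∃ d : G → M, RC ρ p U I N H R d ∧ (∀ J ∈ 𝒟, Tr ρ N J d) ∧
      (∀ w ∈ t, d (τ w) = f w) ∧ ∀ w, w ∉ t → d (τ w) = 0 := by
    intro t
    induction t using Finset.induction_on with
    | empty =>
      refine ⟨0, u9_zero S, fun J _ => ⟨0, fun s _ _ => ?_⟩, fun w hw => absurd hw (Finset.notMem_empty w), fun w _ => rfl⟩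
      rw [Pi.zero_apply, map_zero, sub_zero]
    | insert a t ha ih =>
      obtain ⟨d, h1, h2, h3, h4⟩ := ih
      obtain ⟨e, g1, g2, g3, g4⟩ := hE a (f a) (hf a)
      refine ⟨d + e, rc_add S h1 g1, fun J hJ => ?_, fun w hw => ?_, fun w hw => ?_⟩
      · obtain ⟨P, hP⟩ := h2 J hJ
        obtain ⟨Q, hQ⟩ := g2 J hJ
        refine ⟨P + Q, fun s hs h => ?_⟩
        rw [Pi.add_apply, hP s hs h, hQ s hs h, map_add]
        abel
      · rcases Finset.mem_insert.1 hw with rfl | hw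
        · rw [Pi.add_apply, h4 w ha, g3, zero_add]
        · rw [Pi.add_apply, h3 w hw, g4 w (fun h => ha (h ▸ hw)), add_zero]
      · rw [Finset.mem_insert, not_or] at hw
        rw [Pi.add_apply, h4 w hw.2, g4 w hw.1, add_zero]
  obtain ⟨d, h1, h2, h3, -⟩ := key Finset.univ
  exact ⟨d, h1, h2, fun w => h3 w (Finset.mem_univ w)⟩

end H13T
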