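import Mathlib
import Pool.Agent.Lib.H13T.U8
import Pool.Agent.Lib.H13T.U9

/-! Chunk U10 (M). THE COUNT. L : SSG.LS G M (Lib/SSG/Z/ZD.lean), ρ = L.act, U = L.U; the group Sha of the system (L.res N) consists of the locally trivial continuous cocycles on the group N modulo coboundaries.
u10_cl: a relaxed class d which is trivial on all J in L.D (over N) gives the element of Sha: c = fun n : N => d n is in (L.res N).Z (mul: RC.coc on N ≤ H; cont: RC.cont: O in L.U, O.subgroupOf N; loc: J.subgroupOf N), and p • cl c = 0.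
u10_surj: x in Sha with p^k • x = 0: x = cl c (cl_surj), p^k • c = coboundary of P (cl_zero), P = p^k • P' (div_pow), c' g = c ⟨g, h⟩ - (L.act g P' - P') for g in N and 0 for g outside N (classical if): IsC on N, killed by p^k on N, Cont (c is zero on u.subgroupOf N, hfix for P', hUi), Tr on I v: hI v: either I v ≤ J in L.D: c is
locally trivial on J (minus P'), or I v = ⊥: s = 1, c 1 = 0. ts_up: c' = e + ∂T' on N. f w = e (τ w), rc_fun (U9) with 𝒟 = L.D gives d with d (τ w) = f w; e - d is relaxed (rc_sub) and vanishes at all τ w: rc_zero: e - d = ∂T'' on H. So c = d + ∂(P' + T' + T'') on N: x = cl of d (LS.cl_eq).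
-/

namespace H13T

open H55P SSG

variable {G M Vs : Type} [Group G] [AddCommGroup M] {L : LS G M} {p : ℕ} {I D : Vs → Subgroup G}
  {N H H₀ : Subgroup G} {η : G} {R : Vs → Prop} {ι : Type} {v : ι → Vs} {τ : ι → G}

theorem u10_isZ (S : TS L.act p L.U I D N H H₀ η R) {d : G → M} (hd : RC L.act p L.U I N H R d) (hJ : ∀ J ∈ L.D, Tr L.act N J d) :
    (L.res N).IsZ (fun n : N => d n) := by
  refine ⟨fun g h => ?_, ?_, ?_⟩
  · exact hd.coc g (S.hNH g.2) h (S.hNH h.2)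
  · obtain ⟨O, hO, h1⟩ := hd.cont
    exact ⟨_, ⟨O, hO, rfl⟩, fun g hg => h1 g (S.hNH g.2) (Subgroup.mem_subgroupOf.1 hg)⟩
  · rintro _ ⟨J, hJD, rfl⟩
    obtain ⟨P, hP⟩ := hJ J hJD
    exact ⟨P, fun g hg => hP g g.2 (Subgroup.mem_subgroupOf.1 hg)⟩

open Classical in
/-- The corrected cocycle on N, extended by zero. -/
noncomputable def u10_c (N : Subgroup G) (L : LS G M) (c : N → M) (P' : M) (g : G) : M :=
  if h : g ∈ N then c ⟨g, h⟩ - (L.act g P' - P') else 0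

theorem u10_c_mem (c : N → M) (P' : M) {g : G} (h : g ∈ N) : u10_c N L c P' g = c ⟨g, h⟩ - (L.act g P' - P') := dif_pos h

theorem u10_surj (S : TS L.act p L.U I D N H H₀ η R) [Finite ι] (T : TI I N H R ι v τ) (hI : ∀ v, (∃ J ∈ L.D, I v ≤ J) ∨ I v = ⊥)
    (hE : ∀ (w : ι) (T : M), p • T = 0 → ∃ d : G → M, RC L.act p L.U I N H R d ∧ (∀ J ∈ L.D, Tr L.act N J d) ∧ d (τ w) = T ∧
      ∀ w', w' ≠ w → d (τ w') = 0) (x : (L.res N).Sha) (hx : ∃ k : ℕ, p ^ k • x = 0) :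
    ∃ (d : G → M) (hd : RC L.act p L.U I N H R d) (hJ : ∀ J ∈ L.D, Tr L.act N J d), x = (L.res N).cl ⟨fun n : N => d n, u10_isZ S hd hJ⟩ := by
  obtain ⟨k, hk⟩ := hx
  obtain ⟨c, rfl⟩ := (L.res N).cl_surj x
  rw [← map_nsmul, (L.res N).cl_zero] at hk
  obtain ⟨P, hP⟩ := hk
  obtain ⟨P', hP'⟩ := div_pow S.hdiv k P
  have hZ : (L.res N).IsZ c.1 := c.2
  have hP2 : ∀ g : N, p ^ k • c.1 g = L.act g P - P := hP
  have hcoc : IsC L.act N (u10_c N L c.1 P') := by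
    intro s hs t ht
    rw [u10_c_mem c.1 P' hs, u10_c_mem c.1 P' ht, u10_c_mem c.1 P' (N.mul_mem hs ht)]
    have h1 : c.1 ⟨s * t, N.mul_mem hs ht⟩ = c.1 ⟨s, hs⟩ + L.act s (c.1 ⟨t, ht⟩) := hZ.mul ⟨s, hs⟩ ⟨t, ht⟩
    rw [h1, sa3_mul, map_sub, map_sub]
    abel
  have hkil : ∀ s ∈ N, p ^ k • u10_c N L c.1 P' s = 0 := by
    intro s hs
    rw [u10_c_mem c.1 P' hs, smul_sub, smul_sub, hP2 ⟨s, hs⟩, ← map_nsmul, hP']
    exact sub_self _
  have hcont : Cont L.U N (u10_c N L c.1 P') := by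
    obtain ⟨_, ⟨O, hO, rfl⟩, h1⟩ := hZ.cont
    obtain ⟨O', hO', h2⟩ := S.hfix P'
    refine ⟨O ⊓ O', S.hUi O hO O' hO', fun s hs hsO => ?_⟩
    rw [u10_c_mem c.1 P' hs, h2 s hsO.2, h1 ⟨s, hs⟩ (Subgroup.mem_subgroupOf.2 hsO.1), sub_self, sub_zero]
  have hloc : ∀ v, Tr L.act N (I v) (u10_c N L c.1 P') := by
    intro v
    rcases hI v with ⟨J, hJ, hIJ⟩ | hb
    · obtain ⟨Q, hQ⟩ := hZ.loc (J.subgroupOf N) ⟨J, hJ, rfl⟩
      refine ⟨Q - P', fun s hs hsI => ?_⟩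
      have h1 : c.1 ⟨s, hs⟩ = L.act s Q - Q := hQ ⟨s, hs⟩ (Subgroup.mem_subgroupOf.2 (hIJ hsI))
      rw [u10_c_mem c.1 P' hs, h1, map_sub]
      abel
    · refine ⟨0, fun s hs hsI => ?_⟩
      rw [hb, Subgroup.mem_bot] at hsI
      have h1 := hcoc 1 N.one_mem 1 N.one_mem
      rw [mul_one, sa3_one] at h1
      rw [hsI, map_zero, sub_zero]
      exact left_eq_add.1 h1
  obtain ⟨e, T', he, -, h1⟩ := ts_up S k (u10_c N L c.1 P') hcoc hkil hcont hloc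
  obtain ⟨d, hd, hJ, h2⟩ := rc_fun S L.D hE (fun w => e (τ w)) (fun w => he.kil (τ w) (T.mem w))
  obtain ⟨T₀, -, h3⟩ := rc_zero S T (e - d) (rc_sub S he hd) (fun w => by rw [Pi.sub_apply, h2 w, sub_self])
  refine ⟨d, hd, hJ, ?_⟩
  rw [← sub_eq_zero, ← map_sub, (L.res N).cl_zero]
  refine ⟨P' + T' + T₀, fun g => ?_⟩
  show c.1 g - d g = L.act g (P' + T' + T₀) - (P' + T' + T₀)
  have h4 := h1 g g.2
  have h5 := h3 g (S.hNH g.2)
  rw [u10_c_mem c.1 P' g.2] at h4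
  rw [Pi.sub_apply] at h5
  have h6 : c.1 ⟨(g : G), g.2⟩ = c.1 g := rfl
  rw [h6] at h4
  have h7 : c.1 g = e g + (L.act g T' - T') + (L.act g P' - P') := sub_eq_iff_eq_add.1 h4
  have h8 : e g = (L.act g T₀ - T₀) + d g := sub_eq_iff_eq_add.1 h5
  rw [h7, h8, map_add, map_add]
  abel

end H13T
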