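import Mathlib
import Pool.Agent.Lib.H13T.U10

/-! Chunk U11 (S/M). ts_card: the map f ↦ cl (d_f) (d_f chosen by rc_fun) from the functions ι → {T : M // p • T = 0} to PP p Sha is injective (cl_eq: d_f - d_f' = ∂P on N; rc_sub, rc_inj: f w = f' w) and surjective (u10_surj: any d with d (τ w) = f w and RC; d_f - d relaxed, zero at all τ w: rc_zero, same class).
Nat.card_congr (Equiv.ofBijective ..), Nat.card_fun (Finite ι). The second statement: x = cl d by u10_surj and p • cl d = 0. -/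

namespace H13T

open H55P SSG

variable {G M Vs : Type} [Group G] [AddCommGroup M] {L : LS G M} {p : ℕ} {I D : Vs → Subgroup G}
  {N H H₀ : Subgroup G} {η : G} {R : Vs → Prop} {ι : Type} {v : ι → Vs} {τ : ι → G}

theorem u11_kil (S : TS L.act p L.U I D N H H₀ η R) {d : G → M} (hd : RC L.act p L.U I N H R d) (hJ : ∀ J ∈ L.D, Tr L.act N J d) :
    p • (L.res N).cl ⟨fun n : N => d n, u10_isZ S hd hJ⟩ = 0 := by
  rw [← map_nsmul]
  refine ((L.res N).cl_zero _).2 ⟨0, fun g => ?_⟩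
  rw [map_zero, sub_zero]
  exact hd.kil g.1 (S.hNH g.2)

theorem ts_card (S : TS L.act p L.U I D N H H₀ η R) [Finite ι] (T : TI I N H R ι v τ) (hI : ∀ v, (∃ J ∈ L.D, I v ≤ J) ∨ I v = ⊥)
    (hE : ∀ (w : ι) (T : M), p • T = 0 → ∃ d : G → M, RC L.act p L.U I N H R d ∧ (∀ J ∈ L.D, Tr L.act N J d) ∧ d (τ w) = T ∧
      ∀ w', w' ≠ w → d (τ w') = 0) :
    Nat.card (PP p (L.res N).Sha) = Nat.card {T : M // p • T = 0} ^ Nat.card ι ∧ ∀ x : (L.res N).Sha, (∃ k : ℕ, p ^ k • x = 0) → p • x = 0 := by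
  constructor
  · have hex : ∀ f : ι → {T : M // p • T = 0}, ∃ d : G → M, RC L.act p L.U I N H R d ∧ (∀ J ∈ L.D, Tr L.act N J d) ∧
        ∀ w, d (τ w) = (f w).1 := fun f => rc_fun S L.D hE (fun w => (f w).1) (fun w => (f w).2)
    choose d hd hJ hf using hex
    obtain ⟨Φ, hΦ⟩ : ∃ Φ : (ι → {T : M // p • T = 0}) → PP p (L.res N).Sha,
        ∀ f, (Φ f).1 = (L.res N).cl ⟨fun n : N => d f n, u10_isZ S (hd f) (hJ f)⟩ :=
      ⟨fun f => ⟨(L.res N).cl ⟨fun n : N => d f n, u10_isZ S (hd f) (hJ f)⟩, 1, by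
        rw [pow_one]
        exact u11_kil S (hd f) (hJ f)⟩, fun f => rfl⟩
    have hbij : Function.Bijective Φ := by
      constructor
      · intro f f' hff
        have h1 := congrArg Subtype.val hff
        rw [hΦ, hΦ] at h1
        obtain ⟨P, hP⟩ := ((L.res N).cl_eq _ _).1 h1
        funext w
        have h2 := rc_inj S T (d f - d f') (rc_sub S (hd f) (hd f')) P (fun s hs => by
          have h3 : d f s = d f' s + (L.act s P - P) := hP ⟨s, hs⟩
          rw [Pi.sub_apply, h3, add_sub_cancel_left]) w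
        rw [Pi.sub_apply, hf, hf, sub_eq_zero] at h2
        exact Subtype.ext h2
      · intro x
        obtain ⟨d0, hd0, hJ0, hx⟩ := u10_surj S T hI hE x.1 x.2
        refine ⟨fun w => ⟨d0 (τ w), hd0.kil (τ w) (T.mem w)⟩, Subtype.ext ?_⟩
        rw [hΦ, hx]
        obtain ⟨T₀, -, hT₀⟩ := rc_zero S T _ (rc_sub S (hd fun w => ⟨d0 (τ w), hd0.kil (τ w) (T.mem w)⟩) hd0) (fun w => by
          rw [Pi.sub_apply, hf, sub_self])
        refine ((L.res N).cl_eq _ _).2 ⟨T₀, fun g => ?_⟩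
        have h4 := hT₀ g.1 (S.hNH g.2)
        rw [Pi.sub_apply, sub_eq_iff_eq_add] at h4
        rw [L.res_act, add_comm]
        exact h4
    rw [← Nat.card_congr (Equiv.ofBijective Φ hbij), Nat.card_fun]
  · intro x hx
    obtain ⟨d0, hd0, hJ0, rfl⟩ := u10_surj S T hI hE x hx
    exact u11_kil S hd0 hJ0

end H13T
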