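import Mathlib
import Pool.Agent.Lib.H13T.C9
import Pool.Agent.Lib.H13T.U11
import Pool.Agent.Lib.H13T.K1
import Pool.Agent.Lib.H13T.CE

/-! Chunk C11 (M). The theorem over F.
c11_two: exists_dta (C5): WAB A B, Tor act p = the points killed by p (act (p : 𝓞 F) = p •: map_natCast), tor_card (Lib/H55K/G4A.lean): Nm p = p^2 (Nm_nat); transport by the isomorphism Θ of r6_iso (Lib/H13R/R6.lean).
c11_fin: copy the first half of H55P.pts_fin (Lib/H55P/S6.lean): Pt W K is a finitely generated group, p-divisible by hdiv and fix_iff, so finite; the set of the fixed points is the range of the injective map Pt W K → Pt W Ω (fix_iff).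
c11_main: ts_card (U11) for c9_ts, hI = c9_hI, T and hE from ce_main (CE.lean); ι = the subtype of AnW, finite (c6_fin), Nat.card ι = ncard (Set.Nat.card_coe_set_eq); (p^2)^ncard = p^(2 ncard); KP is the second part; the points: c11_fin with pts_div (U7); no p-torsion: S.h0. -/

open NumberField IsDedekindDomain WeierstrassCurve

namespace H13T

open H55P H55K H55K.TQ H55K.S
open H13S (Abv)
open H13R (BadM)
open SSG

open scoped Classical

variable {F : Type} [Field F] [NumberField F] [IQ F] {W₀ : WeierstrassCurve (𝓞 F)} {Om : ℂ}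
  {m : Ideal (𝓞 F)} {ψ : Ideal (𝓞 F) →*₀ 𝓞 F} {p n : ℕ} {M N' N : IntermediateField F (AlgebraicClosure F)}
  {γ : AlgebraicClosure F ≃ₐ[F] AlgebraicClosure F}

theorem c11_two (hH : BaseH F W₀ Om m ψ) (hp : PrimeH F W₀ p) : Nat.card {T : Pt (W₀⁄F) (AlgebraicClosure F) // p • T = 0} = p ^ 2 := by
  obtain ⟨A, B, j, act, hA, hB, hD⟩ := exists_dta hH hp
  obtain ⟨r, s, t, Θ, -, -, -⟩ := H13R.r6_iso (Ω := AlgebraicClosure F) W₀ hH.data.ell hA hB
  have hp0 : (p : 𝓞 F) ≠ 0 := by exact_mod_cast hp.prime.ne_zero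
  have h1 := tor_card hD.cma hp0
  rw [Nm_nat] at h1
  have h2 : ∀ T : Pt (H35P.WAB A B) (AlgebraicClosure F), act (p : 𝓞 F) T = p • T := by
    intro T
    rw [map_natCast]
    exact AddMonoid.End.natCast_apply p T
  rw [← h1]
  refine (Nat.card_congr (Equiv.subtypeEquiv Θ.toEquiv fun T => ?_)).symm
  show T ∈ Tor act (p : 𝓞 F) ↔ p • Θ T = 0
  rw [← map_nsmul, map_eq_zero_iff Θ Θ.injective, ← h2]
  exact Iff.rfl

theorem c11_fin {F : Type} [Field F] [NumberField F] {Ω : Type} [Field Ω] [Algebra F Ω] [IsAlgClosed Ω]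
    [Algebra.IsAlgebraic F Ω] [CharZero Ω] (W : WeierstrassCurve F) [W.IsElliptic] (p : ℕ) (hp : p.Prime) (K : IntermediateField F Ω)
    [FiniteDimensional F K] (hdiv : ∀ P : Pt W Ω, (∀ s ∈ K.fixingSubgroup, ac W s P = P) →
      ∃ Q : Pt W Ω, (∀ s ∈ K.fixingSubgroup, ac W s Q = Q) ∧ p • Q = P) :
    {P : Pt W Ω | ∀ s ∈ K.fixingSubgroup, ac W s P = P}.Finite := by
  have hN : NumberField K := NumberField.of_module_finite F K
  have hfg : Module.Finite ℤ (Pt W K) := mw W K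
  have hinj : Function.Injective (Affine.Point.map (W' := W.toAffine) K.val) :=
    Affine.Point.map_injective _
  have hdiv' : ∀ P : Pt W K, ∃ Q : Pt W K, p • Q = P := by
    intro P
    obtain ⟨Q', hQ2, hQ'⟩ := hdiv (Affine.Point.map (W' := W.toAffine) K.val P) ((fix_iff W K _).2 ⟨P, rfl⟩)
    obtain ⟨Q, hQ⟩ := (fix_iff W K Q').1 hQ2
    refine ⟨Q, hinj ?_⟩
    rw [map_nsmul, hQ, hQ']
  obtain ⟨r, hr, hr'⟩ := Submodule.exists_sub_one_mem_and_smul_eq_zero_of_fg_of_le_smul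
    (Ideal.span {(p : ℤ)}) (⊤ : Submodule ℤ (Pt W K)) hfg.fg_top (by
      intro P _
      obtain ⟨Q, hQ⟩ := hdiv' P
      rw [← hQ, ← natCast_zsmul]
      exact Submodule.smul_mem_smul (Ideal.mem_span_singleton_self _) Submodule.mem_top)
  have hr0 : r ≠ 0 := by
    rintro rfl
    rw [Ideal.mem_span_singleton, zero_sub, dvd_neg] at hr
    exact hp.one_lt.ne' (by exact_mod_cast Int.natAbs_dvd_natAbs.2 hr |> Nat.dvd_one.1)
  have hfin : Finite (Pt W K) := by
    have h1 : AddGroup.FG (Pt W K) := Module.Finite.iff_addGroup_fg.1 inferInstance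
    refine AddCommGroup.finite_of_fg_isAddTorsion _ fun P => ?_
    rw [isOfFinAddOrder_iff_zsmul_eq_zero]
    exact ⟨r, hr0, hr' P Submodule.mem_top⟩
  refine (Set.finite_range (Affine.Point.map (W' := W.toAffine) K.val)).subset ?_
  intro P hP
  exact (fix_iff W K P).1 hP

theorem c11_main (hH : BaseH F W₀ Om m ψ) (hp : PrimeH F W₀ p) [NumberField M] [NumberField N'] [NumberField N]
    (c : CycI p n M N' N γ) (hU : UnrP p N) (hB : BadM W₀ M) (hS : SelG p W₀ N') (few : (AnW p W₀ N' N).ncard < p ^ n) :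
    Nat.card (PP p ((galS (W₀⁄F) (AlgebraicClosure F)).res N.fixingSubgroup).Sha) = p ^ (2 * (AnW p W₀ N' N).ncard) ∧
      KP p ((galS (W₀⁄F) (AlgebraicClosure F)).res N.fixingSubgroup).Sha ∧
      {P : Pt (W₀⁄F) (AlgebraicClosure F) | ∀ s ∈ N.fixingSubgroup, ac (W₀⁄F) s P = P}.Finite ∧
      ∀ P : Pt (W₀⁄F) (AlgebraicClosure F), (∀ s ∈ N.fixingSubgroup, ac (W₀⁄F) s P = P) → p • P = 0 → P = 0 := by
  obtain ⟨v, τ, hT, hE⟩ := ce_main hH hp c hB hU hS
  have S := c9_ts hH hp c hU hB hS few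
  have hfin : Finite {w // w ∈ AnW p W₀ N' N} := c6_fin hp.prime.pos c
  obtain ⟨h1, h2⟩ := ts_card S hT (c9_hI (W₀⁄F)) hE
  have hell : (W₀⁄F).IsElliptic := gen_ell W₀ hH.data.ell
  have hfd : FiniteDimensional F N := c.fin
  refine ⟨?_, h2, ?_, fun P h3 h4 => S.h0 P h4 h3⟩
  · rw [h1, c11_two hH hp, ← pow_mul]
    rfl
  · refine c11_fin (W₀⁄F) p hp.prime N fun P hP => ?_
    obtain ⟨Q, hQ, hQ'⟩ := pts_div S P hP
    exact ⟨Q, hQ, hQ'⟩

end H13T
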