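import Mathlib

/-! # H13T, module TA: cofree modules over Z/p^t[G], G a finite p-group -/

namespace H13T

open scoped Classical

/-- Homomorphisms to Z/n extend from subgroups of groups killed by n. -/
theorem ta_ext {B : Type*} [AddCommGroup B] [Finite B] (n : ℕ) [NeZero n] (hB : ∀ b : B, n • b = 0)
    (S : AddSubgroup B) (f : S →+ ZMod n) : ∃ g : B →+ ZMod n, ∀ s : S, g (s : B) = f s := by
  obtain ⟨ζ, hζ⟩ : ∃ ζ : ℂˣ, IsPrimitiveRoot ζ n := by
    have h := Complex.isPrimitiveRoot_exp n (NeZero.ne n)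
    exact ⟨(h.isUnit (NeZero.ne n)).unit, IsPrimitiveRoot.coe_units_iff.1 h⟩
  let e := hζ.zmodEquivZPowers
  have : Finite (Multiplicative B) := inferInstanceAs (Finite B)
  let f0 : S →+ Additive (Subgroup.zpowers ζ) := e.toAddMonoidHom.comp f
  let f1 : (AddSubgroup.toSubgroup S) →* ℂˣ :=
    { toFun := fun s => ((f0 ⟨Multiplicative.toAdd (s : Multiplicative B), s.2⟩).toMul : ℂˣ)
      map_one' := by
        have : (⟨Multiplicative.toAdd ((1 : AddSubgroup.toSubgroup S) : Multiplicative B), (1 : AddSubgroup.toSubgroup S).2⟩ : S) = 0 := rfl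
        rw [this, map_zero]; rfl
      map_mul' := fun a b => by
        have : (⟨Multiplicative.toAdd ((a * b : AddSubgroup.toSubgroup S) : Multiplicative B), (a * b).2⟩ : S)
          = ⟨Multiplicative.toAdd (a : Multiplicative B), a.2⟩ + ⟨Multiplicative.toAdd (b : Multiplicative B), b.2⟩ := rfl
        rw [this, map_add]; rfl }
  obtain ⟨g, hg⟩ := MonoidHom.domRestrict_surjective ℂ (AddSubgroup.toSubgroup S) f1
  have hgn : ∀ b : Multiplicative B, g b ∈ Subgroup.zpowers ζ := by
    intro b
    have h1 : (g b) ^ n = 1 := by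
      rw [← map_pow]
      have : b ^ n = 1 := hB (Multiplicative.toAdd b)
      rw [this, map_one]
    rw [hζ.zpowers_eq]
    exact h1
  let g1 : B →+ Additive (Subgroup.zpowers ζ) :=
    { toFun := fun b => Additive.ofMul ⟨g (Multiplicative.ofAdd b), hgn _⟩
      map_zero' := by
        apply Additive.toMul.injective
        apply Subtype.ext
        exact map_one g
      map_add' := fun a b => by
        apply Additive.toMul.injective
        apply Subtype.ext
        exact map_mul g _ _ }
  refine ⟨e.symm.toAddMonoidHom.comp g1, fun s => ?_⟩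
  change e.symm (g1 s) = f s
  rw [AddEquiv.symm_apply_eq]
  apply Additive.toMul.injective
  apply Subtype.ext
  have h2 := DFunLike.congr_fun hg ⟨Multiplicative.ofAdd (s : B), s.2⟩
  exact h2

/-- A vector space over Z/p with at most p^d elements embeds into (Z/p^t)^d. -/
theorem ta_emb0 {S : Type*} [AddCommGroup S] [Finite S] (p : ℕ) [Fact p.Prime] [Module (ZMod p) S] (t d : ℕ)
    (ht : t ≠ 0) (hc : Nat.card S ≤ p ^ d) :
    ∃ f : Fin d → (S →+ ZMod (p ^ t)), ∀ s : S, (∀ i, f i s = 0) → s = 0 := by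
  have hr : Module.finrank (ZMod p) S ≤ d := by
    have h1 : Nat.card S = Nat.card (ZMod p) ^ Module.finrank (ZMod p) S :=
      Module.natCard_eq_pow_finrank (K := ZMod p) (V := S)
    rw [Nat.card_zmod] at h1
    rw [h1] at hc
    exact (Nat.pow_le_pow_iff_right (Fact.out : p.Prime).one_lt).1 hc
  let b : Module.Basis (Fin (Module.finrank (ZMod p) S)) (ZMod p) S := Module.finBasis (ZMod p) S
  have hp0 : ((p : ℤ) • ((p : ZMod (p ^ t)) ^ (t - 1))) = 0 := by
    obtain ⟨k, rfl⟩ := Nat.exists_eq_succ_of_ne_zero ht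
    have h2 : (p : ZMod (p ^ (k + 1))) ^ (k + 1) = 0 := by
      have h3 := ZMod.natCast_self (p ^ (k + 1))
      push_cast at h3
      exact h3
    have h4 : (k + 1) - 1 = k := rfl
    rw [zsmul_eq_mul, Nat.succ_eq_add_one, h4]
    rw [← h2, pow_succ]
    push_cast
    ring
  let j : ZMod p →+ ZMod (p ^ t) := ZMod.lift p ⟨zmultiplesHom _ ((p : ZMod (p ^ t)) ^ (t - 1)), by
    simpa using hp0⟩
  have hj : Function.Injective j := by
    rw [injective_iff_map_eq_zero]
    intro x hx
    obtain ⟨z, rfl⟩ := ZMod.intCast_surjective x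
    have h5 : j (z : ZMod p) = (z : ℤ) • ((p : ZMod (p ^ t)) ^ (t - 1)) := by
      simp [j]
    rw [h5] at hx
    have h6 : ((z * p ^ (t - 1) : ℤ) : ZMod (p ^ t)) = 0 := by
      push_cast
      rw [zsmul_eq_mul] at hx
      exact hx
    rw [ZMod.intCast_zmod_eq_zero_iff_dvd] at h6
    obtain ⟨k, rfl⟩ := Nat.exists_eq_succ_of_ne_zero ht
    rw [ZMod.intCast_zmod_eq_zero_iff_dvd]
    have h7 : ((p : ℤ) ^ k) * p ∣ ((p : ℤ) ^ k) * z := by
      rw [← pow_succ, mul_comm _ z]
      simpa using h6
    exact (mul_dvd_mul_iff_left (pow_ne_zero _ (Int.natCast_ne_zero.2 (Fact.out : p.Prime).ne_zero))).1 h7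
  refine ⟨fun i => if h : (i : ℕ) < Module.finrank (ZMod p) S then
    j.comp ((b.coord ⟨i, h⟩).toAddMonoidHom) else 0, fun s hs => ?_⟩
  have h8 : ∀ i, (b.coord i) s = 0 := by
    intro i
    have h9 := hs ⟨i, lt_of_lt_of_le i.2 hr⟩
    simp only [i.2, dif_pos] at h9
    exact hj (by rw [map_zero]; exact h9)
  exact b.forall_coord_eq_zero_iff.1 h8

/-- A group killed by p with at most p^d elements embeds into (Z/p^t)^d. -/
theorem ta_emb {S : Type*} [AddCommGroup S] [Finite S] (p : ℕ) [Fact p.Prime] (t d : ℕ) (ht : t ≠ 0)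
    (hS : ∀ s : S, p • s = 0) (hc : Nat.card S ≤ p ^ d) :
    ∃ f : Fin d → (S →+ ZMod (p ^ t)), ∀ s : S, (∀ i, f i s = 0) → s = 0 :=
  @ta_emb0 S _ _ p _ (AddCommGroup.zmodModule hS) t d ht hc

/-- A nonzero finite module over a p-group has a nonzero fixed vector killed by p. -/
theorem ta_fix {B : Type*} [AddCommGroup B] [Finite B] {G : Type*} [Group G] [Finite G] [DistribMulAction G B]
    (p : ℕ) [Fact p.Prime] (hG : IsPGroup p G) (t : ℕ) (hB : ∀ b : B, p ^ t • b = 0)
    (K : AddSubgroup B) (hK : ∀ (g : G), ∀ b ∈ K, g • b ∈ K)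
    (h0 : ∀ b ∈ K, p • b = 0 → (∀ g : G, g • b = b) → b = 0) : K = ⊥ := by
  rw [AddSubgroup.eq_bot_iff_forall]
  by_contra hne
  push Not at hne
  obtain ⟨b, hb, hb0⟩ := hne
  -- the p-torsion of K
  let X : AddSubgroup B := { carrier := {x | x ∈ K ∧ p • x = 0}
                             zero_mem' := ⟨K.zero_mem, smul_zero _⟩
                             add_mem' := fun {x y} hx hy => ⟨K.add_mem hx.1 hy.1, by rw [smul_add, hx.2, hy.2, add_zero]⟩
                             neg_mem' := fun {x} hx => ⟨K.neg_mem hx.1, by rw [smul_neg, hx.2, neg_zero]⟩ }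
  letI : MulAction G X := { smul := fun g x => ⟨g • (x : B), hK g x x.2.1, by
                              have h := map_nsmul (DistribSMul.toAddMonoidHom B g) p (x : B)
                              rw [x.2.2, map_zero] at h
                              exact h.symm⟩
                            one_smul := fun x => Subtype.ext (one_smul G (x : B))
                            mul_smul := fun g h x => Subtype.ext (mul_smul g h (x : B)) }
  have hX : ∃ x : X, x ≠ 0 := by
    have h1 : ∃ n, p ^ n • b = 0 := ⟨t, hB b⟩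
    have h2 := Nat.find_spec h1
    have h3 : Nat.find h1 ≠ 0 := by
      intro h
      rw [h, pow_zero, one_smul] at h2
      exact hb0 h2
    obtain ⟨k, hk⟩ := Nat.exists_eq_succ_of_ne_zero h3
    have h4 : p ^ k • b ≠ 0 := Nat.find_min h1 (by rw [hk]; exact Nat.lt_succ_self k)
    rw [hk, Nat.succ_eq_add_one, pow_succ, mul_comm, mul_smul] at h2
    exact ⟨⟨p ^ k • b, K.nsmul_mem hb _, h2⟩, fun h => h4 (congrArg Subtype.val h)⟩
  have hdvd : p ∣ Nat.card X := by
    obtain ⟨x, hx⟩ := hX
    have h5 : addOrderOf x = p := addOrderOf_eq_prime (Subtype.ext x.2.2) hx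
    rw [← h5]
    exact addOrderOf_dvd_natCard x
  have hz : (0 : X) ∈ MulAction.fixedPoints G X := fun g => Subtype.ext (smul_zero g)
  obtain ⟨y, hy, hy0⟩ := hG.exists_fixed_point_of_prime_dvd_card_of_fixed_point X hdvd hz
  apply hy0
  apply Subtype.ext
  exact (h0 y y.2.1 y.2.2 (fun g => congrArg Subtype.val (hy g))).symm

/-- The cofree lemma: a module over the group ring of a p-group with small socle and large order is cofree. -/
theorem ta_cofree {B : Type*} [AddCommGroup B] [Finite B] {G : Type*} [Group G] [Finite G] [DistribMulAction G B]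
    (p : ℕ) [Fact p.Prime] (hG : IsPGroup p G) (t d : ℕ) (hB : ∀ b : B, p ^ t • b = 0)
    (hc : p ^ (t * d * Nat.card G) ≤ Nat.card B)
    (hs : Nat.card {b : B // p • b = 0 ∧ ∀ g : G, g • b = b} ≤ p ^ d) :
    ∃ l : Fin d → (B →+ ZMod (p ^ t)), Function.Bijective (fun (b : B) (i : Fin d) (g : G) => l i (g • b)) ∧
      Function.Bijective (fun (b : {b : B // ∀ g : G, g • b = b}) (i : Fin d) => l i (b : B)) := by
  have hp : p.Prime := Fact.out
  rcases Nat.eq_zero_or_pos t with ht | ht
  · subst ht
    have hb : ∀ b : B, b = 0 := fun b => by simpa using hB b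
    have : Subsingleton B := ⟨fun a b => by rw [hb a, hb b]⟩
    have h1 : Subsingleton (ZMod (p ^ 0)) := by
      rw [pow_zero]
      exact inferInstanceAs (Subsingleton (Fin 1))
    refine ⟨fun _ => 0, ⟨fun a b _ => Subsingleton.elim _ _, fun f => ⟨0, ?_⟩⟩, ⟨fun a b _ => Subsingleton.elim _ _, fun f => ⟨⟨0, fun g => smul_zero g⟩, ?_⟩⟩⟩
    · funext i g
      exact Subsingleton.elim _ _
    · funext i
      exact Subsingleton.elim _ _
  have : NeZero (p ^ t) := ⟨pow_ne_zero _ hp.ne_zero⟩
  -- the socle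
  let S : AddSubgroup B := { carrier := {x | p • x = 0 ∧ ∀ g : G, g • x = x}
                             zero_mem' := ⟨smul_zero _, fun g => smul_zero g⟩
                             add_mem' := fun {x y} hx hy => ⟨by rw [smul_add, hx.1, hy.1, add_zero], fun g => by
                               rw [smul_add, hx.2, hy.2]⟩
                             neg_mem' := fun {x} hx => ⟨by rw [smul_neg, hx.1, neg_zero], fun g => by
                               rw [smul_neg, hx.2]⟩ }
  obtain ⟨f, hf⟩ := ta_emb (S := S) p t d ht.ne' (fun s => Subtype.ext s.2.1) hs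
  choose l hl using fun i => ta_ext (p ^ t) hB S (f i)
  -- injectivity
  have hinj : Function.Injective (fun (b : B) (i : Fin d) (g : G) => l i (g • b)) := by
    let K : AddSubgroup B := { carrier := {b | ∀ i, ∀ g : G, l i (g • b) = 0}
                               zero_mem' := fun i g => by rw [smul_zero, map_zero]
                               add_mem' := fun {x y} hx hy i g => by rw [smul_add, map_add, hx, hy, add_zero]
                               neg_mem' := fun {x} hx i g => by rw [smul_neg, map_neg, hx, neg_zero] }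
    have hK : K = ⊥ := by
      refine ta_fix p hG t hB K (fun g b hb i h => ?_) (fun b hb h1 h2 => ?_)
      · rw [smul_smul]
        exact hb i (h * g)
      · have h3 := hf ⟨b, h1, h2⟩ (fun i => by
          rw [← hl]
          have h4 := hb i 1
          rw [one_smul] at h4
          exact h4)
        exact congrArg Subtype.val h3
    intro a b hab
    have h5 : a - b ∈ K := fun i g => by
      rw [smul_sub, map_sub, sub_eq_zero]
      exact congrFun (congrFun hab i) g
    rw [hK, AddSubgroup.mem_bot, sub_eq_zero] at h5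
    exact h5
  have hbij : Function.Bijective (fun (b : B) (i : Fin d) (g : G) => l i (g • b)) := by
    have : Finite (Fin d → G → ZMod (p ^ t)) := inferInstance
    have hX : Nat.card (Fin d → G → ZMod (p ^ t)) = p ^ (t * d * Nat.card G) := by
      rw [Nat.card_fun, Nat.card_fun, Nat.card_zmod, Nat.card_fin, ← pow_mul, ← pow_mul]
      congr 1
      ring
    refine (Nat.bijective_iff_injective_and_card _).2 ⟨hinj, le_antisymm ?_ ?_⟩
    · exact Nat.card_le_card_of_injective _ hinj
    · rw [hX]
      exact hc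
  refine ⟨l, hbij, fun a b hab => ?_, fun x => ?_⟩
  · apply Subtype.ext
    apply hinj
    funext i g
    change l i (g • (a : B)) = l i (g • (b : B))
    rw [a.2, b.2]
    exact congrFun hab i
  · obtain ⟨b, hb⟩ := hbij.2 (fun i _ => x i)
    have hfix : ∀ g : G, g • b = b := by
      intro g
      apply hinj
      funext i h
      change l i (h • g • b) = l i (h • b)
      rw [smul_smul]
      exact (congrFun (congrFun hb i) (h * g)).trans (congrFun (congrFun hb i) h).symm
    refine ⟨⟨b, hfix⟩, ?_⟩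
    funext i
    have h6 := congrFun (congrFun hb i) 1
    change l i ((1 : G) • b) = x i at h6
    rw [one_smul] at h6
    exact h6

/-- The order of the invariants of a cofree module. -/
theorem ta_card {B : Type*} [AddCommGroup B] [Finite B] {G : Type*} [Group G] [Finite G] [DistribMulAction G B]
    (p : ℕ) [Fact p.Prime] (hG : IsPGroup p G) (t d : ℕ) (hB : ∀ b : B, p ^ t • b = 0)
    (hc : p ^ (t * d * Nat.card G) ≤ Nat.card B)
    (hs : Nat.card {b : B // p • b = 0 ∧ ∀ g : G, g • b = b} ≤ p ^ d) :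
    Nat.card {b : B // ∀ g : G, g • b = b} = p ^ (t * d) := by
  obtain ⟨l, -, hl⟩ := ta_cofree p hG t d hB hc hs
  have : NeZero (p ^ t) := ⟨pow_ne_zero _ (Fact.out : p.Prime).ne_zero⟩
  rw [Nat.card_eq_of_bijective _ hl, Nat.card_fun, Nat.card_zmod, Nat.card_fin, ← pow_mul]

/-- Invariants killed by p^s of a cofree module are p^(t-s) times an invariant element. -/
theorem ta_div {B : Type*} [AddCommGroup B] [Finite B] {G : Type*} [Group G] [Finite G] [DistribMulAction G B]
    (p : ℕ) [Fact p.Prime] (hG : IsPGroup p G) (t d : ℕ) (hB : ∀ b : B, p ^ t • b = 0)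
    (hc : p ^ (t * d * Nat.card G) ≤ Nat.card B)
    (hs : Nat.card {b : B // p • b = 0 ∧ ∀ g : G, g • b = b} ≤ p ^ d) (s : ℕ) (hst : s ≤ t)
    (b : B) (hb : ∀ g : G, g • b = b) (h0 : p ^ s • b = 0) :
    ∃ a : B, (∀ g : G, g • a = a) ∧ b = p ^ (t - s) • a := by
  obtain ⟨l, -, hl⟩ := ta_cofree p hG t d hB hc hs
  have hp : p.Prime := Fact.out
  have : NeZero (p ^ t) := ⟨pow_ne_zero _ hp.ne_zero⟩
  have h1 : ∀ i, ∃ y : ZMod (p ^ t), l i b = p ^ (t - s) • y := by
    intro i
    have h2 : p ^ s • l i b = 0 := by rw [← map_nsmul, h0, map_zero]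
    obtain ⟨z, hz⟩ := ZMod.intCast_surjective (l i b)
    rw [← hz] at h2 ⊢
    have h3 : ((p ^ s * z : ℤ) : ZMod (p ^ t)) = 0 := by
      push_cast
      rw [nsmul_eq_mul] at h2
      push_cast at h2
      exact h2
    rw [ZMod.intCast_zmod_eq_zero_iff_dvd] at h3
    have h4 : (p : ℤ) ^ s * (p : ℤ) ^ (t - s) ∣ (p : ℤ) ^ s * z := by
      rw [← pow_add, Nat.add_sub_cancel' hst]
      exact_mod_cast h3
    obtain ⟨y, hy⟩ := (mul_dvd_mul_iff_left (pow_ne_zero _ (Int.natCast_ne_zero.2 hp.ne_zero))).1 h4
    refine ⟨(y : ZMod (p ^ t)), ?_⟩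
    rw [hy, nsmul_eq_mul]
    push_cast
    ring
  choose y hy using h1
  obtain ⟨⟨a, ha⟩, hay⟩ := hl.2 y
  refine ⟨a, ha, ?_⟩
  have h5 : (⟨b, hb⟩ : {b : B // ∀ g : G, g • b = b}) = ⟨p ^ (t - s) • a, fun g => by
      have h7 := map_nsmul (DistribSMul.toAddMonoidHom B g) (p ^ (t - s)) a
      have h8 : DistribSMul.toAddMonoidHom B g a = a := ha g
      rw [h8] at h7
      exact h7⟩ := by
    apply hl.1
    funext i
    change l i b = l i (p ^ (t - s) • a)
    rw [map_nsmul, hy i]
    have h6 := congrFun hay i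
    change l i a = y i at h6
    rw [h6]
  exact congrArg Subtype.val h5

end H13T
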