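import Mathlib
import Pool.Agent.Lib.H55K.RH
import Pool.Agent.Lib.H55K.RF

/-! Chunk Q1 (M). The primes of K' in the quadratic extension L' = F K' of K' (F not contained in K').
q_tri. PROOF. As the proof of lf_sq (Lib/H55K/RH.lean): below_W: l, f; l does not divide W.Δ (rh_int); quad_primes hQ w: first case: done. Third case: hram_of (RF.lean) gives Δ in the prime of F below w₁ (DD.below), so l divides Δ, contradiction. Second case (inert): quad_inert: f odd and the prime of F below is (l);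
inert_F (RC1.lean): #W(ZMod l) = l + 1; #W(k_w) = l^f + 1 - (α^f + β^f), α + β = 0, αβ = l (H55K.weil, see rc1_count in RC1.lean and lf_W in RA2.lean; k_w is a finite extension of ZMod l with l^f elements), f odd, so β^f = -α^f and #W(k_w) = l^f + 1 = N w + 1; over k_{w₁} (l^(2f) elements):
α^2 = β^2 = -l, α^(2f) = β^(2f) = -l^f, the number of points is l^(2f) + 1 + 2 l^f.
q_pts. The homomorphism 𝓞 K' ⧸ w → 𝓞 L' ⧸ w' is injective and both have the same finite number of elements, so it is an isomorphism of rings; rc2_card (RC2.lean) or H55P.pz10_card: the curve over 𝓞 L' ⧸ w' is the image of the curve over 𝓞 K' ⧸ w (map_map; ring homomorphisms from ℤ are equal). -/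

open NumberField IsDedekindDomain WeierstrassCurve

namespace H13T

open H55P (IQ)
open H55K H55K.TQ

theorem q1_count {K' : Type} [Field K'] [NumberField K'] (W : WeierstrassCurve ℤ) (w : HeightOneSpectrum (𝓞 K')) {l g : ℕ}
    (hl : l.Prime) (hw : (l : 𝓞 K') ∈ w.asIdeal) (hΔ : ¬ (l : ℤ) ∣ W.Δ) (α β : ℂ)
    (h1 : α + β = (l : ℂ) + 1 - (Nat.card (W⁄(ZMod l)).toAffine.Point : ℂ)) (h2 : α * β = (l : ℂ))
    (hN : Ideal.absNorm w.asIdeal = l ^ g) :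
    (Nat.card (W⁄(𝓞 K' ⧸ w.asIdeal)).toAffine.Point : ℂ) = (l : ℂ) ^ g + 1 - α ^ g - β ^ g := by
  have hfl : Fact l.Prime := ⟨hl⟩
  have hvm : w.asIdeal.IsMaximal := w.isMaximal
  let _i : Field (𝓞 K' ⧸ w.asIdeal) := Ideal.Quotient.field w.asIdeal
  have hnK : Nat.card (𝓞 K' ⧸ w.asIdeal) = l ^ g := by
    have h1 : Nat.card (𝓞 K' ⧸ w.asIdeal) = Ideal.absNorm w.asIdeal := rfl
    rw [h1, hN]
  have hfin : Finite (𝓞 K' ⧸ w.asIdeal) := Nat.finite_of_card_ne_zero (by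
    rw [hnK]
    exact pow_ne_zero _ hl.ne_zero)
  have hchar : CharP (𝓞 K' ⧸ w.asIdeal) l := by
    rw [CharP.charP_iff_prime_eq_zero hl]
    have h2 := Ideal.Quotient.eq_zero_iff_mem.2 hw
    rw [map_natCast] at h2
    exact h2
  let _i : Algebra (ZMod l) (𝓞 K' ⧸ w.asIdeal) := ZMod.algebra _ l
  have hrank : Module.finrank (ZMod l) (𝓞 K' ⧸ w.asIdeal) = g := by
    have hmf : Module.Finite (ZMod l) (𝓞 K' ⧸ w.asIdeal) := Module.Finite.of_finite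
    have h1 := Module.natCard_eq_pow_finrank (K := ZMod l) (V := 𝓞 K' ⧸ w.asIdeal)
    rw [hnK, Nat.card_zmod] at h1
    exact (Nat.pow_right_injective hl.two_le h1).symm
  have hΔl : (W⁄(ZMod l)).Δ ≠ 0 := by
    rw [rh_disc, Ne, ZMod.intCast_zmod_eq_zero_iff_dvd]
    exact hΔ
  have hcurve : W⁄(𝓞 K' ⧸ w.asIdeal) = (W⁄(ZMod l))⁄(𝓞 K' ⧸ w.asIdeal) := by
    show W.map (algebraMap ℤ (𝓞 K' ⧸ w.asIdeal)) = (W.map (algebraMap ℤ (ZMod l))).map (algebraMap (ZMod l) (𝓞 K' ⧸ w.asIdeal))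
    rw [WeierstrassCurve.map_map]
    congr 1
    exact Subsingleton.elim _ _
  have hw := weil (k := ZMod l) (K := 𝓞 K' ⧸ w.asIdeal) (W⁄(ZMod l)) hΔl α β
    (by rw [Nat.card_zmod]; exact h1) (by rw [Nat.card_zmod]; exact h2)
  rw [hrank, hnK] at hw
  rw [hcurve, hw]
  push_cast
  ring

theorem q_tri {F K' L' : Type} [Field F] [NumberField F] [IQ F] [Field K'] [NumberField K'] [Field L'] [NumberField L'] [Algebra F L']
    [Algebra K' L'] (hQ : QuadG F K' L') {W : WeierstrassCurve ℤ} {Om : ℂ} {m : Ideal (𝓞 F)} {ψ : Ideal (𝓞 F) →*₀ 𝓞 F}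
    (hH : BaseH F (W⁄(𝓞 F)) Om m ψ) (w : HeightOneSpectrum (𝓞 K')) (hΔ : ((W.Δ : ℤ) : 𝓞 K') ∉ w.asIdeal) :
    (∃ w₁ w₂ : HeightOneSpectrum (𝓞 L'), w₁ ≠ w₂ ∧ Ideal.absNorm w₁.asIdeal = Ideal.absNorm w.asIdeal ∧
      Ideal.absNorm w₂.asIdeal = Ideal.absNorm w.asIdeal ∧
      ∀ w' : HeightOneSpectrum (𝓞 L'), w.asIdeal = w'.asIdeal.under (𝓞 K') ↔ w' = w₁ ∨ w' = w₂) ∨
    (∃ w₁ : HeightOneSpectrum (𝓞 L'), Ideal.absNorm w₁.asIdeal = Ideal.absNorm w.asIdeal ^ 2 ∧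
      (∀ w' : HeightOneSpectrum (𝓞 L'), w.asIdeal = w'.asIdeal.under (𝓞 K') ↔ w' = w₁) ∧
      Nat.card (W⁄(𝓞 K' ⧸ w.asIdeal)).toAffine.Point = Ideal.absNorm w.asIdeal + 1 ∧
      Nat.card ((W⁄(𝓞 F))⁄(𝓞 L' ⧸ w₁.asIdeal)).toAffine.Point = (Ideal.absNorm w.asIdeal + 1) ^ 2) := by
  classical
  obtain ⟨l, f, hl, hlw, hf, hNw⟩ := below_W w
  have hlΔ : ¬ (l : ℤ) ∣ W.Δ := by
    rw [← rh_int w.isPrime.ne_top hl hlw]
    exact hΔ
  obtain ⟨α, β, h1, h2⟩ := rh_roots ((l : ℂ) + 1 - (Nat.card (W⁄(ZMod l)).toAffine.Point : ℂ)) (l : ℂ)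
  have hnr : ∀ w' : HeightOneSpectrum (𝓞 L'), w.asIdeal = w'.asIdeal.under (𝓞 K') →
      ¬ ∀ a : 𝓞 F, algebraMap (𝓞 F) (𝓞 L') (a - cj a) ∈ w'.asIdeal := by
    intro w' hw hall
    obtain ⟨v', hv', -, -, -⟩ := H55K.DD.below (F := F) (m := m) w'
    have h3 := hram_of hH v' fun a => by
      rw [hv', Ideal.under_def, Ideal.mem_comap]
      exact hall a
    rw [rh_disc, rh_int v'.isPrime.ne_top hl (rh_under hv' (rh_over hw hlw))] at h3
    exact hlΔ h3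
  rcases quad_primes hQ w with ⟨w₁, w₂, hne, hN1, hN2, h⟩ | ⟨w₁, hN1, h⟩ | ⟨w₁, hN1, h⟩
  · exact Or.inl ⟨w₁, w₂, hne, hN1, hN2, h⟩
  · right
    have hw1 := (h w₁).2 rfl
    obtain ⟨hodd, hund⟩ := quad_inert hQ w w₁ hN1 h (hnr w₁ hw1) hl hNw
    obtain ⟨v', hv', -, -, -⟩ := H55K.DD.below (F := F) (m := m) w₁
    have hΔ' : (W⁄(𝓞 F)).Δ ∉ v'.asIdeal := by
      rw [rh_disc, rh_int v'.isPrime.ne_top hl (rh_under hv' (rh_over hw1 hlw))]
      exact hlΔ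
    have hm' : ¬ m ≤ v'.asIdeal := fun h3 => hΔ' ((hH.supp v').2 h3)
    have hcard := (inert_F hH.data.hecke (fun v hv _ => hH.deu v hv) hl v' (hv'.trans hund) hΔ' hm').1
    have hβ : β = -α := by
      rw [hcard] at h1
      push_cast at h1
      linear_combination h1
    have hα2 : α ^ 2 = -(l : ℂ) := by
      rw [hβ] at h2
      linear_combination -h2
    have hNw1 : Ideal.absNorm w₁.asIdeal = l ^ (2 * f) := by
      rw [hN1, hNw, ← pow_mul, mul_comm]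
    have c1 := q1_count W w hl hlw hlΔ α β h1 h2 hNw
    have c2 := q1_count W w₁ hl (rh_over hw1 hlw) hlΔ α β h1 h2 hNw1
    have hcurve : (W⁄(𝓞 F))⁄(𝓞 L' ⧸ w₁.asIdeal) = W⁄(𝓞 L' ⧸ w₁.asIdeal) := by
      show (W.map (algebraMap ℤ (𝓞 F))).map (algebraMap (𝓞 F) (𝓞 L' ⧸ w₁.asIdeal)) = W.map (algebraMap ℤ (𝓞 L' ⧸ w₁.asIdeal))
      rw [WeierstrassCurve.map_map]
      congr 1
      exact Subsingleton.elim _ _
    refine ⟨w₁, hN1, h, ?_, ?_⟩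
    · have h5 : ((Nat.card (W⁄(𝓞 K' ⧸ w.asIdeal)).toAffine.Point : ℕ) : ℂ) = ((l ^ f + 1 : ℕ) : ℂ) := by
        rw [c1, hβ, hodd.neg_pow]
        push_cast
        ring
      rw [hNw]
      exact_mod_cast h5
    · have h5 : ((Nat.card (W⁄(𝓞 L' ⧸ w₁.asIdeal)).toAffine.Point : ℕ) : ℂ) = (((l ^ f + 1) ^ 2 : ℕ) : ℂ) := by
        rw [c2, pow_mul α, pow_mul β, hβ, neg_sq, hα2, hodd.neg_pow]
        push_cast
        ring
      rw [hNw, hcurve]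
      exact_mod_cast h5
  · exact absurd hN1 (hnr w₁ ((h w₁).2 rfl))

theorem q_pts {F K' L' : Type} [Field F] [NumberField F] [Field K'] [NumberField K'] [Field L'] [NumberField L'] [Algebra F L']
    [Algebra K' L'] (W : WeierstrassCurve ℤ) (w : HeightOneSpectrum (𝓞 K')) (w' : HeightOneSpectrum (𝓞 L'))
    (h : w.asIdeal = w'.asIdeal.under (𝓞 K')) (hN : Ideal.absNorm w'.asIdeal = Ideal.absNorm w.asIdeal) :
    Nat.card ((W⁄(𝓞 F))⁄(𝓞 L' ⧸ w'.asIdeal)).toAffine.Point = Nat.card (W⁄(𝓞 K' ⧸ w.asIdeal)).toAffine.Point := by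
  have hm := w.isMaximal
  have hm' := w'.isMaximal
  let _i : Field (𝓞 K' ⧸ w.asIdeal) := Ideal.Quotient.field w.asIdeal
  let _i' : Field (𝓞 L' ⧸ w'.asIdeal) := Ideal.Quotient.field w'.asIdeal
  have c1 : Nat.card (𝓞 K' ⧸ w.asIdeal) = Ideal.absNorm w.asIdeal := rfl
  have c2 : Nat.card (𝓞 L' ⧸ w'.asIdeal) = Ideal.absNorm w'.asIdeal := rfl
  have hfin : Finite (𝓞 L' ⧸ w'.asIdeal) := Ideal.finiteQuotientOfFreeOfNeBot _ w'.ne_bot
  let g : 𝓞 K' ⧸ w.asIdeal →+* 𝓞 L' ⧸ w'.asIdeal := Ideal.quotientMap w'.asIdeal (algebraMap (𝓞 K') (𝓞 L')) (le_of_eq h)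
  have hbij : Function.Bijective g := g.injective.bijective_of_nat_card_le (by rw [c1, c2, hN])
  have hcurve : (W⁄(𝓞 F))⁄(𝓞 L' ⧸ w'.asIdeal) = (W⁄(𝓞 K' ⧸ w.asIdeal)).map ((RingEquiv.ofBijective g hbij : _ ≃+* _) : 𝓞 K' ⧸ w.asIdeal →+* 𝓞 L' ⧸ w'.asIdeal) := by
    show (W.map (algebraMap ℤ (𝓞 F))).map (algebraMap (𝓞 F) (𝓞 L' ⧸ w'.asIdeal)) = (W.map (algebraMap ℤ (𝓞 K' ⧸ w.asIdeal))).map _
    rw [WeierstrassCurve.map_map, WeierstrassCurve.map_map]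
    congr 1
    exact Subsingleton.elim _ _
  rw [hcurve]
  exact H55P.pz10_card _ _

end H13T
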