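import Mathlib
import Pool.Agent.Lib.H55R.Defs
import Pool.Agent.Lib.H41S.Int

/-! Chunk Q2 (M). Ramification in a square of fields: K' ⊆ K, K' ⊆ L' ⊆ L, K ⊆ L; K/K' and L/L' Galois of degree p (odd prime), [L:K] ≤ 2, w' a prime of L' above w with ramification index 1.
q_square. PROOF. P̃ a prime of L above w', P = P̃ ∩ K, above w. e(P̃|w) = e(P̃|P) e(P|w) = e(P̃|w') e(w'|w) = e(P̃|w') (Ideal.ramificationIdx tower for the rings of integers). In the Galois extensions e(P|w) = es K' K w and e(P̃|w') = es L' L w' (Ideal.ramificationIdxIn_eq_ramificationIdx) divide the degree p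
(Ideal.ncard_primesOver_mul_ramificationIdxIn_mul_inertiaDegIn), so they are 1 or p; e(P̃|P) is at most [L:K] ≤ 2 < p and positive. So e(P|w) = 1 iff e(P̃|w') = 1.
q_es_iff: es ≠ 1 iff some prime P above w has ramification index ≠ 1 (all have the same). q_un, q_un2: the quadratic extension L'/K' is Galois, g e f = 2: g = 2 or f = 2 (Ideal.absNorm_eq_pow_inertiaDeg'_of_liesOver as in H55K.TQ.quad_primes, Lib/H55K/RB1.lean).
q_bij: algebraMap K' L' is bijective: the ring isomorphism 𝓞 K' ≃+* 𝓞 L' (NumberField.RingOfIntegers.mapRingEquiv) gives the prime w₁ = the image of w. -/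

open NumberField IsDedekindDomain

namespace H13T

open H55R (Pl es fs)

theorem q_es {K' K : Type} [Field K'] [NumberField K'] [Field K] [NumberField K] [Algebra K' K] [IsGalois K' K] (w : Pl K')
    (P : Ideal (𝓞 K)) (hPp : P.IsPrime) (hP : P.under (𝓞 K') = w.asIdeal) : es K' K w = P.ramificationIdx (𝓞 K') := by
  have hl : P.LiesOver w.asIdeal := ⟨hP.symm⟩
  have hm := w.isMaximal
  show w.asIdeal.ramificationIdxIn (𝓞 K) = _
  exact Ideal.ramificationIdxIn_eq_ramificationIdx w.asIdeal P Gal(K/K')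

theorem q_es_iff {K' K : Type} [Field K'] [NumberField K'] [Field K] [NumberField K] [Algebra K' K] [IsGalois K' K] (w : Pl K') :
    es K' K w ≠ 1 ↔ ∃ P : Pl K, P.asIdeal.under (𝓞 K') = w.asIdeal ∧ P.asIdeal.ramificationIdx (𝓞 K') ≠ 1 := by
  constructor
  · intro h
    obtain ⟨P, hP⟩ := H55R.under_exists (L := K) w
    have hP' : P.asIdeal.under (𝓞 K') = w.asIdeal := congrArg HeightOneSpectrum.asIdeal hP
    refine ⟨P, hP', ?_⟩
    rwa [← q_es w P.asIdeal P.isPrime hP']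
  · rintro ⟨P, hP, h⟩
    rwa [q_es w P.asIdeal P.isPrime hP]

theorem q_gef {K' L' : Type} [Field K'] [NumberField K'] [Field L'] [NumberField L'] [Algebra K' L'] (h2 : Module.finrank K' L' = 2) :
    IsGalois K' L' ∧ ∀ (w : Pl K') (w₁ : Pl L'), w.asIdeal = w₁.asIdeal.under (𝓞 K') →
      (w.asIdeal.primesOver (𝓞 L')).ncard * (w₁.asIdeal.ramificationIdx (𝓞 K') * w.asIdeal.inertiaDegIn (𝓞 L')) = 2 ∧
      Ideal.absNorm w₁.asIdeal = Ideal.absNorm w.asIdeal ^ (w.asIdeal.inertiaDegIn (𝓞 L')) := by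
  have : Algebra.IsQuadraticExtension K' L' := ⟨h2⟩
  have hgal : IsGalois K' L' := inferInstance
  refine ⟨hgal, fun w w₁ h => ?_⟩
  have hm := w.isMaximal
  have hlies : w₁.asIdeal.LiesOver w.asIdeal := ⟨h⟩
  have hid := Ideal.ncard_primesOver_mul_ramificationIdxIn_mul_inertiaDegIn w.asIdeal (𝓞 L') Gal(L'/K')
  rw [IsGalois.card_aut_eq_finrank, h2, Ideal.ramificationIdxIn_eq_ramificationIdx w.asIdeal w₁.asIdeal Gal(L'/K')] at hid
  refine ⟨hid, ?_⟩
  have h3 := Ideal.absNorm_eq_pow_inertiaDeg'_of_liesOver w₁.asIdeal w.asIdeal w.isPrime w.ne_bot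
  rw [Ideal.inertiaDeg'_algebraMap] at h3
  rw [h3, Ideal.inertiaDegIn_eq_inertiaDeg w.asIdeal w₁.asIdeal Gal(L'/K'),
    Ideal.inertiaDeg_eq_of_isMaximal w.asIdeal w₁.asIdeal]

/-- extensions of degree at most 2 are Galois -/
theorem q_gal2 {K L : Type} [Field K] [NumberField K] [Field L] [NumberField L] [Algebra K L] (h : Module.finrank K L ≤ 2) :
    IsGalois K L := by
  have hpos := Module.finrank_pos (R := K) (M := L)
  rcases (show Module.finrank K L = 1 ∨ Module.finrank K L = 2 by omega) with h1 | h1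
  · have h2 := Subalgebra.bot_eq_top_of_finrank_eq_one h1
    have hb : Function.Bijective (algebraMap K L) := Algebra.bijective_algebraMap_iff.2 h2.symm
    exact IsGalois.of_algEquiv (AlgEquiv.ofBijective (Algebra.ofId K L) hb)
  · exact (q_gef h1).1

theorem q_un {K' L' : Type} [Field K'] [NumberField K'] [Field L'] [NumberField L'] [Algebra K' L'] (h2 : Module.finrank K' L' = 2)
    (w : Pl K') (w₁ w₂ : Pl L') (hne : w₁ ≠ w₂) (h₁ : w.asIdeal = w₁.asIdeal.under (𝓞 K')) (h₂ : w.asIdeal = w₂.asIdeal.under (𝓞 K')) :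
    w₁.asIdeal.ramificationIdx (𝓞 K') = 1 ∧ w₂.asIdeal.ramificationIdx (𝓞 K') = 1 := by
  obtain ⟨-, h⟩ := q_gef h2
  have hm := w.isMaximal
  have hfin : (w.asIdeal.primesOver (𝓞 L')).Finite := IsDedekindDomain.primesOver_finite w.asIdeal (𝓞 L')
  have hg : 1 < (w.asIdeal.primesOver (𝓞 L')).ncard := by
    rw [Set.one_lt_ncard hfin]
    refine ⟨w₁.asIdeal, ⟨w₁.isPrime, ⟨h₁⟩⟩, w₂.asIdeal, ⟨w₂.isPrime, ⟨h₂⟩⟩, fun h => hne (HeightOneSpectrum.ext h)⟩
  have key : ∀ w' : Pl L', w.asIdeal = w'.asIdeal.under (𝓞 K') → w'.asIdeal.ramificationIdx (𝓞 K') = 1 := by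
    intro w' hw'
    obtain ⟨h3, -⟩ := h w w' hw'
    have h4 : (w.asIdeal.primesOver (𝓞 L')).ncard ∣ 2 := ⟨_, h3.symm⟩
    rcases (Nat.dvd_prime Nat.prime_two).1 h4 with h5 | h5
    · omega
    · rw [h5] at h3
      have h6 : w'.asIdeal.ramificationIdx (𝓞 K') * w.asIdeal.inertiaDegIn (𝓞 L') = 1 := by omega
      exact Nat.eq_one_of_mul_eq_one_right h6
  exact ⟨key w₁ h₁, key w₂ h₂⟩

theorem q_un2 {K' L' : Type} [Field K'] [NumberField K'] [Field L'] [NumberField L'] [Algebra K' L'] (h2 : Module.finrank K' L' = 2)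
    (w : Pl K') (w₁ : Pl L') (h₁ : w.asIdeal = w₁.asIdeal.under (𝓞 K')) (hN : Ideal.absNorm w₁.asIdeal = Ideal.absNorm w.asIdeal ^ 2) :
    w₁.asIdeal.ramificationIdx (𝓞 K') = 1 := by
  obtain ⟨h3, h4⟩ := (q_gef h2).2 w w₁ h₁
  rw [h4] at hN
  have hw : 1 < Ideal.absNorm w.asIdeal := by
    have h5 : Ideal.absNorm w.asIdeal ≠ 0 := fun h => w.ne_bot (Ideal.absNorm_eq_zero_iff.1 h)
    have h6 : Ideal.absNorm w.asIdeal ≠ 1 := fun h => w.isPrime.ne_top (Ideal.absNorm_eq_one_iff.1 h)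
    omega
  have h5 : w.asIdeal.inertiaDegIn (𝓞 L') = 2 := Nat.pow_right_injective hw hN
  rw [h5] at h3
  have h6 : (w.asIdeal.primesOver (𝓞 L')).ncard * w₁.asIdeal.ramificationIdx (𝓞 K') = 1 := by
    have : (w.asIdeal.primesOver (𝓞 L')).ncard * w₁.asIdeal.ramificationIdx (𝓞 K') * 2 = 1 * 2 := by
      rw [mul_assoc, h3]
    exact Nat.eq_of_mul_eq_mul_right (by norm_num) this
  exact Nat.eq_one_of_mul_eq_one_left h6

theorem q_square {K' K L' L : Type} [Field K'] [NumberField K'] [Field K] [NumberField K] [Field L'] [NumberField L'] [Field L]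
    [NumberField L] [Algebra K' K] [Algebra K' L'] [Algebra K L] [Algebra L' L] [Algebra K' L] [IsScalarTower K' K L]
    [IsScalarTower K' L' L] [IsGalois K' K] [IsGalois L' L] {p : ℕ} (hp : p.Prime) (hp2 : p ≠ 2) (h1 : Module.finrank K' K = p)
    (h2 : Module.finrank L' L = p) (h3 : Module.finrank K L ≤ 2) (w : Pl K') (w' : Pl L') (hw : w.asIdeal = w'.asIdeal.under (𝓞 K'))
    (he : w'.asIdeal.ramificationIdx (𝓞 K') = 1) : es L' L w' ≠ 1 ↔ es K' K w ≠ 1 := by
  obtain ⟨Q, hQ⟩ := H55R.under_exists (L := L) w'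
  have hQ' : Q.asIdeal.under (𝓞 L') = w'.asIdeal := congrArg HeightOneSpectrum.asIdeal hQ
  let P : Pl K := HeightOneSpectrum.under (𝓞 K) Q
  have hP : Q.asIdeal.under (𝓞 K) = P.asIdeal := rfl
  have hPw : P.asIdeal.under (𝓞 K') = w.asIdeal := by
    rw [← hP, Ideal.under_under, hw, ← hQ', Ideal.under_under]
  have hQp := Q.isPrime
  have hPp := P.isPrime
  have hwp := w'.isPrime
  have l1 : Q.asIdeal.LiesOver P.asIdeal := ⟨hP.symm⟩
  have l2 : Q.asIdeal.LiesOver w'.asIdeal := ⟨hQ'.symm⟩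
  have t1 := Ideal.ramificationIdx_tower (R := 𝓞 K') P.asIdeal Q.asIdeal
  have t2 := Ideal.ramificationIdx_tower (R := 𝓞 K') w'.asIdeal Q.asIdeal
  rw [he, one_mul] at t2
  have e1 := q_es w P.asIdeal P.isPrime hPw
  have e2 := q_es w' Q.asIdeal Q.isPrime hQ'
  rw [← e2, t1, ← e1] at t2
  -- bounds
  obtain ⟨T1, -, hT1⟩ := H55P.pt10_card (K' := K) w
  obtain ⟨T2, -, hT2⟩ := H55P.pt10_card (K' := L) w'
  have d1 : es K' K w ∣ p := ⟨T1.card * fs K' K w, by rw [← h1, ← hT1]; ring⟩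
  have d2 : es L' L w' ∣ p := ⟨T2.card * fs L' L w', by rw [← h2, ← hT2]; ring⟩
  have hle : Q.asIdeal.ramificationIdx (𝓞 K) ≤ 2 := by
    have hG : IsGalois K L := q_gal2 h3
    obtain ⟨T3, -, hT3⟩ := H55P.pt10_card (K' := L) P
    rw [← q_es P Q.asIdeal Q.isPrime hP]
    have hpos : 0 < T3.card * fs K L P := by
      rcases Nat.eq_zero_or_pos (T3.card * fs K L P) with h0 | h0
      · have h5 : T3.card * (es K L P * fs K L P) = es K L P * (T3.card * fs K L P) := by ring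
        rw [h5, h0, mul_zero] at hT3
        have := Module.finrank_pos (R := K) (M := L)
        omega
      · exact h0
    calc es K L P ≤ es K L P * (T3.card * fs K L P) := Nat.le_mul_of_pos_right _ hpos
      _ = T3.card * (es K L P * fs K L P) := by ring
      _ ≤ 2 := by rw [hT3]; exact h3
  rcases (Nat.dvd_prime hp).1 d1 with h4 | h4
  · rcases (Nat.dvd_prime hp).1 d2 with h5 | h5
    · rw [h4, h5]
    · rw [h4, h5, one_mul] at t2
      have := hp.two_le
      omega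
  · rcases (Nat.dvd_prime hp).1 d2 with h5 | h5
    · rw [h4, h5] at t2
      have h6 := Nat.eq_one_of_mul_eq_one_right t2
      exact absurd h6 hp.one_lt.ne'
    · rw [h4, h5]

/-- A prime ramified in K does not contain p if p is unramified in K. -/
theorem q_p {K' K : Type} [Field K'] [NumberField K'] [Field K] [NumberField K] [Algebra K' K] [IsGalois K' K] {p : ℕ} (hp : p.Prime)
    (hU : H55P.UnrP p K) (w : Pl K') (he : es K' K w ≠ 1) : (p : 𝓞 K') ∉ w.asIdeal :=
  fun h => he (H55P.pt10_ram K' K p hU w h)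

theorem q_bij {K' L' : Type} [Field K'] [NumberField K'] [Field L'] [NumberField L'] [Algebra K' L']
    (hb : Function.Bijective (algebraMap K' L')) (w : Pl K') : ∃ w₁ : Pl L', Ideal.absNorm w₁.asIdeal = Ideal.absNorm w.asIdeal ∧
      w₁.asIdeal.ramificationIdx (𝓞 K') = 1 ∧ ∀ w' : Pl L', w.asIdeal = w'.asIdeal.under (𝓞 K') ↔ w' = w₁ := by
  have h1 : Module.finrank K' L' = 1 := by
    let e : K' ≃ₗ[K'] L' := LinearEquiv.ofBijective (Algebra.linearMap K' L') hb
    rw [← e.finrank_eq, Module.finrank_self]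
  obtain ⟨w₁, hw₁⟩ := H55R.under_exists (L := L') w
  have h₁ : w₁.asIdeal.under (𝓞 K') = w.asIdeal := congrArg HeightOneSpectrum.asIdeal hw₁
  have hm := w.isMaximal
  have hlies : w₁.asIdeal.LiesOver w.asIdeal := ⟨h₁.symm⟩
  have hgal : IsGalois K' L' := q_gal2 (by omega)
  obtain ⟨T, hT, hc⟩ := H55P.pt10_card (K' := L') w
  rw [h1] at hc
  have hT1 : T.card = 1 := Nat.eq_one_of_mul_eq_one_right hc
  have hef : es K' L' w * fs K' L' w = 1 := Nat.eq_one_of_mul_eq_one_left hc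
  have he : es K' L' w = 1 := Nat.eq_one_of_mul_eq_one_right hef
  have hf : fs K' L' w = 1 := Nat.eq_one_of_mul_eq_one_left hef
  obtain ⟨W, hW⟩ := Finset.card_eq_one.1 hT1
  have hWw : w₁ = W := by
    rw [← Finset.mem_singleton, ← hW, hT]
    exact h₁
  refine ⟨w₁, ?_, ?_, fun w' => ?_⟩
  · rw [← Ideal.absNorm_relNorm (𝓞 K') (𝓞 L') w₁.asIdeal, H55R.CH2_norm w w₁ h₁, hf, pow_one]
  · rw [← q_es w w₁.asIdeal w₁.isPrime h₁, he]
  · constructor
    · intro h
      rw [hWw, ← Finset.mem_singleton, ← hW, hT]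
      exact h.symm
    · rintro rfl
      exact h₁.symm

end H13T
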