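import Mathlib
import Pool.Agent.Lib.H13T.C0
import Pool.Agent.Lib.H13T.Stm
import Pool.Agent.Lib.H55K.RP1
import Pool.Agent.Lib.H55K.RP2
import Pool.Agent.Lib.SSG.Z.L6
import Pool.Agent.Lib.H13R.K0
import Pool.Agent.Lib.H55P.S13

/-! Chunk Q3 (M/L). The cyclic tower over F: from the abstract fields M ⊆ K' ⊆ K (CycT) and an embedding ιK : K → Ω to the intermediate fields KG F M (emb ιK) ≤ KG F K' (emb ιK) ≤ KG F K ιK (the fields generated by F).
q_le: adjoin_mono: range of emb ιK on K' is contained in the range of ιK (emb ιK x = ιK (algebraMap K' K x)); for M: CycT.tow: algebraMap M K = algebraMap K' K ∘ algebraMap M K'.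
q_deg: d = finrank ℚ (KG F K ιK) / finrank ℚ K is 1 (F ⊆ ιK K) or 2 (kg_index in Lib/SSG/Z/L6.lean gives finrank ℚ (KG F K ι) = finrank ℚ K or 2 finrank ℚ K), and it is the same for K and K': [K:K'] = p is odd. If F ⊆ ι K' then F ⊆ ι K. If F ⊆ ι K but not in ι K': [KG F K' : K'] = 2 and KG F K' ⊆ KG F K = ι K, so 2 divides [K:K'] = p.
So: Module.finrank ℚ (KG F K' ..) = d * Module.finrank ℚ K' with the same d ∈ {1, 2}; the same for M ([K:M] = p^(n+1) odd).
q_gal: elements s of Gal(Ω/F) fixing ι M (equivalently KG F M) map ι K to itself (K/M normal: ιK and s ∘ ιK are two embeddings of K over M; IsGalois: AlgHom.restrictNormal or Normal) and so KG F K to itself.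
q_gam: a generator σ of Gal(K/M) extends to an element γ of Gal(Ω/F) fixing KG F M with γ (ιK x) = ιK (σ x): the extension KG F K / KG F M is Galois of degree p^(n+1) (q_deg) and the restriction Gal(KG F K/KG F M) → Gal(K/M) is injective (KG F K is generated by F and ι K), both have p^(n+1) elements, so it is surjective; lift to Ω (H55P.s3_lift in Lib/H55P/S3.lean). -/

open NumberField IsDedekindDomain WeierstrassCurve

namespace H13T

open H55P (IQ)
open H55K H55K.TQ

variable {F : Type} [Field F] [NumberField F] [IQ F] {p n : ℕ} {M K' K : Type} [Field M] [NumberField M]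
    [Field K'] [NumberField K'] [Field K] [NumberField K] [Algebra M K'] [Algebra K' K] [Algebra M K]

theorem emb_apply (ιK : K →ₐ[ℚ] AlgebraicClosure F) (x : K') :
    (emb ιK : K' →ₐ[ℚ] AlgebraicClosure F) x = ιK (algebraMap K' K x) := rfl

theorem q_le (h : CycT p n M K' K) (ιK : K →ₐ[ℚ] AlgebraicClosure F) :
    KG F M (emb ιK : M →ₐ[ℚ] AlgebraicClosure F) ≤ KG F K' (emb ιK : K' →ₐ[ℚ] AlgebraicClosure F) ∧
      KG F K' (emb ιK : K' →ₐ[ℚ] AlgebraicClosure F) ≤ KG F K ιK := by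
  have ht := h.tow
  constructor
  · apply IntermediateField.adjoin.mono
    rintro _ ⟨x, rfl⟩
    refine ⟨algebraMap M K' x, ?_⟩
    show ιK (algebraMap K' K (algebraMap M K' x)) = ιK (algebraMap M K x)
    rw [← IsScalarTower.algebraMap_apply M K' K]
  · apply IntermediateField.adjoin.mono
    rintro _ ⟨x, rfl⟩
    exact ⟨algebraMap K' K x, rfl⟩

/-- F is contained in the image of K: the degrees agree. -/
theorem q3_one {K : Type} [Field K] [NumberField K] (ι : K →ₐ[ℚ] AlgebraicClosure F) (f : F →+* K)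
    (hf : ∀ y : F, ι (f y) = algebraMap F (AlgebraicClosure F) y) : Module.finrank ℚ (KG F K ι) = Module.finrank ℚ K := by
  letI : Algebra F K := f.toAlgebra
  obtain ⟨e⟩ := kg_iso F K ι f hf
  let e' : K →+* KG F K ι := (e : K ≃+* KG F K ι)
  let g : K →ₗ[ℚ] KG F K ι :=
    { toFun := e'
      map_add' := map_add e'
      map_smul' := fun q x => by
        rw [RingHom.id_apply, Rat.smul_def, map_mul, map_ratCast, Rat.smul_def] }
  exact (LinearEquiv.finrank_eq (LinearEquiv.ofBijective g ⟨e.injective, e.surjective⟩)).symm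

/-- The two cases. -/
theorem q3_dich {K : Type} [Field K] [NumberField K] (ι : K →ₐ[ℚ] AlgebraicClosure F) :
    (∃ f : F →+* K, ∀ y : F, ι (f y) = algebraMap F (AlgebraicClosure F) y) ∨
      Module.finrank ℚ (KG F K ι) = 2 * Module.finrank ℚ K := by
  have hn : NumberField (KG F K ι) := H13R.kg_nf F K ι
  rcases kg_dich F K ι with h | hQ
  · exact Or.inl h
  · right
    letI : Algebra K (KG F K ι) := (KGmap F K ι).toAlgebra
    have h1 := Module.finrank_mul_finrank ℚ K (KG F K ι)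
    rw [hQ.rank] at h1
    rw [← h1, mul_comm]

omit [IQ F] in
theorem q3_dvd {A B : IntermediateField F (AlgebraicClosure F)} (hAB : A ≤ B) : Module.finrank ℚ A ∣ Module.finrank ℚ B := by
  rw [← Module.finrank_mul_finrank ℚ F A, ← Module.finrank_mul_finrank ℚ F B]
  exact Nat.mul_dvd_mul_left _ (IntermediateField.finrank_dvd_of_le_right hAB)

theorem q3_two {K : Type} [Field K] [NumberField K] (ι : K →ₐ[ℚ] AlgebraicClosure F) {A : IntermediateField F (AlgebraicClosure F)}
    (hA : A ≤ KG F K ι) {a b : ℕ} (ha : 0 < a) (h1 : Module.finrank ℚ A = 2 * a) (h2 : Module.finrank ℚ K = a * b) (hb : Odd b) :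
    Module.finrank ℚ (KG F K ι) = 2 * Module.finrank ℚ K := by
  rcases q3_dich ι with ⟨f, hf⟩ | h
  · exfalso
    have h3 := q3_dvd hA
    rw [h1, q3_one ι f hf, h2, mul_comm 2 a] at h3
    have h4 := Nat.dvd_of_mul_dvd_mul_left ha h3
    obtain ⟨k, hk⟩ := hb
    omega
  · exact h

theorem q_deg (hp : p.Prime) (hp2 : p ≠ 2) (h : CycT p n M K' K) (ιK : K →ₐ[ℚ] AlgebraicClosure F) :
    ∃ d : ℕ, (d = 1 ∨ d = 2) ∧ Module.finrank ℚ (KG F K ιK) = d * Module.finrank ℚ K ∧
      Module.finrank ℚ (KG F K' (emb ιK : K' →ₐ[ℚ] AlgebraicClosure F)) = d * Module.finrank ℚ K' ∧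
      Module.finrank ℚ (KG F M (emb ιK : M →ₐ[ℚ] AlgebraicClosure F)) = d * Module.finrank ℚ M := by
  have ht := h.tow
  have hodd := hp.odd_of_ne_two hp2
  obtain ⟨hle1, hle2⟩ := q_le h ιK
  rcases q3_dich (emb ιK : M →ₐ[ℚ] AlgebraicClosure F) with ⟨f, hf⟩ | h2
  · have hf' : ∀ y : F, (emb ιK : K' →ₐ[ℚ] AlgebraicClosure F) (((algebraMap M K').comp f) y) = algebraMap F (AlgebraicClosure F) y := by
      intro y
      rw [← hf y]
      show ιK (algebraMap K' K (algebraMap M K' (f y))) = ιK (algebraMap M K (f y))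
      rw [← IsScalarTower.algebraMap_apply M K' K]
    have hf'' : ∀ y : F, ιK (((algebraMap M K).comp f) y) = algebraMap F (AlgebraicClosure F) y := hf
    refine ⟨1, Or.inl rfl, ?_, ?_, ?_⟩
    · rw [one_mul]
      exact q3_one ιK _ hf''
    · rw [one_mul]
      exact q3_one _ _ hf'
    · rw [one_mul]
      exact q3_one _ f hf
  · have hpos : 0 < Module.finrank ℚ M := Module.finrank_pos
    have hK' : Module.finrank ℚ K' = Module.finrank ℚ M * p ^ n := by
      rw [← Module.finrank_mul_finrank ℚ M K', h.sub]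
    have hK : Module.finrank ℚ K = Module.finrank ℚ M * p ^ (n + 1) := by
      rw [← Module.finrank_mul_finrank ℚ M K, h.deg]
    exact ⟨2, Or.inr rfl, q3_two ιK (hle1.trans hle2) hpos h2 hK hodd.pow, q3_two _ hle1 hpos h2 hK' hodd.pow, h2⟩

omit [IQ F] in
theorem q_fix (ιK : K →ₐ[ℚ] AlgebraicClosure F) (s : AlgebraicClosure F ≃ₐ[F] AlgebraicClosure F) :
    s ∈ (KG F K ιK).fixingSubgroup ↔ ∀ x : K, s (ιK x) = ιK x := by
  rw [IntermediateField.mem_fixingSubgroup_iff]
  constructor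
  · intro h x
    exact h _ (IntermediateField.subset_adjoin F _ ⟨x, rfl⟩)
  · intro h x hx
    refine IntermediateField.adjoin_induction F (p := fun x _ => s x = x) ?_ ?_ ?_ ?_ ?_ hx
    · rintro _ ⟨y, rfl⟩
      exact h y
    · exact fun x => s.commutes x
    · intro x y _ _ h1 h2
      rw [map_add, h1, h2]
    · intro x _ h1
      rw [map_inv₀, h1]
    · intro x y _ _ h1 h2
      rw [map_mul, h1, h2]

theorem q_gal (h : CycT p n M K' K) (ιK : K →ₐ[ℚ] AlgebraicClosure F) (s : AlgebraicClosure F ≃ₐ[F] AlgebraicClosure F)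
    (hs : s ∈ (KG F M (emb ιK : M →ₐ[ℚ] AlgebraicClosure F)).fixingSubgroup) :
    ∃ σ : K ≃ₐ[M] K, ∀ x : K, s (ιK x) = ιK (σ x) := by
  have hg := h.gal
  rw [q_fix] at hs
  letI : Algebra M (AlgebraicClosure F) := (emb ιK : M →ₐ[ℚ] AlgebraicClosure F).toRingHom.toAlgebra
  letI : Algebra K (AlgebraicClosure F) := ιK.toRingHom.toAlgebra
  have t : IsScalarTower M K (AlgebraicClosure F) := IsScalarTower.of_algebraMap_eq fun x => rfl
  let χ : AlgebraicClosure F ≃ₐ[M] AlgebraicClosure F := AlgEquiv.ofRingEquiv (f := (s : AlgebraicClosure F ≃+* AlgebraicClosure F)) hs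
  refine ⟨χ.restrictNormal K, fun x => ?_⟩
  exact (AlgEquiv.restrictNormal_commutes χ K x).symm

/-- The field FK is stable. -/
theorem q_nrm (h : CycT p n M K' K) (ιK : K →ₐ[ℚ] AlgebraicClosure F) (s : AlgebraicClosure F ≃ₐ[F] AlgebraicClosure F)
    (hs : s ∈ (KG F M (emb ιK : M →ₐ[ℚ] AlgebraicClosure F)).fixingSubgroup) (x : AlgebraicClosure F) (hx : x ∈ KG F K ιK) :
    s x ∈ KG F K ιK := by
  obtain ⟨σ, hσ⟩ := q_gal h ιK s hs
  refine IntermediateField.adjoin_induction F (p := fun x _ => s x ∈ KG F K ιK) ?_ ?_ ?_ ?_ ?_ hx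
  · rintro _ ⟨y, rfl⟩
    rw [hσ]
    exact IntermediateField.subset_adjoin F _ ⟨σ y, rfl⟩
  · intro y
    rw [s.commutes]
    exact (KG F K ιK).algebraMap_mem y
  · intro x y _ _ h1 h2
    rw [map_add]
    exact add_mem h1 h2
  · intro x _ h1
    rw [map_inv₀]
    exact inv_mem h1
  · intro x y _ _ h1 h2
    rw [map_mul]
    exact mul_mem h1 h2

/-- The degrees over F. -/
theorem q_degF (hp : p.Prime) (hp2 : p ≠ 2) (h : CycT p n M K' K) (ιK : K →ₐ[ℚ] AlgebraicClosure F) :
    Module.finrank F (KG F K ιK) = Module.finrank F (KG F M (emb ιK : M →ₐ[ℚ] AlgebraicClosure F)) * p ^ (n + 1) ∧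
      Module.finrank F (KG F K ιK) = Module.finrank F (KG F K' (emb ιK : K' →ₐ[ℚ] AlgebraicClosure F)) * p := by
  have ht := h.tow
  obtain ⟨d, hd, h1, h2, h3⟩ := q_deg hp hp2 h ιK
  have hK' : Module.finrank ℚ K' = Module.finrank ℚ M * p ^ n := by
    rw [← Module.finrank_mul_finrank ℚ M K', h.sub]
  have hK : Module.finrank ℚ K = Module.finrank ℚ M * p ^ (n + 1) := by
    rw [← Module.finrank_mul_finrank ℚ M K, h.deg]
  rw [← Module.finrank_mul_finrank ℚ F] at h1 h2 h3
  have hF : 0 < Module.finrank ℚ F := Module.finrank_pos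
  constructor
  · apply Nat.eq_of_mul_eq_mul_left hF
    rw [h1, ← mul_assoc, h3, hK, mul_assoc]
  · apply Nat.eq_of_mul_eq_mul_left hF
    rw [h1, ← mul_assoc, h2, hK, hK', pow_succ, mul_assoc, mul_assoc]

theorem q_gam (hp : p.Prime) (hp2 : p ≠ 2) (h : CycT p n M K' K) (ιK : K →ₐ[ℚ] AlgebraicClosure F) (σ : K ≃ₐ[M] K) :
    ∃ γ ∈ (KG F M (emb ιK : M →ₐ[ℚ] AlgebraicClosure F)).fixingSubgroup, ∀ x : K, γ (ιK x) = ιK (σ x) := by
  have hg := h.gal
  obtain ⟨hle1, hle2⟩ := q_le h ιK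
  have hfin : FiniteDimensional F (KG F K ιK) := H13R.kg_fin F K ιK
  obtain ⟨hd, -⟩ := q_degF hp hp2 h ιK
  have hnrm := q_nrm h ιK
  have hgal := q_gal h ιK
  obtain ⟨M₀, hM₀⟩ : ∃ M₀ : IntermediateField F (AlgebraicClosure F), M₀ = KG F M (emb ιK : M →ₐ[ℚ] AlgebraicClosure F) := ⟨_, rfl⟩
  have hMN := hle1.trans hle2
  rw [← hM₀] at hd hnrm hgal hMN ⊢
  let _ : Algebra M₀ (KG F K ιK) := H55P.s13_alg hMN
  have hG : IsGalois M₀ (KG F K ιK) := H55P.s13_galois M₀ (KG F K ιK) hMN hnrm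
  have hfM : FiniteDimensional F M₀ := H55P.s13_fin hMN
  have t1 : IsScalarTower F M₀ (KG F K ιK) := IsScalarTower.of_algebraMap_eq fun x => rfl
  have t2 : IsScalarTower M₀ (KG F K ιK) (AlgebraicClosure F) := IsScalarTower.of_algebraMap_eq fun x => rfl
  have hfN : FiniteDimensional M₀ (KG F K ιK) := Module.Finite.of_restrictScalars_finite F M₀ (KG F K ιK)
  have hcard : Module.finrank M₀ (KG F K ιK) = p ^ (n + 1) := by
    have h1 := Module.finrank_mul_finrank F M₀ (KG F K ιK)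
    rw [hd] at h1
    exact Nat.eq_of_mul_eq_mul_left Module.finrank_pos h1
  have hal : Algebra.IsAlgebraic M₀ (AlgebraicClosure F) := Algebra.IsAlgebraic.tower_top (K := F) M₀
  have hcl : IsAlgClosure M₀ (AlgebraicClosure F) := ⟨inferInstance, hal⟩
  have hno : Normal M₀ (AlgebraicClosure F) := IsAlgClosure.normal M₀ (AlgebraicClosure F)
  have key : ∀ t : (KG F K ιK) ≃ₐ[M₀] (KG F K ιK), ∃ s : AlgebraicClosure F ≃ₐ[F] AlgebraicClosure F,
      (∀ x : KG F K ιK, s (x : AlgebraicClosure F) = ((t x : KG F K ιK) : AlgebraicClosure F)) ∧ s ∈ M₀.fixingSubgroup := by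
    intro t
    refine ⟨(t.liftNormal (AlgebraicClosure F)).restrictScalars F, fun x => ?_, ?_⟩
    · exact t.liftNormal_commutes (AlgebraicClosure F) x
    · rw [IntermediateField.mem_fixingSubgroup_iff]
      intro x hx
      exact (t.liftNormal (AlgebraicClosure F)).commutes ⟨x, hx⟩
  choose lft hl1 hl2 using key
  choose Φ hΦ using fun t => hgal (lft t) (hl2 t)
  have hinj : Function.Injective Φ := by
    intro t t' htt
    have h1 : (lft t')⁻¹ * lft t ∈ (KG F K ιK).fixingSubgroup := by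
      rw [q_fix]
      intro x
      have h2 : lft t (ιK x) = lft t' (ιK x) := by rw [hΦ, hΦ, htt]
      rw [AlgEquiv.mul_apply, h2]
      exact (lft t').symm_apply_apply _
    rw [IntermediateField.mem_fixingSubgroup_iff] at h1
    apply AlgEquiv.ext
    intro x
    apply Subtype.ext
    rw [← hl1, ← hl1]
    have h2 := congrArg (lft t') (h1 _ x.2)
    rw [AlgEquiv.mul_apply] at h2
    have h3 : lft t' ((lft t')⁻¹ (lft t (x : AlgebraicClosure F))) = lft t (x : AlgebraicClosure F) := (lft t').apply_symm_apply _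
    rwa [h3] at h2
  have hfMK : FiniteDimensional M K := Module.Finite.of_restrictScalars_finite ℚ M K
  have hsurj := (hinj.bijective_of_nat_card_le (by
    rw [IsGalois.card_aut_eq_finrank, IsGalois.card_aut_eq_finrank, h.deg, hcard])).2
  obtain ⟨t, ht⟩ := hsurj σ
  exact ⟨lft t, hl2 t, fun x => by rw [hΦ, ht]⟩

end H13T
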