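import Mathlib
import Pool.Agent.Lib.H13T.Q3

/-! Chunk Q4 (M). CycI from CycT. γ from q_gam for a generator σ of Gal(K/M) (IsCyclic; orderOf σ = card = p^(n+1): IsGalois.card_aut_eq_finrank, h.deg).
pos, fin (H13R.kg_fin in Lib/H13R/K0.lean), le, le' (q_le), gam; nrm: q_gal: s maps ι K and F into KG F K (IntermediateField.adjoin induction, compare kg_stable in Lib/H55K/RP1.lean). gen: s ↦ σ_s = σ^k (q_gal; IsCyclic; a power with natural exponent: finite group), u = γ^(-k) s fixes ι K, so is in N.fixingSubgroup (q_fix).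
ord: γ^k fixes ι K iff σ^k = 1 (ιK injective) iff p^(n+1) | k. mid: γ^k is in (KG F K').fixingSubgroup iff it fixes ι K' (q_fix for emb ιK, emb_apply) iff σ^k fixes the image of K' in K, iff σ^k is in Gal(K/K') (the subgroup of order p = [K:K'], of index p^n, of the cyclic group: generated by σ^(p^n)) iff p^n | k:
Gal(K/K') as the subgroup S of Gal(K/M) of the elements fixing the image of K' has p elements (IsGalois, IntermediateField.fixingSubgroup of (the image of K' in K as an intermediate field of K/M, degree p^n over M), card = p); in a cyclic group of order p^(n+1) the elements σ^k of the subgroup with p elements are those with p^n | k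
(the order of σ^k divides p iff p^(n+1) | k p iff p^n | k; and a subgroup with p elements is the set of the elements of order dividing p: IsCyclic.card_pow_eq_one_le or Subgroup of a cyclic group determined by its cardinality).
deg, deg': q_deg and the tower formulas: finrank ℚ = finrank ℚ F * finrank F; finrank ℚ K = finrank ℚ M * p^(n+1) = finrank ℚ K' * p (Module.finrank_mul_finrank). -/

open NumberField IsDedekindDomain WeierstrassCurve

namespace H13T

open H55P (IQ)
open H55K H55K.TQ

variable {F : Type} [Field F] [NumberField F] [IQ F] {p n : ℕ} {M K' K : Type} [Field M] [NumberField M]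
    [Field K'] [NumberField K'] [Field K] [NumberField K] [Algebra M K'] [Algebra K' K] [Algebra M K]

/-- K/K' is Galois of degree p. -/
theorem q_step (hp : 0 < p) (h : CycT p n M K' K) : IsGalois K' K ∧ Module.finrank K' K = p := by
  have ht := h.tow
  have hg := h.gal
  refine ⟨IsGalois.tower_top_of_isGalois M K' K, ?_⟩
  have h1 := Module.finrank_mul_finrank M K' K
  rw [h.deg, h.sub, pow_succ] at h1
  exact Nat.eq_of_mul_eq_mul_left (pow_pos hp n) h1

/-- The powers of a generator which fix K'. -/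
theorem q4_mid (hp : 0 < p) (h : CycT p n M K' K) (σ : K ≃ₐ[M] K) (hσ : orderOf σ = p ^ (n + 1)) (k : ℕ) :
    (∀ y : K', (σ ^ k) (algebraMap K' K y) = algebraMap K' K y) ↔ p ^ n ∣ k := by
  classical
  have ht := h.tow
  have hg := h.gal
  have hcyc := h.cyc
  obtain ⟨-, hdeg⟩ := q_step hp h
  have hfMK : FiniteDimensional M K := Module.Finite.of_restrictScalars_finite ℚ M K
  obtain ⟨E, hE⟩ : ∃ E : IntermediateField M K, E = (IsScalarTower.toAlgHom M K' K).fieldRange := ⟨_, rfl⟩
  have hfr : Module.finrank M E = p ^ n := by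
    rw [← h.sub, hE]
    exact (LinearEquiv.finrank_eq (AlgEquiv.ofInjectiveField (IsScalarTower.toAlgHom M K' K)).toLinearEquiv).symm
  have hfr' : Module.finrank E K = p := by
    have h1 := Module.finrank_mul_finrank M E K
    rw [h.deg, hfr, pow_succ] at h1
    exact Nat.eq_of_mul_eq_mul_left (pow_pos hp n) h1
  have hcard : Nat.card E.fixingSubgroup = p := by
    rw [IsGalois.card_fixingSubgroup_eq_finrank, hfr']
  have hmem : ∀ τ : K ≃ₐ[M] K, τ ∈ E.fixingSubgroup ↔ ∀ y : K', τ (algebraMap K' K y) = algebraMap K' K y := by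
    intro τ
    rw [IntermediateField.mem_fixingSubgroup_iff, hE]
    constructor
    · intro h1 y
      exact h1 _ ⟨y, rfl⟩
    · rintro h1 _ ⟨y, rfl⟩
      exact h1 y
  rw [← hmem]
  have hpow : ∀ τ ∈ E.fixingSubgroup, τ ^ p = 1 := by
    intro τ hτ
    have h1 : (⟨τ, hτ⟩ : E.fixingSubgroup) ^ Nat.card E.fixingSubgroup = 1 := pow_card_eq_one'
    rw [hcard] at h1
    exact congrArg Subtype.val h1
  have hset : (E.fixingSubgroup : Set (K ≃ₐ[M] K)) = {τ | τ ^ p = 1} := by
    apply Set.eq_of_subset_of_ncard_le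
    · exact fun τ hτ => hpow τ hτ
    · have h1 : (E.fixingSubgroup : Set (K ≃ₐ[M] K)).ncard = p := hcard
      rw [h1]
      have h2 := IsCyclic.card_pow_eq_one_le (α := K ≃ₐ[M] K) hp
      have h3 : ({τ : K ≃ₐ[M] K | τ ^ p = 1} : Set (K ≃ₐ[M] K)).ncard =
          (Finset.univ.filter fun a : K ≃ₐ[M] K => a ^ p = 1).card := by
        rw [← Set.ncard_coe_finset]
        congr 1
        ext τ
        simp
      rw [h3]
      exact h2
    · exact Set.toFinite _
  have h4 : σ ^ k ∈ E.fixingSubgroup ↔ (σ ^ k) ^ p = 1 := by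
    have h5 : σ ^ k ∈ (E.fixingSubgroup : Set (K ≃ₐ[M] K)) ↔ σ ^ k ∈ {τ : K ≃ₐ[M] K | τ ^ p = 1} := by rw [hset]
    exact h5
  rw [h4, ← pow_mul, ← orderOf_dvd_iff_pow_eq_one, hσ, pow_succ]
  exact Nat.mul_dvd_mul_iff_right hp

theorem q_cyc (hp : p.Prime) (hp2 : p ≠ 2) (hn : 1 ≤ n) (h : CycT p n M K' K) (ιK : K →ₐ[ℚ] AlgebraicClosure F) :
    ∃ γ : AlgebraicClosure F ≃ₐ[F] AlgebraicClosure F, CycI p n (KG F M (emb ιK : M →ₐ[ℚ] AlgebraicClosure F))
      (KG F K' (emb ιK : K' →ₐ[ℚ] AlgebraicClosure F)) (KG F K ιK) γ := by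
  have ht := h.tow
  have hg := h.gal
  have hcyc := h.cyc
  have hfMK : FiniteDimensional M K := Module.Finite.of_restrictScalars_finite ℚ M K
  obtain ⟨σ, hσ⟩ := IsCyclic.exists_generator (α := K ≃ₐ[M] K)
  have hord : orderOf σ = p ^ (n + 1) := by
    rw [orderOf_eq_card_of_forall_mem_zpowers hσ, IsGalois.card_aut_eq_finrank, h.deg]
  obtain ⟨γ, hγ, hγσ⟩ := q_gam hp hp2 h ιK σ
  obtain ⟨hle1, hle2⟩ := q_le h ιK
  obtain ⟨hd1, hd2⟩ := q_degF hp hp2 h ιK
  have hpw : ∀ (k : ℕ) (x : K), (γ ^ k) (ιK x) = ιK ((σ ^ k) x) := by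
    intro k
    induction k with
    | zero => exact fun x => rfl
    | succ k ih =>
      intro x
      rw [pow_succ', pow_succ', AlgEquiv.mul_apply, AlgEquiv.mul_apply, ih, hγσ]
  refine ⟨γ, hn, H13R.kg_fin F K ιK, hle1, hle2, hγ, fun s hs x hx => q_nrm h ιK s hs x hx, fun s hs => ?_, fun k => ?_, fun k => ?_,
    hd1, hd2⟩
  · obtain ⟨τ, hτ⟩ := q_gal h ιK s hs
    obtain ⟨k, hk⟩ := mem_powers_iff_mem_zpowers.2 (hσ τ)
    refine ⟨k, (γ ^ k)⁻¹ * s, ?_, by rw [mul_inv_cancel_left]⟩
    rw [q_fix]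
    intro x
    have hk' : σ ^ k = τ := hk
    rw [AlgEquiv.mul_apply, hτ, ← hk', ← hpw]
    exact (γ ^ k).symm_apply_apply _
  · rw [q_fix, ← hord, orderOf_dvd_iff_pow_eq_one]
    constructor
    · intro h1
      apply AlgEquiv.ext
      intro x
      apply ιK.injective
      show ιK ((σ ^ k) x) = ιK x
      rw [← hpw, h1]
    · intro h1 x
      rw [hpw, h1]
      rfl
  · rw [q_fix, ← q4_mid hp.pos h σ hord k]
    constructor
    · intro h1 y
      apply ιK.injective
      show ιK ((σ ^ k) (algebraMap K' K y)) = ιK (algebraMap K' K y)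
      rw [← hpw]
      exact h1 y
    · intro h1 y
      rw [emb_apply, hpw, h1]

end H13T
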