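import Mathlib
import Pool.Agent.Lib.H13T.Q1
import Pool.Agent.Lib.H13T.Q2
import Pool.Agent.Lib.H13T.Q4
import Pool.Agent.Lib.H55P.T11

/-! Chunk Q5 (M/L). The number of the primes in AnW.
q_fib: Finset.card_eq_sum_card_fiberwise (Set.ncard_eq_toFinset_card).
q_abs is the abstract form: K' ⊆ K, K' ⊆ L' ⊆ L, K ⊆ L, F ⊆ L'; TRI says that the primes of K' are as in q_tri (QuadG) or q_bij (K' = L'). A := {w' of L' | Δ ∉ w', es L' L w' ≠ 1, p | #W(k_w')}, d = [L':K'].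
PROOF. f w' = the prime of K' below w'. (a) w' in A: w = f w', Δ not in w (integer). SPLIT or BIJ: w' has the norm of w, ramification index 1 (q_un, q_bij): p | #W(k_w) (q_pts), es K' K w ≠ 1 (q_square), q_es_iff: w in AnR. INERT: ramification index 1 (q_un2), es K' K w ≠ 1 (q_square), p not in w (q_p), p | N w - 1
(H55P.tame_dvd, Lib/H55P/T11.lean); p | (N w + 1)^2, so p | N w + 1 and p | 2: contradiction. (b) w in AnR: es K' K w ≠ 1 (q_es_iff), p | N w - 1; INERT: p | N w + 1, contradiction; SPLIT: the fiber is {w₁, w₂}, both in A; BIJ: the fiber is {w₁}. Finiteness: H55R.ram_fin (Lib/H55R/X12.lean) for K/K' and L/L'. -/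

open NumberField IsDedekindDomain WeierstrassCurve

namespace H13T

open H55P (IQ UnrP)
open H55K H55K.TQ
open H55R (Pl es fs)

theorem q_fib {α β : Type} {S : Set α} {T : Set β} {f : α → β} {d : ℕ} (hS : S.Finite) (hT : T.Finite) (h1 : ∀ a ∈ S, f a ∈ T)
    (h2 : ∀ b ∈ T, {a ∈ S | f a = b}.ncard = d) : S.ncard = d * T.ncard := by
  classical
  rw [Set.ncard_eq_toFinset_card S hS, Set.ncard_eq_toFinset_card T hT]
  rw [Finset.card_eq_sum_card_fiberwise (f := f) (s := hS.toFinset) (t := hT.toFinset) (fun a ha => by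
    rw [Finset.mem_coe, Set.Finite.mem_toFinset] at ha ⊢
    exact h1 a ha)]
  rw [Finset.sum_congr rfl (g := fun _ => d), Finset.sum_const, smul_eq_mul, mul_comm]
  intro b hb
  rw [Set.Finite.mem_toFinset] at hb
  rw [← h2 b hb, ← Set.ncard_coe_finset]
  congr 1
  ext a
  simp

/-- the disjunction of the primes of K' -/
theorem q_cases {F K' L' : Type} [Field F] [NumberField F] [IQ F] [Field K'] [NumberField K'] [Field L'] [NumberField L']
    [Algebra F L'] [Algebra K' L'] (hQ : Function.Bijective (algebraMap K' L') ∨ QuadG F K' L')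
    {W : WeierstrassCurve ℤ} {Om : ℂ} {m : Ideal (𝓞 F)} {ψ : Ideal (𝓞 F) →*₀ 𝓞 F} (hH : BaseH F (W⁄(𝓞 F)) Om m ψ)
    (w : Pl K') (hΔ : ((W.Δ : ℤ) : 𝓞 K') ∉ w.asIdeal) :
    ({w' : Pl L' | w.asIdeal = w'.asIdeal.under (𝓞 K')}.ncard = Module.finrank K' L' ∧
      ∀ w' : Pl L', w.asIdeal = w'.asIdeal.under (𝓞 K') → Ideal.absNorm w'.asIdeal = Ideal.absNorm w.asIdeal ∧
        w'.asIdeal.ramificationIdx (𝓞 K') = 1) ∨
    (Nat.card (W⁄(𝓞 K' ⧸ w.asIdeal)).toAffine.Point = Ideal.absNorm w.asIdeal + 1 ∧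
      ∀ w' : Pl L', w.asIdeal = w'.asIdeal.under (𝓞 K') → w'.asIdeal.ramificationIdx (𝓞 K') = 1 ∧
        Nat.card ((W⁄(𝓞 F))⁄(𝓞 L' ⧸ w'.asIdeal)).toAffine.Point = (Ideal.absNorm w.asIdeal + 1) ^ 2) := by
  rcases hQ with hb | hQ
  · left
    have h1 : Module.finrank K' L' = 1 := by
      let e : K' ≃ₗ[K'] L' := LinearEquiv.ofBijective (Algebra.linearMap K' L') hb
      rw [← e.finrank_eq, Module.finrank_self]
    obtain ⟨w₁, hN, hr, hw⟩ := q_bij hb w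
    have hset : {w' : Pl L' | w.asIdeal = w'.asIdeal.under (𝓞 K')} = {w₁} := by
      ext w'
      exact hw w'
    refine ⟨by rw [hset, Set.ncard_singleton, h1], fun w' hw' => ?_⟩
    rw [(hw w').1 hw']
    exact ⟨hN, hr⟩
  · have h2 : Module.finrank K' L' = 2 := hQ.rank
    rcases q_tri hQ hH w hΔ with ⟨w₁, w₂, hne, hN1, hN2, hw⟩ | ⟨w₁, hN1, hw, hc1, hc2⟩
    · left
      have hset : {w' : Pl L' | w.asIdeal = w'.asIdeal.under (𝓞 K')} = {w₁, w₂} := by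
        ext w'
        exact hw w'
      obtain ⟨r1, r2⟩ := q_un h2 w w₁ w₂ hne ((hw w₁).2 (Or.inl rfl)) ((hw w₂).2 (Or.inr rfl))
      refine ⟨by rw [hset, Set.ncard_pair hne, h2], fun w' hw' => ?_⟩
      rcases (hw w').1 hw' with rfl | rfl
      · exact ⟨hN1, r1⟩
      · exact ⟨hN2, r2⟩
    · right
      refine ⟨hc1, fun w' hw' => ?_⟩
      rw [(hw w').1 hw']
      exact ⟨q_un2 h2 w w₁ ((hw w₁).2 rfl) hN1, hc2⟩

theorem q_abs {F K' K L' L : Type} [Field F] [NumberField F] [IQ F] [Field K'] [NumberField K'] [Field K] [NumberField K] [Field L'] [NumberField L'] [Field L]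
    [NumberField L] [Algebra F L'] [Algebra K' K] [Algebra K' L'] [Algebra K L] [Algebra L' L] [Algebra K' L] [IsScalarTower K' K L]
    [IsScalarTower K' L' L] [IsGalois K' K] [IsGalois L' L] {p : ℕ} (hp : p.Prime) (hp2 : p ≠ 2) (h1 : Module.finrank K' K = p)
    (h2 : Module.finrank L' L = p) (h3 : Module.finrank K L ≤ 2) (hU : UnrP p K)
    {W : WeierstrassCurve ℤ} {Om : ℂ} {m : Ideal (𝓞 F)} {ψ : Ideal (𝓞 F) →*₀ 𝓞 F} (hH : BaseH F (W⁄(𝓞 F)) Om m ψ)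
    (hQ : Function.Bijective (algebraMap K' L') ∨ QuadG F K' L') :
    (AnR p W K' K).Finite ∧ {w' : Pl L' | algebraMap (𝓞 F) (𝓞 L') (W⁄(𝓞 F)).Δ ∉ w'.asIdeal ∧ es L' L w' ≠ 1 ∧
      p ∣ Nat.card ((W⁄(𝓞 F))⁄(𝓞 L' ⧸ w'.asIdeal)).toAffine.Point}.ncard = Module.finrank K' L' * (AnR p W K' K).ncard := by
  classical
  have hfinR : (AnR p W K' K).Finite := by
    refine (H55R.ram_fin K' K).subset fun w hw => ?_
    exact (q_es_iff w).2 hw.2.2
  have hfinA : {w' : Pl L' | algebraMap (𝓞 F) (𝓞 L') (W⁄(𝓞 F)).Δ ∉ w'.asIdeal ∧ es L' L w' ≠ 1 ∧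
      p ∣ Nat.card ((W⁄(𝓞 F))⁄(𝓞 L' ⧸ w'.asIdeal)).toAffine.Point}.Finite := by
    refine (H55R.ram_fin L' L).subset fun w hw => hw.2.1
  -- p divides N w - 1 and N w + 1: contradiction
  have hcon : ∀ w : Pl K', es K' K w ≠ 1 → ¬ p ∣ Ideal.absNorm w.asIdeal + 1 := by
    intro w hw hd
    have h4 := H55P.tame_dvd K' K p hp h1 w (q_p hp hU w hw) hw
    have h5 : Ideal.absNorm w.asIdeal ≠ 0 := fun h => w.ne_bot (Ideal.absNorm_eq_zero_iff.1 h)
    have h6 : p ∣ 2 := by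
      have h7 := (Nat.dvd_sub hd h4)
      have h8 : Ideal.absNorm w.asIdeal + 1 - (Ideal.absNorm w.asIdeal - 1) = 2 := by omega
      rwa [h8] at h7
    exact hp2 ((Nat.prime_dvd_prime_iff_eq hp Nat.prime_two).1 h6)
  -- the discriminant
  have hD : ∀ (w : Pl K') (w' : Pl L'), w.asIdeal = w'.asIdeal.under (𝓞 K') →
      (algebraMap (𝓞 F) (𝓞 L') (W⁄(𝓞 F)).Δ ∉ w'.asIdeal ↔ ((W.Δ : ℤ) : 𝓞 K') ∉ w.asIdeal) := by
    intro w w' hw
    rw [hw, not_iff_not, Ideal.mem_comap, map_intCast]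
    have e1 : (W⁄(𝓞 F)).Δ = ((W.Δ : ℤ) : 𝓞 F) := by
      show (W.map (algebraMap ℤ (𝓞 F))).Δ = _
      rw [WeierstrassCurve.map_Δ]
      exact eq_intCast (algebraMap ℤ (𝓞 F)) W.Δ
    rw [e1, map_intCast]
  refine ⟨hfinR, ?_⟩
  refine q_fib (f := fun w' : Pl L' => HeightOneSpectrum.under (𝓞 K') w') hfinA hfinR ?_ ?_
  · rintro w' ⟨hΔ, he, hpt⟩
    obtain ⟨w, hw0⟩ : ∃ w, w = HeightOneSpectrum.under (𝓞 K') w' := ⟨_, rfl⟩
    have hw : w.asIdeal = w'.asIdeal.under (𝓞 K') := by rw [hw0]; rfl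
    show HeightOneSpectrum.under (𝓞 K') w' ∈ _
    rw [← hw0]
    have hΔ' := (hD w w' hw).1 hΔ
    rcases q_cases hQ hH w hΔ' with ⟨-, h4⟩ | ⟨h4, h5⟩
    · obtain ⟨hN, hr⟩ := h4 w' hw
      rw [q_pts W w w' hw hN] at hpt
      exact ⟨hΔ', hpt, (q_es_iff w).1 ((q_square hp hp2 h1 h2 h3 w w' hw hr).1 he)⟩
    · obtain ⟨hr, hc⟩ := h5 w' hw
      rw [hc] at hpt
      exact absurd (hp.dvd_of_dvd_pow hpt) (hcon w ((q_square hp hp2 h1 h2 h3 w w' hw hr).1 he))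
  · rintro w ⟨hΔ, hpt, hr⟩
    have he := (q_es_iff w).2 hr
    rcases q_cases hQ hH w hΔ with ⟨h4, h5⟩ | ⟨h4, h5⟩
    · rw [← h4]
      congr 1
      ext w'
      have hiff : HeightOneSpectrum.under (𝓞 K') w' = w ↔ w.asIdeal = w'.asIdeal.under (𝓞 K') :=
        ⟨fun h => by rw [← h]; rfl, fun h => HeightOneSpectrum.ext h.symm⟩
      constructor
      · rintro ⟨-, h6⟩
        exact hiff.1 h6
      · intro h6
        obtain ⟨hN, hr'⟩ := h5 w' h6
        refine ⟨⟨(hD w w' h6).2 hΔ, (q_square hp hp2 h1 h2 h3 w w' h6 hr').2 he, ?_⟩, hiff.2 h6⟩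
        rw [q_pts W w w' h6 hN]
        exact hpt
    · rw [h4] at hpt
      exact absurd hpt (hcon w he)

end H13T
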