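import Mathlib
import Pool.Agent.Lib.H13T.Q5
import Pool.Agent.Lib.H13T.C2

/-! Chunk Q6 (M). The number of the primes in AnW for the fields generated by F. PROOF. q_abs with L' = KG F K' (emb ιK), L = KG F K ιK, the algebra structures KGmap (K' → L', K → L), inclusion (L' → L, q_le) and their composite (K' → L): scalar towers by emb_apply. kg_dich (Lib/H55K/RP2.lean) for K' and emb ιK: first alternative:
KGmap F K' is bijective (F is contained in the range of emb ιK, so the adjoin is the range); second: QuadG. IsGalois K' K, degree p: q_step. L/L': CycI (q_cyc) gives PExt p L' L (c2_pext) and degree p; IsGalois L' L: H55P.s13_galois. [L:K] ≤ 2 and [L':K'] = d: q_deg with the tower formula. Ram and es: H41S.ram_es (algebra H55P.s13_alg). -/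

open NumberField IsDedekindDomain WeierstrassCurve

namespace H13T

open H55P (IQ UnrP)
open H55K H55K.TQ
open H55R (Pl es fs)

variable {F : Type} [Field F] [NumberField F] [IQ F] {p n : ℕ} {M K' K : Type} [Field M] [NumberField M]
    [Field K'] [NumberField K'] [Field K] [NumberField K] [Algebra M K'] [Algebra K' K] [Algebra M K]

/-- if F is contained in the range of ι, the field generated by F is the range -/
theorem q_bijK (K' : Type) [Field K'] [NumberField K'] (ι : K' →ₐ[ℚ] AlgebraicClosure F)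
    (f : F →+* K') (hf : ∀ y : F, ι (f y) = algebraMap F (AlgebraicClosure F) y) :
    Function.Bijective (KGmap F K' ι) := by
  refine ⟨(KGmap F K' ι).injective, fun x => ?_⟩
  let R : IntermediateField F (AlgebraicClosure F) :=
    { carrier := Set.range ι
      mul_mem' := by
        rintro _ _ ⟨a, rfl⟩ ⟨b, rfl⟩
        exact ⟨a * b, map_mul ι a b⟩
      add_mem' := by
        rintro _ _ ⟨a, rfl⟩ ⟨b, rfl⟩
        exact ⟨a + b, map_add ι a b⟩
      algebraMap_mem' := fun y => ⟨f y, hf y⟩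
      inv_mem' := by
        rintro _ ⟨a, rfl⟩
        exact ⟨a⁻¹, map_inv₀ ι a⟩ }
  have h1 : KG F K' ι ≤ R := IntermediateField.adjoin_le_iff.2 fun y hy => hy
  obtain ⟨a, ha⟩ := h1 x.2
  exact ⟨a, Subtype.ext ha⟩

theorem q_card (hp : p.Prime) (hp2 : p ≠ 2) (hn : 1 ≤ n) (h : CycT p n M K' K) (hU : UnrP p K)
    {W : WeierstrassCurve ℤ} {Om : ℂ} {m : Ideal (𝓞 F)} {ψ : Ideal (𝓞 F) →*₀ 𝓞 F} (hH : BaseH F (W⁄(𝓞 F)) Om m ψ)
    (ιK : K →ₐ[ℚ] AlgebraicClosure F) :
    ∃ d : ℕ, (d = 1 ∨ d = 2) ∧ Module.finrank ℚ (KG F K ιK) = d * Module.finrank ℚ K ∧ (AnR p W K' K).Finite ∧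
      (AnW p (W⁄(𝓞 F)) (KG F K' (emb ιK : K' →ₐ[ℚ] AlgebraicClosure F)) (KG F K ιK)).ncard = d * (AnR p W K' K).ncard := by
  obtain ⟨d, hd, hdK, hdK', -⟩ := q_deg hp hp2 h ιK
  obtain ⟨γ, c⟩ := q_cyc hp hp2 hn h ιK
  obtain ⟨hG, hdeg⟩ := q_step hp.pos h
  have hle := (q_le h ιK).2
  letI aK' : Algebra K' (KG F K' (emb ιK : K' →ₐ[ℚ] AlgebraicClosure F)) := (KGmap F K' (emb ιK)).toAlgebra
  letI aK : Algebra K (KG F K ιK) := (KGmap F K ιK).toAlgebra
  letI aL : Algebra (KG F K' (emb ιK : K' →ₐ[ℚ] AlgebraicClosure F)) (KG F K ιK) := H55P.s13_alg hle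
  letI aKL : Algebra K' (KG F K ιK) := ((algebraMap K (KG F K ιK)).comp (algebraMap K' K)).toAlgebra
  have t1 : IsScalarTower K' K (KG F K ιK) := IsScalarTower.of_algebraMap_eq fun x => rfl
  have t2 : IsScalarTower K' (KG F K' (emb ιK : K' →ₐ[ℚ] AlgebraicClosure F)) (KG F K ιK) :=
    IsScalarTower.of_algebraMap_eq fun x => Subtype.ext (by
      show ιK (algebraMap K' K x) = (emb ιK : K' →ₐ[ℚ] AlgebraicClosure F) x
      exact (emb_apply ιK x).symm)
  have hLf : FiniteDimensional F (KG F K ιK) := c.fin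
  have hpos : 0 < Module.finrank F (KG F K' (emb ιK : K' →ₐ[ℚ] AlgebraicClosure F)) := by
    have : FiniteDimensional F (KG F K' (emb ιK : K' →ₐ[ℚ] AlgebraicClosure F)) := H13R.kg_fin F K' _
    exact Module.finrank_pos
  have t3 : IsScalarTower F (KG F K' (emb ιK : K' →ₐ[ℚ] AlgebraicClosure F)) (KG F K ιK) :=
    IsScalarTower.of_algebraMap_eq fun x => rfl
  have hdL : Module.finrank (KG F K' (emb ιK : K' →ₐ[ℚ] AlgebraicClosure F)) (KG F K ιK) = p := by
    have h1 := Module.finrank_mul_finrank F (KG F K' (emb ιK : K' →ₐ[ℚ] AlgebraicClosure F)) (KG F K ιK)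
    rw [c.deg'] at h1
    exact Nat.eq_of_mul_eq_mul_left hpos h1
  have hGL : IsGalois (KG F K' (emb ιK : K' →ₐ[ℚ] AlgebraicClosure F)) (KG F K ιK) :=
    H55P.s13_galois _ _ hle (c2_pext hp.pos c).2.2.norm
  have hK'pos : 0 < Module.finrank ℚ K' := Module.finrank_pos
  have hKpos : 0 < Module.finrank ℚ K := Module.finrank_pos
  have hd1 : Module.finrank K' (KG F K' (emb ιK : K' →ₐ[ℚ] AlgebraicClosure F)) = d := by
    have h1 := Module.finrank_mul_finrank ℚ K' (KG F K' (emb ιK : K' →ₐ[ℚ] AlgebraicClosure F))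
    rw [hdK', mul_comm d] at h1
    exact Nat.eq_of_mul_eq_mul_left hK'pos h1
  have hd2 : Module.finrank K (KG F K ιK) = d := by
    have h1 := Module.finrank_mul_finrank ℚ K (KG F K ιK)
    rw [hdK, mul_comm d] at h1
    exact Nat.eq_of_mul_eq_mul_left hKpos h1
  have hQ : Function.Bijective (algebraMap K' (KG F K' (emb ιK : K' →ₐ[ℚ] AlgebraicClosure F))) ∨
      QuadG F K' (KG F K' (emb ιK : K' →ₐ[ℚ] AlgebraicClosure F)) := by
    rcases kg_dich F K' (emb ιK : K' →ₐ[ℚ] AlgebraicClosure F) with ⟨f, hf⟩ | hq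
    · exact Or.inl (q_bijK K' _ f hf)
    · exact Or.inr hq
  obtain ⟨hfin, hcard⟩ := q_abs hp hp2 hdeg hdL (by omega) hU hH hQ
  refine ⟨d, hd, hdK, hfin, ?_⟩
  rw [← hd1, ← hcard]
  congr 1
  ext w
  have hr := H41S.ram_es (KG F K' (emb ιK : K' →ₐ[ℚ] AlgebraicClosure F)) (KG F K ιK) hle w hGL
  show (_ ∧ _ ∧ _) ↔ (_ ∧ _ ∧ _)
  constructor
  · rintro ⟨h1, h2, h3⟩
    exact ⟨h1, hr.1 h2, h3⟩
  · rintro ⟨h1, h2, h3⟩
    exact ⟨h1, hr.2 h2, h3⟩

end H13T
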