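import Mathlib
import Pool.Agent.Lib.H13T.K1

/-! Chunk K2 (M). KP for the systems of curves under change of the closure, of the base field, and from valuation rings to completions.
closure_kp: copy the proof of SSG.closure_card (Lib/SSG/Z/L3.lean) with kp_hom (hA, hB; m = 1) in place of Hom.card. base_kp: copy SSG.base_card (L4.lean), kp_hom with the morphisms in the other order (h' : from (galS W Ω).res to (galS (W⁄F) Ω).res is the first argument here).
bridge_kp_short: as SSG.bridge_short (B6.lean) with kp_quot in place of b6_card (H16C.Sha W Ω is the quotient ZSha / BSha.addSubgroupOf ZSha up to unfolding, as there). bridge_kp: as SSG.bridge (B7.lean): sha_iso and b7_hom. -/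

open NumberField IsDedekindDomain WeierstrassCurve H16C

namespace H13T

open SSG

open Classical in
theorem closure_kp {k : Type} [Field k] [CharZero k] (W : WeierstrassCurve k) (K : Type) [Field K] [Algebra k K] [FiniteDimensional k K] {Ω : Type} [Field Ω]
    [Algebra k Ω] [IsAlgClosed Ω] [Algebra.IsAlgebraic k Ω] (ι : K →ₐ[k] Ω) {p : ℕ} (hp : p.Prime)
    (h : KP p ((galS W Ω).res ι.fieldRange.fixingSubgroup).Sha) : KP p (galS (W⁄K) (AlgebraicClosure K)).Sha := by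
  obtain ⟨Φ, ε, θ, h1, h2⟩ := l3_core W K ι
  have hA : Hom (galS (W⁄K) (AlgebraicClosure K)) ((galS W Ω).res ι.fieldRange.fixingSubgroup) ε.symm.toMonoidHom Φ.toAddMonoidHom := by
    refine ⟨fun g a => ?_, ?_, ?_⟩
    · show Φ (H55P.ac (W⁄K) (ε.symm g) a) = H55P.ac W (g : Ω ≃ₐ[k] Ω) (Φ a)
      rw [h2, ε.apply_symm_apply]
    · rintro _ ⟨L, hL, rfl⟩
      obtain ⟨L', hL', h3⟩ := l3_down K θ L hL
      refine ⟨_, ⟨L'.fixingSubgroup, ⟨L', hL', rfl⟩, rfl⟩, fun g hg => ?_⟩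
      apply h3
      intro x hx
      have h4 : (g : Ω ≃ₐ[k] Ω) ∈ L'.fixingSubgroup := hg
      rw [IntermediateField.mem_fixingSubgroup_iff] at h4
      have h5 := h1 (ε.symm g) x
      rw [ε.apply_symm_apply] at h5
      exact h5.symm.trans (h4 x hx)
    · rintro _ ⟨_, ⟨V, hV, rfl⟩, rfl⟩
      refine ⟨_, ⟨V.comap ((θ : AlgebraicClosure K ≃+* Ω) : AlgebraicClosure K →+* Ω), l3_top _ V hV, rfl⟩, fun g hg => ?_⟩
      have hg' : H55P.Dec V (g : Ω ≃ₐ[k] Ω) := hg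
      show H55P.Dec _ (ε.symm g)
      intro x
      have h5 := h1 (ε.symm g) (θ x)
      rw [ε.apply_symm_apply, θ.symm_apply_apply] at h5
      have h6 := hg' (θ x)
      rw [h5] at h6
      exact h6
  have hB : Hom ((galS W Ω).res ι.fieldRange.fixingSubgroup) (galS (W⁄K) (AlgebraicClosure K)) ε.toMonoidHom Φ.symm.toAddMonoidHom := by
    refine ⟨fun g a => ?_, ?_, ?_⟩
    · show Φ.symm (H55P.ac W ((ε g : ι.fieldRange.fixingSubgroup) : Ω ≃ₐ[k] Ω) a) = H55P.ac (W⁄K) g (Φ.symm a)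
      apply Φ.injective
      rw [h2, Φ.apply_symm_apply, Φ.apply_symm_apply]
    · rintro _ ⟨_, ⟨L', hL', rfl⟩, rfl⟩
      obtain ⟨L, hL, h3⟩ := l3_up K θ L' hL'
      refine ⟨_, ⟨L, hL, rfl⟩, fun g hg => ?_⟩
      show ((ε g : ι.fieldRange.fixingSubgroup) : Ω ≃ₐ[k] Ω) ∈ L'.fixingSubgroup
      rw [IntermediateField.mem_fixingSubgroup_iff]
      intro x hx
      rw [h1]
      exact h3 g hg x hx
    · rintro _ ⟨V, hV, rfl⟩
      refine ⟨_, ⟨_, ⟨V.comap ((θ.symm : Ω ≃+* AlgebraicClosure K) : Ω →+* AlgebraicClosure K), l3_top _ V hV, rfl⟩, rfl⟩, fun g hg => ?_⟩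
      have hg' : H55P.Dec V g := hg
      show H55P.Dec _ ((ε g : ι.fieldRange.fixingSubgroup) : Ω ≃ₐ[k] Ω)
      intro x
      have h6 := hg' (θ.symm x)
      rw [h1]
      rw [ValuationSubring.mem_comap, ValuationSubring.mem_comap]
      show θ.symm (θ (g (θ.symm x))) ∈ V ↔ θ.symm x ∈ V
      rw [θ.symm_apply_apply]
      exact h6
  refine kp_hom hp (m := 1) hp.not_dvd_one hA hB (fun g => ε.symm_apply_apply g) (fun a => ?_) h
  rw [one_nsmul]
  exact Φ.symm_apply_apply a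

open Classical in
theorem base_kp {k : Type} [Field k] [CharZero k] (W : WeierstrassCurve k) {F : Type} [Field F] [Algebra k F] [FiniteDimensional k F] {Ω : Type} [Field Ω]
    [Algebra k Ω] [Algebra F Ω] [IsScalarTower k F Ω] [IsAlgClosed Ω] [Algebra.IsAlgebraic k Ω] (N : IntermediateField F Ω) {p : ℕ}
    (hp : p.Prime) (h : KP p ((galS (W⁄F) Ω).res N.fixingSubgroup).Sha) : KP p ((galS W Ω).res (N.restrictScalars k).fixingSubgroup).Sha := by
  obtain ⟨φ₀, hφ₀⟩ := H55P.base_iso (F := F) (Ω := Ω) W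
  obtain ⟨e₁, he₁⟩ : ∃ e₁ : N.fixingSubgroup →* (N.restrictScalars k).fixingSubgroup,
      ∀ s, ((e₁ s : (N.restrictScalars k).fixingSubgroup) : Ω ≃ₐ[k] Ω) = (s : Ω ≃ₐ[F] Ω).restrictScalars k :=
    ⟨{ toFun := fun s => ⟨(s : Ω ≃ₐ[F] Ω).restrictScalars k, H55P.Z11_mem N s.1 s.2⟩
       map_one' := rfl
       map_mul' := fun s t => rfl }, fun s => rfl⟩
  have hbij : Function.Bijective e₁ := by
    constructor
    · intro s t hst
      have h1 : (s : Ω ≃ₐ[F] Ω).restrictScalars k = (t : Ω ≃ₐ[F] Ω).restrictScalars k := by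
        rw [← he₁, ← he₁, hst]
      apply Subtype.ext
      exact AlgEquiv.ext fun x => congrArg (fun f : Ω ≃ₐ[k] Ω => f x) h1
    · intro t
      obtain ⟨s, hs, hs'⟩ := H55P.Z11_lift N t.1 t.2
      exact ⟨⟨s, hs'⟩, Subtype.ext (by rw [he₁]; exact hs)⟩
  obtain ⟨E, hE⟩ : ∃ E : N.fixingSubgroup ≃* (N.restrictScalars k).fixingSubgroup, ∀ s, E s = e₁ s :=
    ⟨MulEquiv.ofBijective e₁ hbij, fun s => rfl⟩
  have hEs : ∀ t, e₁ (E.symm t) = t := fun t => by rw [← hE, MulEquiv.apply_symm_apply]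
  have hsE : ∀ s, E.symm (e₁ s) = s := fun s => by rw [← hE, MulEquiv.symm_apply_apply]
  have hpt : ∀ t x, ((E.symm t : N.fixingSubgroup) : Ω ≃ₐ[F] Ω) x
      = ((t : (N.restrictScalars k).fixingSubgroup) : Ω ≃ₐ[k] Ω) x := by
    intro t x
    conv_rhs => rw [← hEs t, he₁]
    rfl
  have hpt' : ∀ s x, ((e₁ s : (N.restrictScalars k).fixingSubgroup) : Ω ≃ₐ[k] Ω) x
      = ((s : N.fixingSubgroup) : Ω ≃ₐ[F] Ω) x := by
    intro s x
    rw [he₁]
    rfl
  have h₀ : Hom ((galS (W⁄F) Ω).res N.fixingSubgroup) ((galS W Ω).res (N.restrictScalars k).fixingSubgroup)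
      E.symm.toMonoidHom (φ₀.symm.toAddMonoidHom) := by
    refine ⟨fun g a => ?_, ?_, ?_⟩
    · apply φ₀.injective
      show φ₀ (φ₀.symm (H55P.ac (W⁄F) ((E.symm g : N.fixingSubgroup) : Ω ≃ₐ[F] Ω) a))
        = φ₀ (H55P.ac W ((g : (N.restrictScalars k).fixingSubgroup) : Ω ≃ₐ[k] Ω) (φ₀.symm a))
      have e1 : ((g : (N.restrictScalars k).fixingSubgroup) : Ω ≃ₐ[k] Ω)
          = ((E.symm g : N.fixingSubgroup) : Ω ≃ₐ[F] Ω).restrictScalars k := by
        rw [← he₁, hEs]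
      rw [AddEquiv.apply_symm_apply, e1, hφ₀, AddEquiv.apply_symm_apply]
    · rintro _ ⟨_, ⟨L, hL, rfl⟩, rfl⟩
      haveI : FiniteDimensional F L := hL
      have hfin : FiniteDimensional k (L.restrictScalars k) := FiniteDimensional.trans k F L
      refine ⟨_, ⟨_, ⟨L.restrictScalars k, hfin, rfl⟩, rfl⟩, fun g hg => ?_⟩
      have hg' : ((g : (N.restrictScalars k).fixingSubgroup) : Ω ≃ₐ[k] Ω) ∈ (L.restrictScalars k).fixingSubgroup := hg
      show ((E.symm g : N.fixingSubgroup) : Ω ≃ₐ[F] Ω) ∈ L.fixingSubgroup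
      rw [IntermediateField.mem_fixingSubgroup_iff] at hg' ⊢
      intro x hx
      rw [hpt]
      exact hg' x hx
    · rintro _ ⟨_, ⟨V, hV, rfl⟩, rfl⟩
      refine ⟨_, ⟨_, ⟨V, hV, rfl⟩, rfl⟩, fun g hg => ?_⟩
      intro x
      show ((E.symm g : N.fixingSubgroup) : Ω ≃ₐ[F] Ω) x ∈ V ↔ x ∈ V
      rw [hpt]
      exact hg x
  have h' : Hom ((galS W Ω).res (N.restrictScalars k).fixingSubgroup) ((galS (W⁄F) Ω).res N.fixingSubgroup)
      e₁ (φ₀.toAddMonoidHom) := by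
    refine ⟨fun g a => ?_, ?_, ?_⟩
    · show φ₀ (H55P.ac W ((e₁ g : (N.restrictScalars k).fixingSubgroup) : Ω ≃ₐ[k] Ω) a)
        = H55P.ac (W⁄F) ((g : N.fixingSubgroup) : Ω ≃ₐ[F] Ω) (φ₀ a)
      rw [he₁, hφ₀]
    · rintro _ ⟨_, ⟨L, hL, rfl⟩, rfl⟩
      haveI : FiniteDimensional k L := hL
      obtain ⟨L', hL', hg⟩ := H55P.Z11_field (F := F) L
      refine ⟨_, ⟨_, ⟨L', hL', rfl⟩, rfl⟩, fun g hg' => ?_⟩
      show ((e₁ g : (N.restrictScalars k).fixingSubgroup) : Ω ≃ₐ[k] Ω) ∈ L.fixingSubgroup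
      rw [he₁]
      exact hg _ hg'
    · rintro _ ⟨_, ⟨V, hV, rfl⟩, rfl⟩
      refine ⟨_, ⟨_, ⟨V, hV, rfl⟩, rfl⟩, fun g hg => ?_⟩
      intro x
      show ((e₁ g : (N.restrictScalars k).fixingSubgroup) : Ω ≃ₐ[k] Ω) x ∈ V ↔ x ∈ V
      rw [hpt']
      exact hg x
  refine kp_hom hp (m := 1) hp.not_dvd_one h' h₀ (fun g => hEs g) (fun a => ?_) h
  rw [one_nsmul]
  exact φ₀.symm_apply_apply a

open Classical in
theorem bridge_kp_short {K : Type} [Field K] [NumberField K] (W : WeierstrassCurve K) [W.IsShortNF] [W.IsElliptic] {p : ℕ} (hp : p.Prime)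
    (hp2 : p ≠ 2) (h : KP p (galS W (AlgebraicClosure K)).Sha) : KP p (H16C.Sha W.toAffine (AlgebraicClosure K)) := by
  have hodd : ∀ k : ℕ, Odd (p ^ k) := fun k => (hp.odd_of_ne_two hp2).pow
  refine kp_quot (ZSha W.toAffine (AlgebraicClosure K)) (galS W (AlgebraicClosure K)).Z
    (BSha W.toAffine (AlgebraicClosure K)) p ?_ h
  rintro c ⟨k, hk⟩
  have hcoc : IsCocycle W.toAffine (AlgebraicClosure K) c →
      (EverywhereTriv W.toAffine (AlgebraicClosure K) c ↔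
        TrivV W.toAffine (AlgebraicClosure K) c) :=
    fun h => b6_key W.toAffine c h (hodd k) hk
  constructor
  · rintro ⟨h1, h2⟩
    have h3 := (hcoc h1).1 h2
    refine ⟨h1.1, ?_, ?_⟩
    · obtain ⟨L, hL, h4⟩ := h1.2
      exact ⟨_, ⟨L, hL, rfl⟩, h4⟩
    · rintro _ ⟨V, hV, rfl⟩
      obtain ⟨P, hP⟩ := h3 V hV
      exact ⟨P, fun g hg => hP g hg⟩
  · intro h
    have h' : (galS W (AlgebraicClosure K)).IsZ c := h
    have h1 : IsCocycle W.toAffine (AlgebraicClosure K) c := by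
      refine ⟨h'.mul, ?_⟩
      obtain ⟨_, ⟨L, hL, rfl⟩, h4⟩ := h'.cont
      exact ⟨L, hL, h4⟩
    refine ⟨h1, (hcoc h1).2 ?_⟩
    intro V hV
    obtain ⟨P, hP⟩ := h'.loc _ ⟨V, hV, rfl⟩
    exact ⟨P, fun g hg => hP g hg⟩

open Classical in
theorem bridge_kp {K : Type} [Field K] [NumberField K] (W : WeierstrassCurve K) [W.IsElliptic] {p : ℕ} (hp : p.Prime) (hp2 : p ≠ 2)
    (h : KP p (galS W (AlgebraicClosure K)).Sha) : KP p (H16C.Sha W.toAffine (AlgebraicClosure K)) := by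
  haveI : Invertible (2 : K) := invertibleOfNonzero two_ne_zero
  haveI : Invertible (3 : K) := invertibleOfNonzero three_ne_zero
  obtain ⟨C, hC⟩ := W.exists_variableChange_isShortNF
  have D := H19Z.ZL1_rel W C
  haveI : (C • W).toAffine.IsElliptic := inferInstanceAs (C • W).IsElliptic
  haveI : W.toAffine.IsElliptic := inferInstanceAs W.IsElliptic
  obtain ⟨f⟩ := H19Q.sha_iso (W := (C • W).toAffine) (W' := W.toAffine) D (AlgebraicClosure K)
  have h3 : KP p (galS (C • W) (AlgebraicClosure K)).Sha := by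
    refine kp_hom hp (m := 1) hp.not_dvd_one (b7_hom (W := C • W) (W' := W) D (Ω := AlgebraicClosure K))
      (b7_hom' (W := C • W) (W' := W) D (Ω := AlgebraicClosure K)) (fun _ => rfl) (fun a => ?_) h
    rw [one_nsmul]
    exact (H19Q.fe (W := (C • W).toAffine) (W' := W.toAffine) D (AlgebraicClosure K)).symm_apply_apply a
  have h2 := bridge_kp_short (C • W) hp hp2 h3
  refine kp_inj f.symm.toAddMonoidHom (fun x _ hx => ?_) h2
  exact (AddEquiv.map_eq_zero_iff f.symm).1 hx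

end H13T
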