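import Mathlib
import Pool.Agent.Lib.H13T.K2
import Pool.Agent.Lib.SSG.Z.L7

/-! Chunk K3 (S/M). KP over K from KP over F K. As SSG.card_KG (Lib/SSG/Z/L7.lean): bridge_kp, closure_kp (k = ℚ), then kg_index (L6): CASE 1: equal groups; CASE 2: kp_index for S = (galS (W⁄ℚ) Ω).res G₁, H = G₂.subgroupOf G₁ (as there), and a morphism back and forth between (S.res H) and (galS (W⁄ℚ) Ω).res G₂
(res_res in L1.lean is a statement on Nat.card PP: copy its proof with kp_hom), base_kp. -/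

open NumberField IsDedekindDomain WeierstrassCurve H16C

namespace H13T

open H55P (IQ UnrP ac)
open H55K H55K.TQ
open SSG

open Classical in
theorem kp_res_res {G A : Type} [Group G] [AddCommGroup A] (S : LS G A) {G₁ G₂ : Subgroup G} (hle : G₂ ≤ G₁) {p : ℕ} (hp : p.Prime)
    (h : KP p (S.res G₂).Sha) : KP p ((S.res G₁).res (G₂.subgroupOf G₁)).Sha := by
  have h1 : Hom ((S.res G₁).res (G₂.subgroupOf G₁)) (S.res G₂) (Subgroup.subgroupOfEquivOfLe hle).symm.toMonoidHom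
      (AddMonoidHom.id A) := by
    refine ⟨fun g a => rfl, ?_, ?_⟩
    · rintro _ ⟨_, ⟨u, hu, rfl⟩, rfl⟩
      exact ⟨_, ⟨u, hu, rfl⟩, fun g hg => hg⟩
    · rintro _ ⟨d, hd, rfl⟩
      exact ⟨_, ⟨_, ⟨d, hd, rfl⟩, rfl⟩, fun g hg => hg⟩
  have h2 : Hom (S.res G₂) ((S.res G₁).res (G₂.subgroupOf G₁)) (Subgroup.subgroupOfEquivOfLe hle).toMonoidHom
      (AddMonoidHom.id A) := by
    refine ⟨fun g a => rfl, ?_, ?_⟩
    · rintro _ ⟨u, hu, rfl⟩
      exact ⟨_, ⟨_, ⟨u, hu, rfl⟩, rfl⟩, fun g hg => hg⟩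
    · rintro _ ⟨_, ⟨d, hd, rfl⟩, rfl⟩
      exact ⟨_, ⟨d, hd, rfl⟩, fun g hg => hg⟩
  exact kp_hom hp hp.not_dvd_one h1 h2 (fun g => rfl) (fun a => (one_nsmul a).symm) h

open Classical in
theorem kp_KG {F : Type} [Field F] [NumberField F] [IQ F] {W : WeierstrassCurve ℤ} {Om : ℂ} {m : Ideal (𝓞 F)} {ψ : Ideal (𝓞 F) →*₀ 𝓞 F}
    (hH : BaseH F (W⁄(𝓞 F)) Om m ψ) {p : ℕ} (hp : p.Prime) (hp2 : p ≠ 2) (K : Type) [Field K] [NumberField K]
    (ι : K →ₐ[ℚ] AlgebraicClosure F) [NumberField (KG F K ι)]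
    (h : KP p ((galS ((W⁄(𝓞 F))⁄F) (AlgebraicClosure F)).res (KG F K ι).fixingSubgroup).Sha) :
    KP p (H16C.Sha (W⁄K).toAffine (AlgebraicClosure K)) := by
  have hQF := tower_QFF F
  have hQA := alg_QFF F
  have hd0 : W.Δ ≠ 0 := by
    intro h
    apply hH.data.ell
    have e := WeierstrassCurve.map_Δ W (algebraMap ℤ (𝓞 F))
    rw [h, map_zero] at e
    exact e
  have hellK : (W⁄K).IsElliptic := by
    rw [WeierstrassCurve.isElliptic_iff]
    have e := WeierstrassCurve.map_Δ W (algebraMap ℤ K)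
    refine IsUnit.mk0 _ ?_
    intro h
    apply hd0
    have h1 : (algebraMap ℤ K) W.Δ = 0 := e.symm.trans h
    rw [eq_intCast] at h1
    exact_mod_cast h1
  have e1 : ((W⁄ℚ)⁄F) = ((W⁄(𝓞 F))⁄F) := by
    rw [fb9b_map, fb9b_map]
  have e2 : ((W⁄ℚ)⁄K) = (W⁄K) := fb9b_map W
  have c2 := closure_kp (k := ℚ) (W⁄ℚ) K ι hp
  rw [e2] at c2
  have c3 := base_kp (k := ℚ) (W⁄ℚ) (KG F K ι) hp
  rw [e1] at c3
  have c4 := c3 h
  refine bridge_kp (W⁄K) hp hp2 (c2 ?_)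
  obtain ⟨hle, ⟨hG, hf⟩ | ⟨hi, hf, hs⟩⟩ := kg_index K ι
  · rw [← hG]
    exact c4
  · have hKQ : FiniteDimensional ℚ ((KG F K ι).restrictScalars ℚ) := by
      have : FiniteDimensional F (KG F K ι) := FiniteDimensional.right ℚ F (KG F K ι)
      have : FiniteDimensional ℚ (KG F K ι) := Module.Finite.trans F (KG F K ι)
      exact this
    exact kp_index (S := (galS (W⁄ℚ) (AlgebraicClosure F)).res ι.fieldRange.fixingSubgroup)
      (conj_res (galS_conj (W⁄ℚ) (AlgebraicClosure F)) _)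
      (((KG F K ι).restrictScalars ℚ).fixingSubgroup.subgroupOf ι.fieldRange.fixingSubgroup)
      ⟨_, ⟨_, ⟨(KG F K ι).restrictScalars ℚ, hKQ, rfl⟩, rfl⟩, le_rfl⟩ hi hp hp2
      (kp_res_res (galS (W⁄ℚ) (AlgebraicClosure F)) hle hp c4)

end H13T
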