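import Mathlib
import Pool.Agent.Lib.H13T.K2

/-! # H13T, K4: the converse of bridge_kp -/

open NumberField IsDedekindDomain WeierstrassCurve H16C

namespace H13T

open SSG

open Classical in
theorem bridge_kp_short2 {K : Type} [Field K] [NumberField K] (W : WeierstrassCurve K) [W.IsShortNF] [W.IsElliptic] {p : ℕ} (hp : p.Prime)
    (hp2 : p ≠ 2) (h : KP p (H16C.Sha W.toAffine (AlgebraicClosure K))) : KP p (galS W (AlgebraicClosure K)).Sha := by
  have hodd : ∀ k : ℕ, Odd (p ^ k) := fun k => (hp.odd_of_ne_two hp2).pow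
  refine kp_quot (galS W (AlgebraicClosure K)).Z (ZSha W.toAffine (AlgebraicClosure K))
    (BSha W.toAffine (AlgebraicClosure K)) p ?_ h
  rintro c ⟨k, hk⟩
  refine Iff.symm ?_
  have hcoc : IsCocycle W.toAffine (AlgebraicClosure K) c →
      (EverywhereTriv W.toAffine (AlgebraicClosure K) c ↔
        TrivV W.toAffine (AlgebraicClosure K) c) :=
    fun h => b6_key W.toAffine c h (hodd k) hk
  constructor
  · rintro ⟨h1, h2⟩
    have h3 := (hcoc h1).1 h2
    refine ⟨h1.1, ?_, ?_⟩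
    · obtain ⟨L, hL, h4⟩ := h1.2
      exact ⟨_, ⟨L, hL, rfl⟩, h4⟩
    · rintro _ ⟨V, hV, rfl⟩
      obtain ⟨P, hP⟩ := h3 V hV
      exact ⟨P, fun g hg => hP g hg⟩
  · intro h
    have h' : (galS W (AlgebraicClosure K)).IsZ c := h
    have h1 : IsCocycle W.toAffine (AlgebraicClosure K) c := by
      refine ⟨h'.mul, ?_⟩
      obtain ⟨_, ⟨L, hL, rfl⟩, h4⟩ := h'.cont
      exact ⟨L, hL, h4⟩
    refine ⟨h1, (hcoc h1).2 ?_⟩
    intro V hV
    obtain ⟨P, hP⟩ := h'.loc _ ⟨V, hV, rfl⟩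
    exact ⟨P, fun g hg => hP g hg⟩

open Classical in
theorem bridge_kp2 {K : Type} [Field K] [NumberField K] (W : WeierstrassCurve K) [W.IsElliptic] {p : ℕ} (hp : p.Prime) (hp2 : p ≠ 2)
    (h : KP p (H16C.Sha W.toAffine (AlgebraicClosure K))) : KP p (galS W (AlgebraicClosure K)).Sha := by
  haveI : Invertible (2 : K) := invertibleOfNonzero two_ne_zero
  haveI : Invertible (3 : K) := invertibleOfNonzero three_ne_zero
  obtain ⟨C, hC⟩ := W.exists_variableChange_isShortNF
  have D := H19Z.ZL1_rel W C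
  haveI : (C • W).toAffine.IsElliptic := inferInstanceAs (C • W).IsElliptic
  haveI : W.toAffine.IsElliptic := inferInstanceAs W.IsElliptic
  obtain ⟨f⟩ := H19Q.sha_iso (W := (C • W).toAffine) (W' := W.toAffine) D (AlgebraicClosure K)
  have h2 : KP p (H16C.Sha (C • W).toAffine (AlgebraicClosure K)) :=
    kp_inj f.toAddMonoidHom (fun x _ hx => (AddEquiv.map_eq_zero_iff f).1 hx) h
  refine kp_hom hp (m := 1) hp.not_dvd_one (b7_hom' (W := C • W) (W' := W) D (Ω := AlgebraicClosure K))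
    (b7_hom (W := C • W) (W' := W) D (Ω := AlgebraicClosure K)) (fun _ => rfl) (fun a => ?_) (bridge_kp_short2 (C • W) hp hp2 h2)
  rw [one_nsmul]
  exact (H19Q.fe (W := (C • W).toAffine) (W' := W.toAffine) D (AlgebraicClosure K)).apply_symm_apply a

end H13T
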