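import Mathlib
import Pool.Agent.Lib.H13T.C11
import Pool.Agent.Lib.H13T.K3
import Pool.Agent.Lib.H13T.Q6
import Pool.Agent.Lib.SSG.Z.L8
import Pool.Agent.Lib.H55R.BF2
import Pool.Agent.Lib.H55K.BH1

/-! Chunk C14 (M). The algebraic half of the theorem over K. Put N = KG F K ιK etc. UnrP p N: H13R.unr_closF or the lemma on unramified primes in composites used in H13R (p is unramified in K and in F; see H13R.A1, K1, J4: how UnrP p (KG F K ι) is obtained from UnrP p K), PrimeH.unr.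
CycI: q_cyc (Q4), h.pos, p odd (hp.five). SelG p (W⁄(𝓞 F)) (KG F K' ..): h.unit gives SelTriv (W⁄K') p (BSDPG, Lib/H55K/FD.lean), H13R.selG_of_triv (Lib/H13R/J3.lean). few: q_card and h.few: ncard AnW = d * ncard AnR ≤ 2 * ncard AnR < p^n.
c11_main. card: SSG.card_KG (Lib/SSG/Z/L7.lean): (Nat.card (ShaC p K (W⁄K)))^d' = p^(2 * d * r) with d' = d (finrank ℚ (KG F K ιK) = d' * finrank ℚ K, both positive), so Nat.card (ShaC ..) = p^(2 r) (Nat.pow_left_injective). ShaC and H19A.ShaP are equal by rfl. kil: kp_KG (K3). pts: SSG.pts_KG (L8). -/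

open NumberField IsDedekindDomain WeierstrassCurve

namespace H13T

open H55P (IQ UnrP ac inS Pt)
open H55K H55K.TQ
open H19A (ShaP)
open SSG

theorem c14_back {F : Type} [Field F] [NumberField F] [IQ F] (K : Type) [Field K] [NumberField K]
    (ι : K →ₐ[ℚ] AlgebraicClosure F) (f : F →+* K) (hf : ∀ y : F, ι (f y) = algebraMap F (AlgebraicClosure F) y) :
    Nonempty (KG F K ι →+* K) := by
  have hmem : ∀ x ∈ KG F K ι, ∃ y : K, ι y = x := by
    intro x hx
    refine IntermediateField.adjoin_induction F (p := fun x _ => ∃ y : K, ι y = x) ?_ ?_ ?_ ?_ ?_ hx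
    · rintro _ ⟨y, rfl⟩
      exact ⟨y, rfl⟩
    · intro y
      exact ⟨f y, hf y⟩
    · rintro x y _ _ ⟨a, rfl⟩ ⟨b, rfl⟩
      exact ⟨a + b, map_add _ _ _⟩
    · rintro x _ ⟨a, rfl⟩
      exact ⟨a⁻¹, map_inv₀ _ _⟩
    · rintro x y _ _ ⟨a, rfl⟩ ⟨b, rfl⟩
      exact ⟨a * b, map_mul _ _ _⟩
  choose g hg using fun x : KG F K ι => hmem x x.2
  have hinj : ∀ a b : K, ι a = ι b → a = b := fun a b h => ι.injective h
  exact ⟨{ toFun := g
           map_one' := hinj _ _ (by rw [hg, map_one]; rfl)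
           map_zero' := hinj _ _ (by rw [hg, map_zero]; rfl)
           map_mul' := fun x y => hinj _ _ (by rw [hg, map_mul, hg, hg]; rfl)
           map_add' := fun x y => hinj _ _ (by rw [hg, map_add, hg, hg]; rfl) }⟩

theorem c14_es {F : Type} [Field F] [NumberField F] {K : Type} [Field K] [NumberField K] [Algebra F K] [IsGalois F K]
    (W : H55R.Pl K) : H55R.es F K (W.under (𝓞 F)) = W.asIdeal.ramificationIdx (𝓞 F) := by
  have hvp := (W.under (𝓞 F)).isPrime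
  have hwp := W.isPrime
  have hl : W.asIdeal.LiesOver (W.under (𝓞 F)).asIdeal := (H55R.BF2_mem (W.under (𝓞 F)) W rfl).2
  unfold H55R.es
  rw [Ideal.ramificationIdxIn_eq_ramificationIdx (W.under (𝓞 F)).asIdeal W.asIdeal Gal(K/F)]

theorem c14_quad {F K L : Type} [Field F] [NumberField F] [IQ F] [Field K] [NumberField K] [Field L] [NumberField L]
    [Algebra F L] [Algebra K L] (hQ : QuadG F K L) {p : ℕ} (hp : p.Prime) (hp2 : p ≠ 2) (hU : UnrP p F)
    (hK : UnrP p K) : UnrP p L := by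
  have : Algebra.IsQuadraticExtension K L := ⟨hQ.rank⟩
  have hgal : IsGalois K L := inferInstance
  rw [unr_iff hp] at hK ⊢
  intro W hW
  have hpW : (p : 𝓞 L) ∈ W.asIdeal := Ideal.pow_le_self two_ne_zero hW
  have hr : W.asIdeal.ramificationIdx (𝓞 K) = 1 := by
    rcases quad_primes hQ (W.under (𝓞 K)) with ⟨w₁, w₂, hne, h1, h2, h3⟩ | ⟨w₁, h1, h3⟩ | ⟨w₁, h1, h3⟩
    · have e1 := (h3 w₁).2 (Or.inl rfl)
      have e2 := (h3 w₂).2 (Or.inr rfl)
      have h4 := q_un hQ.rank _ _ _ hne e1 e2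
      rcases (h3 W).1 rfl with h5 | h5
      · rw [h5]
        exact h4.1
      · rw [h5]
        exact h4.2
    · have h5 := (h3 W).1 rfl
      rw [← h5] at h1
      exact q_un2 hQ.rank _ _ rfl h1
    · exfalso
      have h5 := (h3 W).1 rfl
      rw [← h5] at h1
      obtain ⟨δ, hδ, hδp⟩ := nk2_delta hp hp2 hU
      have h4 := Ideal.mul_mem_right (algebraMap (𝓞 F) (𝓞 L) (2 * cj δ)) _ (h1 δ)
      rw [← map_mul] at h4
      have e1 : (δ - cj δ) * (2 * cj δ) = ((4 * H55P.Nm δ : ℕ) : 𝓞 F) := by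
        have e2 := mul_cj δ
        push_cast
        rw [← e2, hδ]
        ring
      rw [e1, map_natCast] at h4
      have hcop : Nat.Coprime (4 * H55P.Nm δ) p := by
        have h42 : Nat.Coprime 4 p := by
          have h2p : Nat.Coprime 2 p := (Nat.coprime_primes Nat.prime_two hp).2 (Ne.symm hp2)
          have := Nat.Coprime.pow_left 2 h2p
          norm_num at this
          exact this
        exact Nat.Coprime.mul_left h42 ((Nat.Prime.coprime_iff_not_dvd hp).2 hδp).symm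
      have hco := (Nat.isCoprime_iff_coprime.2 hcop)
      obtain ⟨a, b, hab⟩ := hco
      apply W.isPrime.ne_top
      rw [Ideal.eq_top_iff_one]
      have e3 : (1 : 𝓞 L) = (a : 𝓞 L) * ((4 * H55P.Nm δ : ℕ) : 𝓞 L) + (b : 𝓞 L) * (p : 𝓞 L) := by
        have := congrArg (fun z : ℤ => (z : 𝓞 L)) hab
        push_cast at this ⊢
        exact this.symm
      rw [e3]
      exact Ideal.add_mem _ (Ideal.mul_mem_left _ _ h4) (Ideal.mul_mem_left _ _ hpW)
  have hes : H55R.es K L (W.under (𝓞 K)) = 1 := (c14_es W).trans hr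
  have hp0 : (p : K) ≠ 0 := Nat.cast_ne_zero.mpr hp.ne_zero
  have h1 := H55R.ord_map W (W.under (𝓞 K)) rfl (Units.mk0 (p : K) hp0)
  rw [hes, Nat.cast_one, one_mul] at h1
  have h2 : ¬ ((2 : ℕ) : ℤ) ≤ H55R.ord (W.under (𝓞 K)) (Units.mk0 (p : K) hp0) := by
    rw [H55R.ord_int (W.under (𝓞 K)) (p : 𝓞 K) (Units.mk0 (p : K) hp0) (by simp)]
    exact hK _
  have h3 : ((2 : ℕ) : ℤ) ≤ H55R.ord W (Units.map (algebraMap K L : K →* L) (Units.mk0 (p : K) hp0)) := by
    rw [H55R.ord_int W (p : 𝓞 L) _ (by simp)]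
    exact hW
  rw [h1] at h3
  exact h2 h3

theorem c14_unr {F : Type} [Field F] [NumberField F] [IQ F] {p : ℕ} (hp : p.Prime) (hp2 : p ≠ 2) (hU : UnrP p F)
    (K : Type) [Field K] [NumberField K] (ι : K →ₐ[ℚ] AlgebraicClosure F) (hK : UnrP p K) : UnrP p (KG F K ι) := by
  rcases kg_dich F K ι with ⟨f, hf⟩ | hQ
  · obtain ⟨g⟩ := c14_back K ι f hf
    letI : Algebra (KG F K ι) K := g.toAlgebra
    exact H55P.UnrP.down (KG F K ι) K p hp hK
  · letI : Algebra K (KG F K ι) := (KGmap F K ι).toAlgebra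
    exact c14_quad hQ hp hp2 hU hK

open Classical in
theorem alg_main {F : Type} [Field F] [NumberField F] [IQ F] {W : WeierstrassCurve ℤ} {Om : ℂ} {m : Ideal (𝓞 F)} {ψ : Ideal (𝓞 F) →*₀ 𝓞 F}
    (hH : BaseH F (W⁄(𝓞 F)) Om m ψ) {p : ℕ} (hp : PrimeH F (W⁄(𝓞 F)) p) {M K' K : Type} [Field M] [NumberField M] [Field K'] [NumberField K']
    [Field K] [NumberField K] [Algebra M K'] [Algebra K' K] [Algebra M K] (ιK : K →ₐ[ℚ] AlgebraicClosure F) {n : ℕ}
    (h : HypS F p n W M K' K ιK) :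
    (Finite (W⁄K).toAffine.Point ∧ ¬ p ∣ Nat.card (W⁄K).toAffine.Point) ∧
      Nat.card (ShaP p K (W⁄K)) = p ^ (2 * (AnR p W K' K).ncard) ∧
      ∀ z : H16C.Sha (W⁄K).toAffine (AlgebraicClosure K), (∃ k : ℕ, (p ^ k : ℕ) • z = 0) → p • z = 0 := by
  have hp2 : p ≠ 2 := by
    have := hp.five
    omega
  obtain ⟨γ, c⟩ := q_cyc hp.prime hp2 h.pos h.cyc ιK
  have hUN : UnrP p (KG F K ιK) := c14_unr hp.prime hp2 hp.unr K ιK h.unr
  have hSel : H55P.SelG p (W⁄(𝓞 F)) (KG F K' (emb ιK : K' →ₐ[ℚ] AlgebraicClosure F)) :=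
    H13R.selG_of_triv hH hp.prime hp2 hp.unr K' (emb ιK) h.unit.1.1
  obtain ⟨d, hd, hdeg, hfin, hcard⟩ := q_card hp.prime hp2 h.pos h.cyc h.unr hH ιK
  have few : (AnW p (W⁄(𝓞 F)) (KG F K' (emb ιK : K' →ₐ[ℚ] AlgebraicClosure F)) (KG F K ιK)).ncard < p ^ n := by
    rw [hcard]
    have hf := h.few
    rcases hd with rfl | rfl
    · omega
    · exact hf
  obtain ⟨m1, m2, m3, m4⟩ := c11_main hH hp c hUN h.bad hSel few
  refine ⟨pts_KG W hp.prime K ιK m3 m4, ?_, kp_KG hH hp.prime hp2 K ιK m2⟩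
  obtain ⟨d', hd', hdeg', hcard'⟩ := card_KG hH hp.prime hp2 hp.unr K ιK
  have hdd : d' = d := by
    have h1 : 0 < Module.finrank ℚ K := Module.finrank_pos
    exact Nat.eq_of_mul_eq_mul_right h1 (hdeg'.symm.trans hdeg)
  rw [m1, hcard, hdd] at hcard'
  have hd0 : d ≠ 0 := by
    rw [← hdd]
    exact hd'.ne'
  have e1 : p ^ (2 * (d * (AnR p W K' K).ncard)) = (p ^ (2 * (AnR p W K' K).ncard)) ^ d := by
    rw [← pow_mul]
    congr 1
    ring
  rw [e1] at hcard'
  exact Nat.pow_left_injective hd0 hcard'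

end H13T
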