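import Mathlib
import Pool.Agent.Lib.H41G.Res
import Pool.Agent.Lib.H57N.E8
import Pool.Agent.Lib.H55W.EZM
import Pool.Agent.Lib.H55K.EX2
import Pool.Agent.Lib.H28I.A1

/-!
# Nontrivial Tate-Shafarevich groups and the p-part of the Birch and Swinnerton-Dyer conjecture in cyclic p-extensions

F is an imaginary quadratic field of class number one, E an elliptic curve over the rationals with complex multiplication (over F)
by an order of F, given by a global minimal equation W (CM F W; all 13 orders of class number one).
p ≥ 5 is a prime number of good reduction: it does not divide the discriminant of W.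

THE THEOREM (sha: H41G.ShaThmO). M ⊆ K' ⊆ K are number fields, K/M is Galois with cyclic group of order p^(n+1), n ≥ 1, and K' is the subfield of
degree p^n over M (H13T.CycT); M is arbitrary. Hypotheses (H41G.HypSO): p is unramified in K; at the primes of FM which divide the discriminant of W
and at which W has good reduction over FM, p does not divide the number of points of the reduction (OkM); over K' the p-part of the conjecture is
trivial (BSDPG p W K': the p-Selmer group and the p-torsion of the Tate-Shafarevich group are zero, the group of points is finite of order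
prime to p, the L-series of W over K' continues to Re s > 1/2, does not vanish at 1, and the analytic order of the Tate-Shafarevich group is a p-adic
unit). Let r be the number of the primes w of K' which do not divide the discriminant of W, are ramified in K, and such that p divides the number of points of W
over the residue field of w (H13T.AnR); 2 r < p^n.
Conclusions over K (H13T.AtKS): E(K) is finite of order prime to p; the p-primary part of the Tate-Shafarevich group of E over K has order p^(2r)
and is killed by p, so it is isomorphic to (ℤ/p)^(2r); the L-series of W over K (Mathlib: WeierstrassCurve.LSeries) converges absolutely for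
Re s > 3/2, continues to Re s > 1/2 and does not vanish at 1; the analytic order shaG of the Tate-Shafarevich group (the number predicted by the refined
conjecture) has the valuation of the order p^(2r) of the p-primary part of the Tate-Shafarevich group, for all valuations above p: the rank part
and the p-part of the refined conjecture hold over K.

EXISTENCE. If the analytic order of the Tate-Shafarevich group over the rationals is a p-adic unit (AnUnitG p W ℚ; true for all but finitely many p if
L(W/ℚ, 1) is not zero: almost; for y^2 + y = x^3 true for all p ≥ 5), then for every finite p-group H and every R₀ the theorem applies to fields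
M ⊆ K' ⊆ K with r ≥ R₀ such that K/F is Galois of degree a power of p and H is a subgroup of Gal(K/F) (exist); and to fields with a real place
such that FK has degree 2 over K, is Galois over ℚ, of degree a power of p over F, and H is a subquotient of Gal(FK/F) (real).
-/

open NumberField IsDedekindDomain WeierstrassCurve H55P H55K.TQ

namespace H13T.NS

/-- W is a global minimal equation of an elliptic curve over the rationals with complex multiplication by the order of conductor f of F,
of class number one (H55Y.Cond): its period lattice is a multiple of the lattice of this order. -/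
def CM (F : Type) [Field F] [NumberField F] [IQ F] (W : WeierstrassCurve ℤ) : Prop :=
  W.Δ ≠ 0 ∧ H13D.MinZ W ∧ ∃ (f : ℕ) (Om : ℂ), H55Y.Cond F f ∧
    H55Y.PerO F f (-(eF F (W⁄(𝓞 F)).c₄) / 48) (-(eF F (W⁄(𝓞 F)).c₆) / 864) Om

/-- For every finite p-group H and every bound R₀ the theorem applies to fields M ⊆ K' ⊆ K, where K has a real place, with at least R₀ primes in AnR,
such that H is a subquotient of the Galois group over F of a field N, quadratic over K, Galois over ℚ and of degree a power of p over F. -/
def ExistReal (F : Type) [Field F] [NumberField F] [IQ F] (p : ℕ) (W : WeierstrassCurve ℤ) : Prop :=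
  ∀ (H : Type) [Group H] [Finite H] (k : ℕ), Nat.card H = p ^ k → ∀ R₀ : ℕ,
    ∃ (M K' K : Type) (_ : Field M) (_ : NumberField M) (_ : Field K') (_ : NumberField K') (_ : Field K) (_ : NumberField K)
      (_ : Algebra M K') (_ : Algebra K' K) (_ : Algebra M K) (n : ℕ),
      0 < InfinitePlace.nrRealPlaces K ∧
      (∀ ιK : K →ₐ[ℚ] AlgebraicClosure F, H41G.HypSO F p n W M K' K ιK) ∧ R₀ ≤ (AnR p W K' K).ncard ∧
      ∃ (N : Type) (_ : Field N) (_ : NumberField N) (_ : Algebra F N) (_ : Algebra K N),
        Module.finrank K N = 2 ∧ IsGalois ℚ N ∧ (∃ r : ℕ, Module.finrank F N = p ^ r) ∧ H28R.SubQ (N ≃ₐ[F] N) H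

/-- The conclusions for the prime p. -/
structure AtP (F : Type) [Field F] [NumberField F] [IQ F] (p : ℕ) (W : WeierstrassCurve ℤ) : Prop where
  sha : H41G.ShaThmO F p W
  exist : AnUnitG p W ℚ → H41G.ExistSO F p W
  real : AnUnitG p W ℚ → ExistReal F p W

theorem real_o {F : Type} [Field F] [NumberField F] [IQ F] {p : ℕ} {W : WeierstrassCurve ℤ} (h : H57N.ExistRealS F p W) :
    ExistReal F p W := by
  intro H _ _ k hk R₀
  obtain ⟨M, K', K, i1, i2, i3, i4, i5, i6, i7, i8, i9, n, a, b, c, d⟩ := h H k hk R₀
  exact ⟨M, K', K, i1, i2, i3, i4, i5, i6, i7, i8, i9, n, a, fun ιK => H41G.hyp_o (b ιK), c, d⟩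

theorem result :
    (∀ (F : Type) [Field F] [NumberField F] [IQ F] (W : WeierstrassCurve ℤ), CM F W →
      (∀ p : ℕ, p.Prime → 5 ≤ p → ¬ (p : ℤ) ∣ W.Δ → AtP F p W) ∧
      (LNz W ℚ → {p : ℕ | p.Prime ∧ ¬ AnUnitG p W ℚ}.Finite)) ∧
    CM H55B.F EZ ∧ ∀ p : ℕ, p.Prime → 5 ≤ p → AnUnitG p EZ ℚ := by
  have hcub : ∀ (F : Type) [Field F] [NumberField F] [IQ F], ∀ w : 𝓞 F, w ^ 2 + w + 1 = 0 → ∀ n : ℤ, n ≠ 0 →
      ∃ κ : 𝓞 F → 𝓞 F, H55W.PRC (𝓞 F) 3 n (3 * n) (27 * n) κ := fun F _ _ _ w hw n hn => H55W.cub_F F IQ.deg w hw n hn
  refine ⟨fun F _ _ _ W' hC => ?_, ⟨by rw [H55W.ezm_disc]; norm_num, H55W.ezm_min, ?_⟩, fun p hp h5 => H55K.TQ.ex_an hp h5⟩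
  · have hC' : H19A.CM F W' := hC
    rcases H55Y.y5_cases hC (hcub F) with ⟨Om, hper⟩ | ⟨W, Om, m, ψ, kap, e, t, u, lam, hΔ, hper, h⟩
    · obtain ⟨hΔ, hmin, -⟩ := hC
      obtain ⟨ψ, hH⟩ := H55W.base_all0 (hcub F) W' Om hΔ hper hmin
      refine ⟨fun p hp h5 hd => ?_, fun hL => ?_⟩
      · have hP := H55W.prime_simple hΔ hper hp h5 hd
        exact ⟨H41G.sha_allO F W' hC' p hp h5 hd, fun hA => H41G.exist_o (H57N.exist_main hH hP hA),
          fun hA => real_o (H57N.real_main hH hP hA)⟩
      · refine ((prime_almost (W'⁄(𝓞 F)) hH.data.ell).union (an_almost hH hL)).subset fun p hp => ?_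
        obtain ⟨h1, h2⟩ := hp
        by_cases h3 : PrimeH F (W'⁄(𝓞 F)) p
        · exact Or.inr ⟨h1, fun h4 => h2 h4⟩
        · exact Or.inl ⟨h1, h3⟩
    · refine ⟨fun p hp h5 hd => ?_, fun hL => ?_⟩
      · have hP0 := H55W.prime_simple hΔ hper hp h5 fun h' => hd (H55Y.y6_dvd h hp h')
        have hP := (H28I.tw_prime h).2 hP0
        exact ⟨H41G.sha_allO F W' hC' p hp h5 hd, fun hA => H41G.exist_o (H57N.exist_iso h hP hA),
          fun hA => real_o (H57N.real_iso h hP hA)⟩
      · exact (H28I.almost_iso h hL).subset fun p hp => ⟨hp.1, fun h4 => hp.2 h4.2⟩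
  · obtain ⟨Om, hper⟩ := H55W.ezm_per
    refine ⟨1, Om, Or.inl rfl, hper.ne, LF H55B.F, fun z => ?_, hper.g2, hper.g3⟩
    rw [H55P.mem_LF]
    constructor
    · rintro ⟨y, rfl⟩
      exact ⟨0, y, by rw [Int.cast_zero, zero_add, Nat.cast_one, one_mul]⟩
    · rintro ⟨a, y, rfl⟩
      exact ⟨(a : 𝓞 H55B.F) + y, by rw [map_add, map_intCast, Nat.cast_one, one_mul]⟩

end H13T.NS
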